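import Mathlib

/-!
# Sobolev Finsler metrics on the diffeomorphism group of the round sphere

Definitions for the diameter problem: the fractional Sobolev norm on the coordinate space,
smooth atlases with a subordinate partition of unity on the sphere `S^n`, the induced Sobolev norm
of a tangent vector field, smooth paths of diffeomorphisms, their Eulerian velocity, the length of
a path for a right-invariant Finsler metric, the geodesic distance and the diameter of
the identity component of the group of smooth diffeomorphisms.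
-/

open scoped ContDiff Manifold ENNReal Topology
open MeasureTheory Set

namespace Pool.Agent.H78.Diam

/-! ### Sobolev norms -/

section Sobolev

variable {X F : Type} [NormedAddCommGroup X] [NormedSpace ℝ X] [MeasureSpace X]
  [NormedAddCommGroup F] [NormedSpace ℝ F]

omit [NormedSpace ℝ X] [NormedSpace ℝ F] in
/-- The Gagliardo seminorm of order `σ` and exponent `p` of a function `G` on a space of
dimension `d`: `(∬ ‖G x - G y‖^p / |x - y|^(d + σ p) dx dy)^(1/p)`. -/
noncomputable def gagliardo (d σ p : ℝ) (G : X → F) : ℝ≥0∞ :=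
  (∫⁻ x, ∫⁻ y, ‖G x - G y‖ₑ ^ p / ENNReal.ofReal (‖x - y‖ ^ (d + σ * p))) ^ (1 / p)

/-- The Sobolev norm `W^{s,p}` of a map `w` on a space of dimension `d`: the sum of the `L^p`
norms of the derivatives of order at most `⌊s⌋`, plus, if `s` is not an integer, the Gagliardo
seminorm of order `s - ⌊s⌋` of the derivative of order `⌊s⌋`. -/
noncomputable def sobolevNorm (d s p : ℝ) (w : X → F) : ℝ≥0∞ :=
  (∑ j ∈ Finset.range (⌊s⌋₊ + 1), eLpNorm (iteratedFDeriv ℝ j w) (ENNReal.ofReal p) volume)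
    + (if Int.fract s = 0 then 0 else gagliardo d (Int.fract s) p (iteratedFDeriv ℝ ⌊s⌋₊ w))

end Sobolev

/-- The pseudo-inverse `(A*A)⁻¹A*` of a continuous linear map `A`; in finite dimension, if `A` is
injective, it maps `A v` to `v`. -/
noncomputable def pinv {X Y : Type} [NormedAddCommGroup X] [InnerProductSpace ℝ X]
    [CompleteSpace X] [NormedAddCommGroup Y] [InnerProductSpace ℝ Y] [CompleteSpace Y]
    (A : X →L[ℝ] Y) : Y →L[ℝ] X :=
  (ContinuousLinearMap.inverse ((ContinuousLinearMap.adjoint A).comp A)).comp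
    (ContinuousLinearMap.adjoint A)

/-! ### Right-invariant Finsler metrics on diffeomorphism groups -/

section Finsler

variable {EM H M Y : Type} [NormedAddCommGroup EM] [NormedSpace ℝ EM] [TopologicalSpace H]
  {I : ModelWithCorners ℝ EM H} [TopologicalSpace M] [ChartedSpace H M]
  [NormedAddCommGroup Y] [NormedSpace ℝ Y]

/-- A smooth path `[0,1] → Diff(M)`: the map `(t,x) ↦ φ_t(x)` is smooth on `[0,1] × M`. -/
def SmoothPath (φ : ℝ → Diffeomorph I I M M ∞) : Prop :=
  ContMDiffOn (𝓘(ℝ, ℝ).prod I) I ∞ (fun q : ℝ × M => φ q.1 q.2)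
    (Icc (0 : ℝ) 1 ×ˢ (univ : Set M))

/-- The Eulerian velocity `∂_t φ ∘ φ_t^{-1}` of a path of diffeomorphisms of a manifold embedded
by `ι` in a vector space `Y`, as a map with values in `Y`. -/
noncomputable def velocity (ι : M → Y) (φ : ℝ → Diffeomorph I I M M ∞) (t : ℝ) (x : M) : Y :=
  derivWithin (fun τ => ι (φ τ ((φ t).symm x))) (Icc (0 : ℝ) 1) t

/-- The length of a path for the right-invariant Finsler metric given by the norm `nm` on vector
fields: `∫_0^1 ‖∂_t φ ∘ φ^{-1}‖ dt`. -/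
noncomputable def length (ι : M → Y) (nm : (M → Y) → ℝ≥0∞) (φ : ℝ → Diffeomorph I I M M ∞) :
    ℝ≥0∞ :=
  ∫⁻ t in Icc (0 : ℝ) 1, nm (velocity ι φ t)

/-- The geodesic distance: the infimum of the lengths of the smooth paths from `φ₀` to `φ₁`. -/
noncomputable def dist (ι : M → Y) (nm : (M → Y) → ℝ≥0∞) (φ₀ φ₁ : Diffeomorph I I M M ∞) :
    ℝ≥0∞ :=
  ⨅ (φ : ℝ → Diffeomorph I I M M ∞) (_ : SmoothPath φ ∧ φ 0 = φ₀ ∧ φ 1 = φ₁), length ι nm φ

/-- The identity component `Diff_0(M)`: the diffeomorphisms joined to the identity by a smooth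
path. -/
def Diff0 (I : ModelWithCorners ℝ EM H) (M : Type) [TopologicalSpace M] [ChartedSpace H M] :
    Set (Diffeomorph I I M M ∞) :=
  {ψ | ∃ φ : ℝ → Diffeomorph I I M M ∞, SmoothPath φ ∧ φ 0 = Diffeomorph.refl I M ∞ ∧ φ 1 = ψ}

/-- The diameter `sup_{ψ ∈ Diff_0(M)} dist(id, ψ)`. -/
noncomputable def diam (I : ModelWithCorners ℝ EM H) (ι : M → Y) (nm : (M → Y) → ℝ≥0∞) : ℝ≥0∞ :=
  ⨆ ψ ∈ Diff0 I M, dist ι nm (Diffeomorph.refl I M ∞) ψ

end Finsler

/-! ### The sphere -/

/-- The ambient Euclidean space `ℝ^{n+1}`. -/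
abbrev E (n : ℕ) : Type := EuclideanSpace ℝ (Fin (n + 1))

/-- The coordinate space `ℝ^n`. -/
abbrev V (n : ℕ) : Type := EuclideanSpace ℝ (Fin n)

/-- The unit sphere `S^n` in `ℝ^{n+1}`. -/
abbrev S (n : ℕ) : Type := Metric.sphere (0 : E n) 1

/-- Data defining a `W^{s,p}` norm for vector fields on `S^n`: finitely many smooth maps
`e a : ℝ^n → S^n` (for instance exponential maps at the points `x_a`), each an injective immersion
on an open set `U a`, compact sets `K a ⊆ U a`, and a smooth partition of unity `ρ a` with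
`ρ a` supported in `e a '' K a`. -/
structure Atlas (n : ℕ) where
  /-- number of charts -/
  N : ℕ
  /-- the chart parametrizations -/
  e : Fin N → V n → S n
  /-- the chart domains -/
  U : Fin N → Set (V n)
  /-- the compact sets which carry the partition of unity -/
  K : Fin N → Set (V n)
  /-- the partition of unity -/
  ρ : Fin N → S n → ℝ
  smooth_e : ∀ a, ContDiff ℝ ∞ (fun ξ => (e a ξ : E n))
  isOpen_U : ∀ a, IsOpen (U a)
  inj : ∀ a, InjOn (e a) (U a)
  imm : ∀ a, ∀ ξ ∈ U a, Function.Injective (fderiv ℝ (fun η => (e a η : E n)) ξ)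
  isCompact_K : ∀ a, IsCompact (K a)
  K_subset : ∀ a, K a ⊆ U a
  smooth_ρ : ∀ a, ContMDiff (𝓡 n) 𝓘(ℝ, ℝ) ∞ (ρ a)
  ρ_nonneg : ∀ a x, 0 ≤ ρ a x
  ρ_sum : ∀ x, ∑ a, ρ a x = 1
  ρ_supp : ∀ a, tsupport (ρ a) ⊆ e a '' K a

namespace Atlas

variable {n : ℕ} (D : Atlas n)

/-- The local representative of the vector field `ρ_a u` in the chart `e a`: at `ξ ∈ U a` it is
`ρ_a(e ξ)` times the vector `v` with `De(ξ) v = u(e ξ)`. -/
noncomputable def localRep (a : Fin D.N) (u : S n → E n) (ξ : V n) : V n :=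
  open Classical in
  if ξ ∈ D.U a then D.ρ a (D.e a ξ) • pinv (fderiv ℝ (fun η => (D.e a η : E n)) ξ) (u (D.e a ξ))
  else 0

/-- The `W^{s,p}(S^n)` norm of a vector field `u`:
`(∑_a ‖local representative of ρ_a u in the chart e_a‖_{W^{s,p}}^2)^{1/2}`. -/
noncomputable def norm (s p : ℝ) (u : S n → E n) : ℝ≥0∞ :=
  (∑ a, sobolevNorm (n : ℝ) s p (D.localRep a u) ^ (2 : ℝ)) ^ (1 / 2 : ℝ)

end Atlas

/-- Smooth diffeomorphisms of `S^n`. -/
abbrev Dif (n : ℕ) : Type := Diffeomorph (𝓡 n) (𝓡 n) (S n) (S n) ∞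

/-- The inclusion of the sphere in the ambient space. -/
def incl (n : ℕ) (x : S n) : E n := x

end Pool.Agent.H78.Diam
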