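import Pool.Agent.H78.Diam.Base

open scoped ContDiff Manifold ENNReal Topology
open MeasureTheory Set

namespace Pool.Agent.H78.Diam

variable {n : ℕ}
variable {Z : Type*} [NormedAddCommGroup Z] [NormedSpace ℝ Z]
variable {Z' : Type*} [NormedAddCommGroup Z'] [NormedSpace ℝ Z']
variable {G : Type*} [NormedAddCommGroup G] [NormedSpace ℝ G]
variable {H : Type*} [NormedAddCommGroup H] [NormedSpace ℝ H]

/-- the north pole -/
noncomputable def north (n : ℕ) : S n := ⟨EuclideanSpace.single 0 1, by simp⟩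

/-- radial projection onto the sphere -/
noncomputable def nrm (p : E n) : S n :=
  open Classical in
  if h : p = 0 then north n else ⟨‖p‖⁻¹ • p, by simp [norm_smul, h]⟩

lemma norm_coe (x : S n) : ‖(x : E n)‖ = 1 := by
  simp

lemma coe_ne_zero (x : S n) : (x : E n) ≠ 0 := by
  intro h
  have h1 := norm_coe x
  rw [h] at h1; simp at h1

lemma coe_nrm {p : E n} (hp : p ≠ 0) : (nrm p : E n) = ‖p‖⁻¹ • p := by
  simp [nrm, hp]

lemma nrm_coe (x : S n) : nrm (x : E n) = x := by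
  apply Subtype.ext
  rw [coe_nrm (coe_ne_zero x), norm_coe]; simp

lemma nrm_smul {r : ℝ} (hr : 0 < r) (x : S n) : nrm (r • (x : E n)) = x := by
  apply Subtype.ext
  have h : r • (x : E n) ≠ 0 := smul_ne_zero hr.ne' (coe_ne_zero x)
  rw [coe_nrm h, norm_smul, norm_coe, Real.norm_of_nonneg hr.le, mul_one, smul_smul,
    inv_mul_cancel₀ hr.ne', one_smul]

lemma norm_smul_nrm (p : E n) : ‖p‖ • (nrm p : E n) = p := by
  by_cases hp : p = 0
  · simp [hp]
  · rw [coe_nrm hp, smul_smul, mul_inv_cancel₀ (norm_ne_zero_iff.2 hp), one_smul]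

lemma contDiffAt_nrm {p : E n} (hp : p ≠ 0) : ContDiffAt ℝ ∞ (fun q => (nrm q : E n)) p := by
  have h1 : ContDiffAt ℝ ∞ (fun q : E n => ‖q‖⁻¹ • q) p :=
    ((contDiffAt_norm ℝ hp).inv (norm_ne_zero_iff.2 hp)).smul contDiffAt_id
  refine h1.congr_of_eventuallyEq ?_
  filter_upwards [isOpen_ne.mem_nhds hp] with q hq
  exact coe_nrm hq

lemma contDiffAt_prod_nrm (z : Z) {p : E n} (hp : p ≠ 0) :
    ContDiffAt ℝ ∞ (fun q : Z × E n => (q.1, (nrm q.2 : E n))) (z, p) :=
  contDiffAt_fst.prodMk (ContDiffAt.comp (z, p) (g := fun q : E n => (nrm q : E n))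
    (f := Prod.snd) (contDiffAt_nrm hp) contDiffAt_snd)

/-- `f` is smooth at `(z, x)` jointly in the parameter and the point of the sphere -/
def SmAt (f : Z → S n → G) (z : Z) (x : S n) : Prop :=
  ContDiffAt ℝ ∞ (fun q : Z × E n => f q.1 (nrm q.2)) (z, (x : E n))

/-- `f` is a smooth family of functions on the sphere -/
def Sm (f : Z → S n → G) : Prop := ∀ z x, SmAt f z x

/-- the family of maps of the sphere is smooth -/
def SmS (f : Z → S n → S n) : Prop := Sm (fun z x => (f z x : E n))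

lemma tendsto_nrm (z : Z) (x : S n) :
    Filter.Tendsto (fun q : Z × E n => (q.1, nrm q.2)) (𝓝 (z, (x : E n))) (𝓝 (z, x)) := by
  have h1 : ContinuousAt (fun q : E n => (nrm q : E n)) (x : E n) :=
    (contDiffAt_nrm (coe_ne_zero x)).continuousAt
  have h2 : Filter.Tendsto (fun q : E n => nrm q) (𝓝 (x : E n)) (𝓝 x) := by
    rw [nhds_subtype_eq_comap, Filter.tendsto_comap_iff]
    have := h1.tendsto
    simp only [nrm_coe] at this
    exact this
  rw [nhds_prod_eq, nhds_prod_eq]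
  exact Filter.Tendsto.prodMk Filter.tendsto_fst (h2.comp Filter.tendsto_snd)

lemma SmAt.congr {f g : Z → S n → G} {z : Z} {x : S n} (hf : SmAt f z x)
    (h : ∀ᶠ q : Z × S n in 𝓝 (z, x), g q.1 q.2 = f q.1 q.2) : SmAt g z x := by
  refine ContDiffAt.congr_of_eventuallyEq hf ?_
  exact (tendsto_nrm z x).eventually h

lemma SmAt.contDiffAt {f : Z → S n → G} {z : Z} {p : E n} (hp : p ≠ 0)
    (hf : SmAt f z (nrm p)) :
    ContDiffAt ℝ ∞ (fun q : Z × E n => f q.1 (nrm q.2)) (z, p) := by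
  have h1 := contDiffAt_prod_nrm z hp
  have h2 := ContDiffAt.comp (z, p) (g := fun q : Z × E n => f q.1 (nrm q.2))
    (f := fun q : Z × E n => (q.1, (nrm q.2 : E n))) hf h1
  refine h2.congr_of_eventuallyEq (Filter.Eventually.of_forall fun q => ?_)
  simp [nrm_coe]

/-- general composition -/
lemma SmAt.comp₂ {f : Z → S n → G} {θ : Z' → S n → Z} {g : Z' → S n → S n} {z : Z'} {x : S n}
    (hf : SmAt f (θ z x) (g z x)) (hθ : SmAt θ z x) (hg : SmAt (fun z x => (g z x : E n)) z x) :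
    SmAt (fun z x => f (θ z x) (g z x)) z x := by
  unfold SmAt at *
  have h1 : ContDiffAt ℝ ∞ (fun q : Z' × E n => (θ q.1 (nrm q.2), (g q.1 (nrm q.2) : E n)))
      (z, (x : E n)) := hθ.prodMk hg
  have h2 := ContDiffAt.comp (z, (x : E n)) (g := fun q : Z × E n => f q.1 (nrm q.2))
    (f := fun q : Z' × E n => (θ q.1 (nrm q.2), (g q.1 (nrm q.2) : E n)))
    (by simpa [nrm_coe] using hf) h1
  refine h2.congr_of_eventuallyEq (Filter.Eventually.of_forall fun q => ?_)
  simp [nrm_coe]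

/-- a function that does not use the sphere parametrisation -/
lemma SmAt.of_contDiffAt {Φ : Z × E n → G} {z : Z} {x : S n} (h : ContDiffAt ℝ ∞ Φ (z, (x : E n))) :
    SmAt (fun z x => Φ (z, (x : E n))) z x := by
  unfold SmAt
  have h1 := contDiffAt_prod_nrm z (coe_ne_zero x)
  refine ContDiffAt.comp (z, (x : E n)) (g := Φ) ?_ h1
  simpa [nrm_coe] using h

lemma SmAt.post {Φ : G → H} {f : Z → S n → G} {z : Z} {x : S n} (hΦ : ContDiffAt ℝ ∞ Φ (f z x))
    (hf : SmAt f z x) : SmAt (fun z x => Φ (f z x)) z x := by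
  unfold SmAt at *
  refine ContDiffAt.comp (z, (x : E n)) (g := Φ) ?_ hf
  simpa [nrm_coe] using hΦ

lemma SmAt.prodMk {f : Z → S n → G} {g : Z → S n → H} {z : Z} {x : S n} (hf : SmAt f z x)
    (hg : SmAt g z x) : SmAt (fun z x => (f z x, g z x)) z x :=
  ContDiffAt.prodMk hf hg

lemma smAt_fst {z : Z} {x : S n} : SmAt (fun (z : Z) (_ : S n) => z) z x :=
  contDiffAt_fst

lemma smAt_snd {z : Z} {x : S n} : SmAt (fun (_ : Z) (x : S n) => (x : E n)) z x :=
  SmAt.of_contDiffAt (Φ := fun q => q.2) contDiffAt_snd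

lemma Sm.slice {f : Z → S n → G} (hf : Sm f) (x : S n) : ContDiff ℝ ∞ (fun z => f z x) := by
  rw [contDiff_iff_contDiffAt]
  intro z
  have h1 : ContDiffAt ℝ ∞ (fun z : Z => (z, (x : E n))) z := contDiffAt_id.prodMk contDiffAt_const
  have h2 := ContDiffAt.comp z (g := fun q : Z × E n => f q.1 (nrm q.2))
    (f := fun z : Z => (z, (x : E n))) (hf z x) h1
  refine h2.congr_of_eventuallyEq (Filter.Eventually.of_forall fun q => ?_)
  simp [nrm_coe]

lemma SmAt.continuousAt {f : Z → S n → G} {z : Z} {x : S n} (hf : SmAt f z x) :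
    ContinuousAt (fun q : Z × S n => f q.1 q.2) (z, x) := by
  have h1 : ContinuousAt (fun q : Z × S n => (q.1, (q.2 : E n))) (z, x) := by
    fun_prop
  have h2 : ContinuousAt (fun q : Z × E n => f q.1 (nrm q.2)) ((fun q : Z × S n => (q.1, (q.2 : E n))) (z, x)) :=
    ContDiffAt.continuousAt hf
  have h3 := ContinuousAt.comp (f := fun q : Z × S n => (q.1, (q.2 : E n))) (x := (z, x)) h2 h1
  refine h3.congr (Filter.Eventually.of_forall fun q => ?_)
  simp [nrm_coe]

lemma Sm.continuous {f : Z → S n → G} (hf : Sm f) : Continuous (fun q : Z × S n => f q.1 q.2) :=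
  continuous_iff_continuousAt.2 fun q => (hf q.1 q.2).continuousAt

lemma SmS.continuous {f : Z → S n → S n} (hf : SmS f) : Continuous (fun q : Z × S n => f q.1 q.2) :=
  Continuous.subtype_mk (Sm.continuous hf) (fun q => (f q.1 q.2).2)

lemma Sm.comp₂ {f : Z → S n → G} {θ : Z' → S n → Z} {g : Z' → S n → S n}
    (hf : Sm f) (hθ : Sm θ) (hg : SmS g) : Sm (fun z x => f (θ z x) (g z x)) :=
  fun z x => (hf _ _).comp₂ (hθ z x) (hg z x)

lemma Sm.comp {f : Z → S n → G} {g : Z → S n → S n}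
    (hf : Sm f) (hg : SmS g) : Sm (fun z x => f z (g z x)) :=
  fun z x => SmAt.comp₂ (θ := fun z _ => z) (hf _ _) smAt_fst (hg z x)

lemma Sm.reparam {f : Z → S n → G} (hf : Sm f) {θ : Z' → Z} (hθ : ContDiff ℝ ∞ θ) :
    Sm (fun z x => f (θ z) x) :=
  fun _ _ => SmAt.comp₂ (θ := fun z _ => θ z) (g := fun _ x => x) (hf _ _)
    ((hθ.contDiffAt).comp _ contDiffAt_fst) smAt_snd

/-- the derivative in time -/
lemma Sm.deriv {f : ℝ → S n → G} (hf : Sm f) : Sm (fun t x => deriv (fun τ => f τ x) t) := by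
  intro t x
  have hO : IsOpen {q : ℝ × E n | q.2 ≠ 0} := isOpen_ne.preimage continuous_snd
  have hF : ContDiffOn ℝ ∞ (fun q : ℝ × E n => f q.1 (nrm q.2)) {q : ℝ × E n | q.2 ≠ 0} :=
    fun q hq => ((hf q.1 (nrm q.2)).contDiffAt hq).contDiffWithinAt
  have hF' : ContDiffOn ℝ ∞ (fderiv ℝ (fun q : ℝ × E n => f q.1 (nrm q.2)))
      {q : ℝ × E n | q.2 ≠ 0} := hF.fderiv_of_isOpen hO (by simp)
  have hx : ((t, (x : E n)) : ℝ × E n) ∈ {q : ℝ × E n | q.2 ≠ 0} := coe_ne_zero x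
  have h1 : ContDiffAt ℝ ∞ (fun q : ℝ × E n =>
      (fderiv ℝ (fun q : ℝ × E n => f q.1 (nrm q.2)) q) (1, 0)) (t, (x : E n)) :=
    (hF'.contDiffAt (hO.mem_nhds hx)).clm_apply contDiffAt_const
  refine h1.congr_of_eventuallyEq ?_
  filter_upwards [hO.mem_nhds hx] with q hq
  have hd : DifferentiableAt ℝ (fun q : ℝ × E n => f q.1 (nrm q.2)) q :=
    (hF.contDiffAt (hO.mem_nhds hq)).differentiableAt (by simp)
  have h2 : HasDerivAt (fun τ : ℝ => ((τ, q.2) : ℝ × E n)) (1, 0) q.1 :=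
    (hasDerivAt_id q.1).prodMk (hasDerivAt_const q.1 q.2)
  have h3 := hd.hasFDerivAt.comp_hasDerivAt (f := fun τ : ℝ => ((τ, q.2) : ℝ × E n)) q.1 h2
  exact h3.deriv

end Pool.Agent.H78.Diam
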