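import Pool.Agent.H78.Diam.Ift

open scoped ContDiff Manifold ENNReal Topology
open MeasureTheory Set

namespace Pool.Agent.H78.Diam

variable {n : ℕ}

/-- the adjoint as a real continuous linear map -/
noncomputable def adjL (n : ℕ) : (V n →L[ℝ] E n) →L[ℝ] (E n →L[ℝ] V n) :=
  LinearMap.mkContinuous
    { toFun := fun A => ContinuousLinearMap.adjoint A
      map_add' := fun A B => map_add _ A B
      map_smul' := fun r A => by simp }
    1 (fun A => by simp)

lemma adjL_apply (A : V n →L[ℝ] E n) : adjL n A = ContinuousLinearMap.adjoint A := rfl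

lemma adjoint_comp_injective {A : V n →L[ℝ] E n} (hA : Function.Injective A) :
    Function.Injective ((ContinuousLinearMap.adjoint A).comp A) := by
  rw [injective_iff_map_eq_zero] at *
  intro v hv
  apply hA
  have h1 : inner ℝ v (((ContinuousLinearMap.adjoint A).comp A) v) = 0 := by rw [hv]; simp
  rw [ContinuousLinearMap.comp_apply, ContinuousLinearMap.adjoint_inner_right] at h1
  exact inner_self_eq_zero.1 h1

lemma pinv_apply {A : V n →L[ℝ] E n} (hA : Function.Injective A) (v : V n) :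
    pinv A (A v) = v := by
  obtain ⟨e, he⟩ := exists_equiv_of_injective _ (adjoint_comp_injective hA)
  unfold pinv
  rw [ContinuousLinearMap.comp_apply, ← he, ContinuousLinearMap.inverse_equiv]
  have h1 : ContinuousLinearMap.adjoint A (A v) = e v := by
    rw [← ContinuousLinearMap.comp_apply, ← he]; rfl
  rw [h1]; simp

lemma contDiffAt_pinv {A : V n →L[ℝ] E n} (hA : Function.Injective A) :
    ContDiffAt ℝ ∞ (fun B : V n →L[ℝ] E n => pinv B) A := by
  obtain ⟨e, he⟩ := exists_equiv_of_injective _ (adjoint_comp_injective hA)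
  have h1 : ContDiff ℝ ∞ (fun B : V n →L[ℝ] E n => ContinuousLinearMap.adjoint B) :=
    (adjL n).contDiff
  have h2 : ContDiff ℝ ∞ (fun B : V n →L[ℝ] E n => (ContinuousLinearMap.adjoint B).comp B) :=
    h1.clm_comp contDiff_id
  have h3 : ContDiffAt ℝ ∞ (fun B : V n →L[ℝ] E n =>
      ContinuousLinearMap.inverse ((ContinuousLinearMap.adjoint B).comp B)) A := by
    refine ContDiffAt.comp A (g := ContinuousLinearMap.inverse) ?_ h2.contDiffAt
    rw [← he]
    exact contDiffAt_map_inverse e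
  exact h3.clm_comp h1.contDiffAt

namespace Atlas

variable (D : Atlas n)

/-- the chart as a map to the ambient space -/
noncomputable def ee (a : Fin D.N) (ξ : V n) : E n := (D.e a ξ : E n)

/-- operator turning a vector at `e ξ` into its weighted coordinates -/
noncomputable def P (a : Fin D.N) (ξ : V n) : E n →L[ℝ] V n :=
  open Classical in
  if ξ ∈ D.U a then D.ρ a (D.e a ξ) • pinv (fderiv ℝ (D.ee a) ξ) else 0

lemma localRep_eq (a : Fin D.N) (u : S n → E n) (ξ : V n) :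
    D.localRep a u ξ = D.P a ξ (u (D.e a ξ)) := by
  unfold localRep P
  split_ifs with h
  · rfl
  · simp

lemma P_eq_zero (a : Fin D.N) {ξ : V n} (h : ξ ∉ D.K a) : D.P a ξ = 0 := by
  unfold P
  split_ifs with hU
  · have : D.ρ a (D.e a ξ) = 0 := by
      by_contra h0
      have h1 : D.e a ξ ∈ tsupport (D.ρ a) := subset_tsupport _ h0
      obtain ⟨η, hη, hηξ⟩ := D.ρ_supp a h1
      have := D.inj a (D.K_subset a hη) hU hηξ
      exact h (this ▸ hη)
    rw [this]
    ext v i
    simp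
  · rfl

lemma contDiff_ρe (a : Fin D.N) : ContDiff ℝ ∞ (fun ξ => D.ρ a (D.e a ξ)) := by
  have : Fact (Module.finrank ℝ (E n) = n + 1) := ⟨by simp⟩
  have h1 : ContMDiff 𝓘(ℝ, V n) 𝓘(ℝ, E n) ∞ (fun ξ => (D.e a ξ : E n)) :=
    (D.smooth_e a).contMDiff
  have h2 := h1.codRestrict_sphere (n := n) (fun ξ => (D.e a ξ).2)
  have h3 : ContMDiff 𝓘(ℝ, V n) (𝓡 n) ∞ (D.e a) := h2
  have h4 := (D.smooth_ρ a).comp h3
  exact h4.contDiff

lemma contDiff_P (a : Fin D.N) : ContDiff ℝ ∞ (D.P a) := by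
  rw [contDiff_iff_contDiffAt]
  intro ξ
  by_cases hK : ξ ∈ D.K a
  · have hU : ξ ∈ D.U a := D.K_subset a hK
    have h1 : ContDiffAt ℝ ∞ (fun η => D.ρ a (D.e a η) • pinv (fderiv ℝ (D.ee a) η)) ξ := by
      refine (D.contDiff_ρe a).contDiffAt.smul ?_
      refine ContDiffAt.comp ξ (g := fun B => pinv B) (contDiffAt_pinv (D.imm a ξ hU)) ?_
      exact ((D.smooth_e a).fderiv_right (m := ∞) (by simp)).contDiffAt
    refine h1.congr_of_eventuallyEq ?_
    filter_upwards [(D.isOpen_U a).mem_nhds hU] with η hη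
    unfold P
    rw [if_pos hη]
  · have h1 : ContDiffAt ℝ ∞ (fun _ : V n => (0 : E n →L[ℝ] V n)) ξ := contDiffAt_const
    refine h1.congr_of_eventuallyEq ?_
    filter_upwards [(D.isCompact_K a).isClosed.isOpen_compl.mem_nhds hK] with η hη
    exact D.P_eq_zero a hη

/-- a smooth vector field along the sphere -/
def _root_.Pool.Agent.H78.Diam.SmF (u : S n → E n) : Prop :=
  ∀ x : S n, ContDiffAt ℝ ∞ (fun q : E n => u (nrm q)) (x : E n)

lemma contDiff_comp_ee {u : S n → E n} (hu : SmF u) (a : Fin D.N) :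
    ContDiff ℝ ∞ (fun ξ => u (D.e a ξ)) := by
  rw [contDiff_iff_contDiffAt]
  intro ξ
  have h1 := ContDiffAt.comp ξ (g := fun q : E n => u (nrm q)) (f := D.ee a)
    (hu (D.e a ξ)) ((D.smooth_e a).contDiffAt)
  refine h1.congr_of_eventuallyEq (Filter.Eventually.of_forall fun η => ?_)
  simp [ee, nrm_coe]

lemma contDiff_localRep {u : S n → E n} (hu : SmF u) (a : Fin D.N) :
    ContDiff ℝ ∞ (D.localRep a u) := by
  have : D.localRep a u = fun ξ => D.P a ξ (u (D.e a ξ)) := funext fun ξ => D.localRep_eq a u ξ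
  rw [this]
  exact (D.contDiff_P a).clm_apply (D.contDiff_comp_ee hu a)

end Atlas

lemma gagliardo_smul {F : Type} [NormedAddCommGroup F] [NormedSpace ℝ F] {σ p : ℝ} (hp : 1 ≤ p)
    (r : ℝ) (G : V n → F) : gagliardo (n : ℝ) σ p (r • G) = ‖r‖ₑ * gagliardo (n : ℝ) σ p G := by
  have hp0 : 0 < p := by linarith
  unfold gagliardo
  have h1 : ∀ x y : V n, ‖(r • G) x - (r • G) y‖ₑ ^ p / ENNReal.ofReal (‖x - y‖ ^ ((n : ℝ) + σ * p))
      = ‖r‖ₑ ^ p * (‖G x - G y‖ₑ ^ p / ENNReal.ofReal (‖x - y‖ ^ ((n : ℝ) + σ * p))) := by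
    intro x y
    rw [Pi.smul_apply, Pi.smul_apply, ← smul_sub, enorm_smul, ENNReal.mul_rpow_of_nonneg _ _ hp0.le,
      mul_div_assoc]
  have hr : ‖r‖ₑ ^ p ≠ ⊤ := ENNReal.rpow_ne_top_of_nonneg hp0.le (by simp)
  simp_rw [h1, lintegral_const_mul' _ _ hr]
  rw [ENNReal.mul_rpow_of_nonneg _ _ (by positivity), ← ENNReal.rpow_mul,
    mul_one_div_cancel hp0.ne', ENNReal.rpow_one]

lemma sobolevNorm_smul {s p : ℝ} (hp : 1 ≤ p) (r : ℝ) {w : V n → V n} (hw : ContDiff ℝ ∞ w) :
    sobolevNorm (n : ℝ) s p (r • w) = ‖r‖ₑ * sobolevNorm (n : ℝ) s p w := by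
  have h1 : ∀ j : ℕ, iteratedFDeriv ℝ j (r • w) = r • iteratedFDeriv ℝ j w := by
    intro j
    funext x
    exact iteratedFDeriv_const_smul_apply ((hw.of_le (by exact_mod_cast le_top)).contDiffAt)
  unfold sobolevNorm
  simp_rw [h1, eLpNorm_const_smul]
  rw [mul_add, Finset.mul_sum]
  congr 1
  split_ifs with h
  · simp
  · exact gagliardo_smul hp r _

lemma Atlas.norm_smul (D : Atlas n) {s p : ℝ} (hp : 1 ≤ p) (r : ℝ) {u : S n → E n} (hu : SmF u) :
    D.norm s p (fun x => r • u x) = ‖r‖ₑ * D.norm s p u := by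
  unfold Atlas.norm
  have h1 : ∀ a, D.localRep a (fun x => r • u x) = r • D.localRep a u := by
    intro a
    funext ξ
    rw [Pi.smul_apply, D.localRep_eq, D.localRep_eq, map_smul]
  simp_rw [h1, sobolevNorm_smul hp r (D.contDiff_localRep hu _)]
  simp_rw [ENNReal.mul_rpow_of_nonneg _ _ (show (0:ℝ) ≤ 2 by norm_num)]
  rw [← Finset.mul_sum, ENNReal.mul_rpow_of_nonneg _ _ (by positivity), ← ENNReal.rpow_mul]
  norm_num

lemma Atlas.norm_zero (D : Atlas n) {s p : ℝ} (hp : 1 ≤ p) :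
    D.norm s p (fun _ => 0) = 0 := by
  have h1 : SmF (fun _ : S n => (0 : E n)) := fun x => contDiffAt_const
  have := D.norm_smul (s := s) hp 0 h1
  simpa using this

end Pool.Agent.H78.Diam
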