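import Pool.Agent.H78.Diam.EstC

open scoped ContDiff Manifold ENNReal Topology
open MeasureTheory Set

namespace Pool.Agent.H78.Diam

variable {n : ℕ}

lemma exists_vfam {f : ℝ → V n → V n} (hf : ContDiff ℝ ∞ (fun q : ℝ × V n => f q.1 q.2))
    {c : ℝ} (hc : 0 < c) (hanti : ∀ t x y, c * ‖x - y‖ ≤ ‖f t x - f t y‖)
    (hsurj : ∀ t, Function.Surjective (f t)) {R : ℝ} (hR : ∀ t y, R ≤ ‖y‖ → f t y = y) :
    ∃ F : VFam n, (∀ t y, F.f t y = f t y) ∧ F.R = R := by
  have hinj : ∀ t, Function.Injective (f t) := by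
    intro t x y hxy
    have h1 := hanti t x y
    rw [hxy, sub_self, norm_zero] at h1
    have h2 : ‖x - y‖ ≤ 0 := by
      by_contra h6
      push Not at h6
      have := mul_pos hc h6
      linarith
    exact sub_eq_zero.1 (norm_le_zero_iff.1 h2)
  set e : ℝ → Equiv.Perm (V n) := fun t => Equiv.ofBijective (f t) ⟨hinj t, hsurj t⟩ with he
  refine ⟨{ f := e, smf := hf, smg := ?_, R := R, supp := hR }, fun t y => rfl, rfl⟩
  rw [contDiff_iff_contDiffAt]
  rintro ⟨t, y⟩
  set x := (e t).symm y with hx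
  have hy : f t x = y := (e t).apply_symm_apply y
  have h1 := contDiffAt_inverse_family (f := fun q : ℝ × V n => f q.1 q.2)
    (g := fun q : ℝ × V n => (e q.1).symm q.2) (z₀ := t) (x₀ := x) hf.contDiffAt (by
      intro v hv
      have hd : HasFDerivAt (fun q : ℝ × V n => f q.1 q.2)
          (fderiv ℝ (fun q : ℝ × V n => f q.1 q.2) (t, x)) (t, x) :=
        (hf.differentiable (by simp) _).hasFDerivAt
      have hd3 := hd.comp x (hasFDerivAt_prodMk_right t x)
      have h3 := antilipschitz_fderiv hd3 (c := c)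
        (Filter.Eventually.of_forall fun p => hanti t p x) v
      have h4 : ((fderiv ℝ (fun q : ℝ × V n => f q.1 q.2) (t, x)).comp
          (ContinuousLinearMap.inr ℝ ℝ (V n))) v = 0 := by
        simpa using hv
      rw [h4, norm_zero] at h3
      have h5 : ‖v‖ ≤ 0 := by
        by_contra h6
        push Not at h6
        have := mul_pos hc h6
        linarith
      exact norm_le_zero_iff.1 h5) (Filter.Eventually.of_forall fun q => by
      exact (e q.1).symm_apply_apply q.2)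
  simp only [hy] at h1
  exact h1

/-- radial factor -/
noncomputable def lam (t r : ℝ) : ℝ := 1 - st t / 2 * st ((25 - r ^ 2) / 9)

lemma lam_le_one (t r : ℝ) : lam t r ≤ 1 := by
  unfold lam
  have h1 := (st_mem t).1
  have h2 := (st_mem ((25 - r ^ 2) / 9)).1
  have := mul_nonneg h1 h2
  linarith

lemma half_le_lam (t r : ℝ) : 1 / 2 ≤ lam t r := by
  unfold lam
  have h1 := st_mem t
  have h2 := st_mem ((25 - r ^ 2) / 9)
  have : st t * st ((25 - r ^ 2) / 9) ≤ 1 * 1 := mul_le_mul h1.2 h2.2 h2.1 (by norm_num)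
  linarith

lemma lam_mono {t r r' : ℝ} (hr : 0 ≤ r) (h : r ≤ r') : lam t r ≤ lam t r' := by
  unfold lam
  have h1 : st ((25 - r' ^ 2) / 9) ≤ st ((25 - r ^ 2) / 9) :=
    Real.smoothTransition.monotone (by nlinarith)
  have h2 := (st_mem t).1
  have := mul_le_mul_of_nonneg_left h1 (by linarith : 0 ≤ st t / 2)
  linarith

/-- the contraction family -/
noncomputable def theta (t : ℝ) (y : V n) : V n := lam t ‖y‖ • y

lemma contDiff_theta : ContDiff ℝ ∞ (fun q : ℝ × V n => theta q.1 q.2) := by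
  unfold theta lam
  have h1 : ContDiff ℝ ∞ (fun q : ℝ × V n => st q.1 / 2) :=
    (st_contDiff.comp contDiff_fst).div_const 2
  have h2 : ContDiff ℝ ∞ (fun q : ℝ × V n => st ((25 - ‖q.2‖ ^ 2) / 9)) :=
    st_contDiff.comp ((contDiff_const.sub ((contDiff_norm_sq ℝ).comp contDiff_snd)).div_const 9)
  exact (contDiff_const.sub (h1.mul h2)).smul contDiff_snd

lemma theta_anti (t : ℝ) (x y : V n) : 1 / 2 * ‖x - y‖ ≤ ‖theta t x - theta t y‖ := by
  wlog h : ‖y‖ ≤ ‖x‖ generalizing x y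
  · have := this y x (le_of_not_ge h)
    rwa [norm_sub_rev x y, norm_sub_rev (theta t x)]
  have h1 : 1 / 2 * ‖x - y‖ ^ 2 ≤ inner ℝ (theta t x - theta t y) (x - y) := by
    unfold theta
    have e1 : lam t ‖x‖ • x - lam t ‖y‖ • y
        = lam t ‖y‖ • (x - y) + (lam t ‖x‖ - lam t ‖y‖) • x := by
      rw [smul_sub, sub_smul]; abel
    rw [e1, inner_add_left, real_inner_smul_left, real_inner_smul_left,
      real_inner_self_eq_norm_sq]
    have h2 : 0 ≤ inner ℝ x (x - y) := by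
      rw [inner_sub_right, real_inner_self_eq_norm_sq]
      have := real_inner_le_norm x y
      nlinarith [norm_nonneg x, norm_nonneg y]
    have h3 : 0 ≤ lam t ‖x‖ - lam t ‖y‖ := sub_nonneg.2 (lam_mono (norm_nonneg _) h)
    have h4 := half_le_lam t ‖y‖
    have h5 : 1 / 2 * ‖x - y‖ ^ 2 ≤ lam t ‖y‖ * ‖x - y‖ ^ 2 :=
      mul_le_mul_of_nonneg_right h4 (by positivity)
    have := mul_nonneg h3 h2
    linarith
  have h2 := real_inner_le_norm (theta t x - theta t y) (x - y)
  rcases eq_or_lt_of_le (norm_nonneg (x - y)) with h0 | h0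
  · rw [← h0]; simp
  · have h3 : (1 / 2 * ‖x - y‖) * ‖x - y‖ ≤ ‖theta t x - theta t y‖ * ‖x - y‖ := by
      nlinarith
    exact le_of_mul_le_mul_right h3 h0

lemma theta_surj (t : ℝ) : Function.Surjective (theta (n := n) t) := by
  intro z
  have hcont : ContinuousOn (fun l : ℝ => lam t (l * ‖z‖) * l) (Icc 1 2) := by
    unfold lam
    have : Continuous st := st_contDiff.continuous
    fun_prop
  have h1 := intermediate_value_Icc (by norm_num : (1:ℝ) ≤ 2) hcont
  have h2 : (1:ℝ) ∈ Icc (lam t (1 * ‖z‖) * 1) (lam t (2 * ‖z‖) * 2) := by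
    constructor
    · have := lam_le_one t (1 * ‖z‖); linarith
    · have := half_le_lam t (2 * ‖z‖); linarith
  obtain ⟨l, hl, hl1⟩ := h1 h2
  refine ⟨l • z, ?_⟩
  unfold theta
  rw [norm_smul, Real.norm_of_nonneg (by linarith [hl.1] : 0 ≤ l), smul_smul]
  simp only at hl1
  rw [hl1, one_smul]

lemma theta_supp (t : ℝ) (y : V n) (hy : 5 ≤ ‖y‖) : theta t y = y := by
  unfold theta lam
  have : st ((25 - ‖y‖ ^ 2) / 9) = 0 := st_of_nonpos (by nlinarith)
  rw [this]; simp

lemma exists_Theta (n : ℕ) : ∃ F : VFam n, F.f 0 = 1 ∧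
    ∀ y : V n, ‖y‖ ≤ 4 → F.f 1 y = (1 / 2 : ℝ) • y := by
  obtain ⟨F, hF, _⟩ := exists_vfam (contDiff_theta (n := n)) (by norm_num : (0:ℝ) < 1 / 2)
    theta_anti theta_surj theta_supp
  refine ⟨F, ?_, ?_⟩
  · ext y : 1
    rw [hF]
    unfold theta lam
    rw [st_of_nonpos le_rfl]; simp
  · intro y hy
    rw [hF]
    unfold theta lam
    rw [st_of_one_le le_rfl, st_of_one_le (by nlinarith [norm_nonneg y])]
    norm_num

/-- the fixed contraction family -/
noncomputable def Theta (n : ℕ) : VFam n := (exists_Theta n).choose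

lemma Theta_zero : (Theta n).f 0 = 1 := (exists_Theta n).choose_spec.1

/-- the contraction -/
noncomputable def Tc (n : ℕ) : Equiv.Perm (V n) := (Theta n).f 1

lemma Tc_apply (y : V n) (hy : ‖y‖ ≤ 4) : Tc n y = (1 / 2 : ℝ) • y :=
  (exists_Theta n).choose_spec.2 y hy

/-- the contraction by `2^{-m}` near `y₀` -/
noncomputable def Kp (y₀ : V n) : ℕ → Equiv.Perm (V n)
  | 0 => 1
  | m + 1 => scaleP ((1 / 2 : ℝ) ^ m) (by positivity) y₀ (Tc n) * Kp y₀ m

lemma Kp_apply (y₀ : V n) (m : ℕ) (y : V n) (hy : ‖y - y₀‖ ≤ 4) :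
    Kp y₀ m y = y₀ + ((1 / 2 : ℝ) ^ m) • (y - y₀) := by
  induction m with
  | zero => simp [Kp]
  | succ m ih =>
    change scaleP ((1 / 2 : ℝ) ^ m) (by positivity) y₀ (Tc n) (Kp y₀ m y) = _
    have h0 : ((1 / 2 : ℝ) ^ m) ≠ 0 := by positivity
    rw [ih, scaleP_apply, add_sub_cancel_left, smul_smul, inv_mul_cancel₀ h0, one_smul,
      Tc_apply _ hy, smul_smul, pow_succ]

theorem Kp_cost (D : Atlas n) (hn : 1 ≤ n) {s p : ℝ} (hs : 0 ≤ s) (hp : 1 ≤ p)
    (hsp : s < 1 + n / p) :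
    ∃ C : ℝ, 0 ≤ C ∧ ∀ (m : ℕ) (y₀ : V n), ‖y₀‖ ≤ 1 / 2 →
        Cost D s p (pushPerm (Kp y₀ m)) (ENNReal.ofReal C) := by
  obtain ⟨C, hC, hcost⟩ := cost_estimate D hn hs hp (Theta n) Theta_zero
  set α : ℝ := 1 - s + n / p with hα
  have hα0 : 0 < α := by rw [hα]; linarith
  set r : ℝ := (1 / 2 : ℝ) ^ α with hr
  have hr0 : 0 < r := by positivity
  have hr1 : r < 1 := Real.rpow_lt_one (by norm_num) (by norm_num) hα0
  refine ⟨C * (1 - r)⁻¹, mul_nonneg hC (inv_nonneg.2 (by linarith)), fun m y₀ hy₀ => ?_⟩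
  have key : Cost D s p (pushPerm (Kp y₀ m))
      (ENNReal.ofReal (C * ∑ j ∈ Finset.range m, r ^ j)) := by
    induction m with
    | zero =>
      have : pushPerm (Kp y₀ 0) = (1 : Equiv.Perm (S n)) := pushPerm_one
      rw [this]
      simpa using Cost.one hp
    | succ m ih =>
      have h1 := hcost ((1 / 2 : ℝ) ^ m) (by positivity) y₀
        (pow_le_one₀ (by norm_num) (by norm_num)) hy₀
      have h2 : pushPerm (Kp y₀ (m + 1)) = pushPerm (scaleP ((1 / 2 : ℝ) ^ m)
          (by positivity) y₀ (Tc n)) * pushPerm (Kp y₀ m) := by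
        rw [← pushPerm_mul]; rfl
      rw [h2]
      refine (h1.mul hp ih).mono (le_of_eq ?_)
      have h3 : ((1 / 2 : ℝ) ^ m) ^ α = r ^ m := by
        rw [hr, ← Real.rpow_natCast, ← Real.rpow_mul (by norm_num), mul_comm, Real.rpow_mul
          (by norm_num), Real.rpow_natCast]
      rw [h3, ← ENNReal.ofReal_add (by positivity)
        (mul_nonneg hC (Finset.sum_nonneg fun j _ => by positivity)), Finset.sum_range_succ]
      congr 1; ring
  refine key.mono (ENNReal.ofReal_le_ofReal (mul_le_mul_of_nonneg_left ?_ hC))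
  exact sum_le_hasSum (Finset.range m) (fun _ _ => by positivity)
    (hasSum_geometric_of_lt_one hr0.le hr1)

end Pool.Agent.H78.Diam
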