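import Pool.Agent.H78.Diam.Base

open scoped ContDiff Manifold ENNReal Topology
open MeasureTheory Set

namespace Pool.Agent.H78.Diam

/-- the scalar kernel -/
noncomputable def hker (n : ℕ) (σ p ρ : ℝ) (r : ℝ) : ℝ :=
  (min (r / ρ) 2) ^ p / r ^ ((n : ℝ) + σ * p)

lemma hker_nonneg {n : ℕ} {σ p ρ r : ℝ} (hρ : 0 < ρ) (hr : 0 ≤ r) : 0 ≤ hker n σ p ρ r := by
  unfold hker
  have : 0 ≤ min (r / ρ) 2 := le_min (by positivity) (by norm_num)
  positivity

lemma measurable_hker (n : ℕ) (σ p ρ : ℝ) : Measurable (hker n σ p ρ) := by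
  unfold hker
  fun_prop

lemma integrable_hker {n : ℕ} (hn : 1 ≤ n) {σ p : ℝ} (hσ : 0 < σ) (hσ1 : σ < 1) (hp : 1 ≤ p) :
    Integrable (fun z : V n => hker n σ p 1 ‖z‖) volume := by
  have hp0 : 0 < p := by linarith
  have : Nontrivial (V n) := by
    have : Nonempty (Fin n) := ⟨⟨0, by omega⟩⟩
    infer_instance
  rw [integrable_fun_norm_addHaar (volume : Measure (V n))]
  have hsplit : Ioi (0:ℝ) = Ioo 0 2 ∪ Ici 2 := by
    ext x; simp only [mem_Ioi, mem_union, mem_Ioo, mem_Ici]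
    constructor
    · intro h; rcases lt_or_ge x 2 with h2 | h2
      · exact Or.inl ⟨h, h2⟩
      · exact Or.inr h2
    · rintro (⟨h, _⟩ | h)
      · exact h
      · linarith
  rw [hsplit]
  have hfin : Module.finrank ℝ (V n) = n := by simp
  rw [hfin]
  have hpow : ∀ x : ℝ, 0 < x → x ^ (n - 1) = x ^ ((n : ℝ) - 1) := by
    intro x hx
    rw [← Real.rpow_natCast, Nat.cast_sub hn, Nat.cast_one]
  refine IntegrableOn.union ?_ ?_
  · have h1 : IntegrableOn (fun x : ℝ => x ^ (p - 1 - σ * p)) (Ioo 0 2) :=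
      (intervalIntegral.integrableOn_Ioo_rpow_iff (by norm_num)).2 (by nlinarith)
    refine h1.congr_fun ?_ measurableSet_Ioo
    intro x hx
    have hx0 : 0 < x := hx.1
    simp only [hker, smul_eq_mul, div_one]
    rw [min_eq_left hx.2.le, hpow x hx0, mul_div_assoc', ← Real.rpow_add hx0,
      ← Real.rpow_sub hx0]
    congr 1; ring
  · have h1 : IntegrableOn (fun x : ℝ => (2:ℝ) ^ p * x ^ (- 1 - σ * p)) (Ici 2) := by
      refine Integrable.const_mul ?_ _
      exact (integrableOn_Ioi_rpow_of_lt (a := -1 - σ * p) (c := 1) (by nlinarith)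
        (by norm_num)).mono_set (fun x hx => by
          simp only [mem_Ici] at hx; simp only [mem_Ioi]; linarith)
    refine h1.congr_fun ?_ measurableSet_Ici
    intro x hx
    have hx2 : (2:ℝ) ≤ x := hx
    have hx0 : 0 < x := by linarith
    simp only [hker, smul_eq_mul, div_one]
    rw [min_eq_right hx2, hpow x hx0, mul_div_assoc', mul_comm (x ^ _) ((2:ℝ) ^ p), mul_div_assoc,
      ← Real.rpow_sub hx0]
    congr 2; ring

lemma hker_scale {n : ℕ} {σ p ρ r : ℝ} (hρ : 0 < ρ) (hr : 0 ≤ r) :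
    hker n σ p ρ (ρ * r) = ρ ^ (-((n:ℝ) + σ * p)) * hker n σ p 1 r := by
  unfold hker
  rw [mul_div_cancel_left₀ r hρ.ne', div_one, Real.mul_rpow hρ.le hr, Real.rpow_neg hρ.le]
  rw [← div_div, div_eq_mul_inv _ (ρ ^ _)]
  ring

/-- the total mass of the kernel -/
noncomputable def kmass (n : ℕ) (σ p ρ : ℝ) : ℝ≥0∞ :=
  ∫⁻ z : V n, ENNReal.ofReal (hker n σ p ρ ‖z‖)

lemma kmass_scale {n : ℕ} {σ p ρ : ℝ} (hρ : 0 < ρ) :
    kmass n σ p ρ = ENNReal.ofReal (ρ ^ (-(σ * p))) * kmass n σ p 1 := by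
  have hmap := Measure.map_addHaar_smul (volume : Measure (V n)) hρ.ne'
  have hfin : Module.finrank ℝ (V n) = n := by simp
  rw [hfin] at hmap
  have hmeas : Measurable (fun z : V n => ENNReal.ofReal (hker n σ p ρ ‖z‖)) :=
    ((measurable_hker n σ p ρ).comp measurable_norm).ennreal_ofReal
  have h1 : ∫⁻ z, ENNReal.ofReal (hker n σ p ρ ‖z‖) ∂(Measure.map (fun x : V n => ρ • x) volume)
      = ∫⁻ z : V n, ENNReal.ofReal (hker n σ p ρ ‖ρ • z‖) := by
    rw [lintegral_map hmeas (measurable_const_smul ρ)]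
  rw [hmap, lintegral_smul_measure] at h1
  have h2 : ∀ z : V n, ENNReal.ofReal (hker n σ p ρ ‖ρ • z‖)
      = ENNReal.ofReal (ρ ^ (-((n:ℝ) + σ * p))) * ENNReal.ofReal (hker n σ p 1 ‖z‖) := by
    intro z
    rw [norm_smul, Real.norm_of_nonneg hρ.le, hker_scale hρ (norm_nonneg _),
      ENNReal.ofReal_mul (by positivity)]
  simp_rw [h2] at h1
  have hm1 : Measurable (fun z : V n => ENNReal.ofReal (hker n σ p 1 ‖z‖)) :=
    ((measurable_hker n σ p 1).comp measurable_norm).ennreal_ofReal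
  rw [lintegral_const_mul _ hm1] at h1
  change _ = _ * kmass n σ p 1 at h1
  change _ * kmass n σ p ρ = _ at h1
  have hpos : (0:ℝ) < ρ ^ n := by positivity
  have h3 : ENNReal.ofReal (ρ ^ n) * (ENNReal.ofReal |(ρ ^ n)⁻¹| * kmass n σ p ρ)
      = kmass n σ p ρ := by
    rw [← mul_assoc, ← ENNReal.ofReal_mul hpos.le, abs_of_pos (by positivity),
      mul_inv_cancel₀ hpos.ne']
    simp
  rw [← h3, h1]
  rw [← mul_assoc, ← ENNReal.ofReal_mul hpos.le, ← Real.rpow_natCast, ← Real.rpow_add hρ]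
  congr 3; ring

lemma kmass_lt_top {n : ℕ} (hn : 1 ≤ n) {σ p : ℝ} (hσ : 0 < σ) (hσ1 : σ < 1) (hp : 1 ≤ p) :
    kmass n σ p 1 < ⊤ :=
  (integrable_hker hn hσ hσ1 hp).lintegral_lt_top

lemma gagliardo_le {n : ℕ} {F : Type} [NormedAddCommGroup F] {σ p : ℝ} (hp : 1 ≤ p)
    {G : V n → F} {T : Set (V n)} (hT : MeasurableSet T) (hG0 : ∀ x, x ∉ T → G x = 0)
    {B ρ : ℝ} (hB : 0 ≤ B) (hρ : 0 < ρ)
    (hG : ∀ x y, ‖G x - G y‖ ≤ B * min (‖x - y‖ / ρ) 2) :
    gagliardo (n : ℝ) σ p G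
      ≤ (2 * (volume T * (ENNReal.ofReal (B ^ p) * kmass n σ p ρ))) ^ (1 / p) := by
  have hp0 : 0 < p := by linarith
  unfold gagliardo
  refine ENNReal.rpow_le_rpow ?_ (by positivity)
  set c : V n → ℝ≥0∞ := fun z => ENNReal.ofReal (B ^ p) * ENNReal.ofReal (hker n σ p ρ ‖z‖) with hc
  have hcm : Measurable c :=
    ((((measurable_hker n σ p ρ).comp measurable_norm).ennreal_ofReal).const_mul _)
  have hcint : ∫⁻ z, c z = ENNReal.ofReal (B ^ p) * kmass n σ p ρ := by
    have hm1 : Measurable (fun z : V n => ENNReal.ofReal (hker n σ p ρ ‖z‖)) :=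
      ((measurable_hker n σ p ρ).comp measurable_norm).ennreal_ofReal
    simp only [hc]
    rw [lintegral_const_mul _ hm1]; rfl
  set χ : V n → ℝ≥0∞ := T.indicator (fun _ => 1) with hχ
  have hχm : Measurable χ := measurable_const.indicator hT
  have key : ∀ x y : V n, ‖G x - G y‖ₑ ^ p / ENNReal.ofReal (‖x - y‖ ^ ((n : ℝ) + σ * p))
      ≤ χ x * c (x - y) + χ y * c (x - y) := by
    intro x y
    by_cases hxy : x = y
    · subst hxy
      simp [hp0]
    by_cases hx : x ∈ T ∨ y ∈ T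
    · have hpos : 0 < ‖x - y‖ := norm_pos_iff.2 (sub_ne_zero.2 hxy)
      have h1 : ‖G x - G y‖ₑ ^ p / ENNReal.ofReal (‖x - y‖ ^ ((n : ℝ) + σ * p)) ≤ c (x - y) := by
        rw [← ofReal_norm, ENNReal.ofReal_rpow_of_nonneg (norm_nonneg _) hp0.le,
          ← ENNReal.ofReal_div_of_pos (by positivity), hc]
        simp only
        rw [← ENNReal.ofReal_mul (by positivity)]
        refine ENNReal.ofReal_le_ofReal ?_
        unfold hker
        rw [mul_div_assoc']
        refine div_le_div_of_nonneg_right ?_ (by positivity)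
        rw [← Real.mul_rpow hB (le_min (by positivity) (by norm_num))]
        exact Real.rpow_le_rpow (norm_nonneg _) (hG x y) hp0.le
      refine h1.trans ?_
      rcases hx with hx | hx
      · have : χ x = 1 := by simp [hχ, hx]
        rw [this, one_mul]; exact le_self_add
      · have : χ y = 1 := by simp [hχ, hx]
        rw [this, one_mul]; exact le_add_self
    · push Not at hx
      rw [hG0 x hx.1, hG0 y hx.2]
      simp [hp0]
  calc ∫⁻ x, ∫⁻ y, ‖G x - G y‖ₑ ^ p / ENNReal.ofReal (‖x - y‖ ^ ((n : ℝ) + σ * p))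
      ≤ ∫⁻ x, ∫⁻ y, (χ x * c (x - y) + χ y * c (x - y)) :=
        lintegral_mono fun x => lintegral_mono fun y => key x y
    _ = ∫⁻ x, (χ x * (∫⁻ z, c z) + ∫⁻ y, χ y * c (x - y)) := by
        refine lintegral_congr fun x => ?_
        have hm : Measurable (fun y => c (x - y)) := hcm.comp (measurable_const.sub measurable_id)
        rw [lintegral_add_left (hm.const_mul _), lintegral_const_mul _ hm,
          lintegral_sub_left_eq_self c x]
    _ = (∫⁻ x, χ x * (∫⁻ z, c z)) + ∫⁻ x, ∫⁻ y, χ y * c (x - y) := by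
        rw [lintegral_add_left (hχm.mul_const _)]
    _ = volume T * (∫⁻ z, c z) + volume T * (∫⁻ z, c z) := by
        have h1 : ∫⁻ x, χ x = volume T := by
          rw [hχ, lintegral_indicator hT]; simp
        have h2 : ∫⁻ x, ∫⁻ y, χ y * c (x - y) = ∫⁻ y, ∫⁻ x, χ y * c (x - y) := by
          refine lintegral_lintegral_swap ?_
          exact (((hχm.comp measurable_snd).mul
            (hcm.comp (measurable_fst.sub measurable_snd)))).aemeasurable
        rw [h2, lintegral_mul_const _ hχm, h1]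
        congr 1
        have h3 : ∀ y, ∫⁻ x, χ y * c (x - y) = χ y * ∫⁻ z, c z := by
          intro y
          have hm : Measurable (fun x => c (x - y)) :=
            hcm.comp (measurable_id.sub measurable_const)
          rw [lintegral_const_mul _ hm, lintegral_sub_right_eq_self c y]
        simp_rw [h3]
        rw [lintegral_mul_const _ hχm, h1]
    _ = 2 * (volume T * (ENNReal.ofReal (B ^ p) * kmass n σ p ρ)) := by
        rw [hcint, two_mul]

lemma iteratedFDeriv_eq_zero_of_notMem {n : ℕ} {w : V n → V n} {T : Set (V n)}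
    (hT : IsClosed T) (hw : ∀ x, x ∉ T → w x = 0) (j : ℕ) (x : V n) (hx : x ∉ T) :
    iteratedFDeriv ℝ j w x = 0 := by
  have h1 : Function.support (iteratedFDeriv ℝ j w) ⊆ tsupport w := support_iteratedFDeriv_subset j
  have h2 : tsupport w ⊆ T := by
    refine closure_minimal ?_ hT
    intro y hy
    by_contra hyT
    exact hy (hw y hyT)
  by_contra h
  exact hx (h2 (h1 h))

theorem exists_sobolevNorm_le {n : ℕ} (hn : 1 ≤ n) {s p : ℝ} (hs : 0 ≤ s) (hp : 1 ≤ p) :
    ∃ C : ℝ, 0 ≤ C ∧ ∀ (w : V n → V n) (T : Set (V n)) (M ρ τ : ℝ), ContDiff ℝ ∞ w →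
      IsClosed T → (∀ x, x ∉ T → w x = 0) → volume T ≤ ENNReal.ofReal τ → 0 ≤ τ → 0 < ρ →
      ρ ≤ 1 → 0 ≤ M →
      (∀ j : ℕ, j ≤ ⌊s⌋₊ + 1 → ∀ x, ‖iteratedFDeriv ℝ j w x‖ ≤ M * ρ ^ (1 - (j : ℝ))) →
      sobolevNorm (n : ℝ) s p w ≤ ENNReal.ofReal (C * (M * ρ ^ (1 - s) * τ ^ (1 / p))) := by
  have hp0 : 0 < p := by linarith
  set k := ⌊s⌋₊ with hk
  set σ := Int.fract s with hσ
  have hks : (k : ℝ) + σ = s := by
    rw [hk, hσ, natCast_floor_eq_intCast_floor hs]
    exact Int.floor_add_fract s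
  set κ : ℝ := (kmass n σ p 1).toReal with hκ
  have hκ0 : 0 ≤ κ := ENNReal.toReal_nonneg
  refine ⟨(k + 1) + (2 * κ) ^ (1 / p), by positivity, ?_⟩
  intro w T M ρ τ hw hT hw0 hvol hτ hρ hρ1 hM hD
  have hσ0 : 0 ≤ σ := Int.fract_nonneg s
  set Q : ℝ := M * ρ ^ (1 - s) * τ ^ (1 / p) with hQ
  have hQ0 : 0 ≤ Q := by positivity
  have hzero : ∀ j x, x ∉ T → iteratedFDeriv ℝ j w x = 0 :=
    fun j x hx => iteratedFDeriv_eq_zero_of_notMem hT hw0 j x hx
  have hLp : ∀ j ∈ Finset.range (k + 1),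
      eLpNorm (iteratedFDeriv ℝ j w) (ENNReal.ofReal p) volume ≤ ENNReal.ofReal Q := by
    intro j hj
    have hjk : j ≤ k := by simpa [Nat.lt_succ_iff] using hj
    have hsupp : Function.support (iteratedFDeriv ℝ j w) ⊆ T := by
      intro x hx
      by_contra hxT
      exact hx (hzero j x hxT)
    rw [← eLpNorm_restrict_eq_of_support_subset hsupp]
    have hb : ∀ᵐ x ∂(volume.restrict T), ‖iteratedFDeriv ℝ j w x‖ ≤ M * ρ ^ (1 - (j : ℝ)) :=
      Filter.Eventually.of_forall fun x => hD j (by omega) x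
    refine (eLpNorm_le_of_ae_bound hb).trans ?_
    rw [Measure.restrict_apply_univ, ENNReal.toReal_ofReal hp0.le]
    have h1 : (volume T) ^ p⁻¹ ≤ ENNReal.ofReal (τ ^ (1 / p)) := by
      rw [← one_div, ← ENNReal.ofReal_rpow_of_nonneg hτ (by positivity)]
      exact ENNReal.rpow_le_rpow hvol (by positivity)
    have h2 : ENNReal.ofReal (M * ρ ^ (1 - (j : ℝ))) ≤ ENNReal.ofReal (M * ρ ^ (1 - s)) := by
      refine ENNReal.ofReal_le_ofReal (mul_le_mul_of_nonneg_left ?_ hM)
      refine Real.rpow_le_rpow_of_exponent_ge hρ hρ1 ?_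
      have : (j : ℝ) ≤ k := by exact_mod_cast hjk
      linarith
    calc volume T ^ p⁻¹ * ENNReal.ofReal (M * ρ ^ (1 - (j : ℝ)))
        ≤ ENNReal.ofReal (τ ^ (1 / p)) * ENNReal.ofReal (M * ρ ^ (1 - s)) := mul_le_mul' h1 h2
      _ = ENNReal.ofReal Q := by
        rw [← ENNReal.ofReal_mul (by positivity), hQ]; congr 1; ring
  have hsum : ∑ j ∈ Finset.range (k + 1), eLpNorm (iteratedFDeriv ℝ j w) (ENNReal.ofReal p) volume
      ≤ ENNReal.ofReal ((k + 1) * Q) := by
    refine (Finset.sum_le_sum hLp).trans ?_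
    have : ((k + 1 : ℕ) : ℝ≥0∞) = ENNReal.ofReal ((k : ℝ) + 1) := by
      rw [← ENNReal.ofReal_natCast]; push_cast; rfl
    rw [Finset.sum_const, Finset.card_range, nsmul_eq_mul, this,
      ← ENNReal.ofReal_mul (by positivity)]
  have hfrac : (if σ = 0 then 0 else gagliardo (n : ℝ) σ p (iteratedFDeriv ℝ k w))
      ≤ ENNReal.ofReal ((2 * κ) ^ (1 / p) * Q) := by
    split_ifs with h0
    · exact zero_le
    · have hσpos : 0 < σ := lt_of_le_of_ne hσ0 (Ne.symm h0)
      have hσ1 : σ < 1 := Int.fract_lt_one s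
      have hK := kmass_lt_top hn hσpos hσ1 hp
      set B : ℝ := M * ρ ^ (1 - (k : ℝ)) with hB
      have hB0 : 0 ≤ B := by positivity
      have hGL : ∀ x y, ‖iteratedFDeriv ℝ k w x - iteratedFDeriv ℝ k w y‖
          ≤ B * min (‖x - y‖ / ρ) 2 := by
        intro x y
        have h1 : ‖iteratedFDeriv ℝ k w x - iteratedFDeriv ℝ k w y‖
            ≤ (M * ρ ^ (1 - ((k + 1 : ℕ) : ℝ))) * ‖x - y‖ := by
          refine Convex.norm_image_sub_le_of_norm_fderiv_le (𝕜 := ℝ) (s := univ) ?_ ?_ convex_univ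
            (mem_univ _) (mem_univ _)
          · intro z _
            exact (hw.differentiable_iteratedFDeriv (by
              exact_mod_cast (WithTop.coe_lt_top _))) z
          · intro z _
            rw [norm_fderiv_iteratedFDeriv]
            exact hD (k + 1) le_rfl z
        have h2 : ‖iteratedFDeriv ℝ k w x - iteratedFDeriv ℝ k w y‖ ≤ B * 2 := by
          refine (norm_sub_le _ _).trans ?_
          have := hD k (by omega) x
          have := hD k (by omega) y
          linarith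
        rw [mul_min_of_nonneg _ _ hB0]
        refine le_min ?_ h2
        refine h1.trans (le_of_eq ?_)
        have : ρ ^ (1 - (k : ℝ)) = ρ ^ (1 - ((k + 1 : ℕ) : ℝ)) * ρ := by
          nth_rewrite 3 [← Real.rpow_one ρ]
          rw [← Real.rpow_add hρ]; congr 1; push_cast; ring
        rw [hB, this]
        field_simp
      refine (gagliardo_le hp hT.measurableSet (hzero k) hB0 hρ hGL).trans ?_
      rw [kmass_scale hρ, ← ENNReal.ofReal_toReal hK.ne]
      change (2 * (volume T * (ENNReal.ofReal (B ^ p) * (ENNReal.ofReal (ρ ^ (-(σ * p)))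
        * ENNReal.ofReal κ)))) ^ (1 / p) ≤ _
      have h3 : (2 * (volume T * (ENNReal.ofReal (B ^ p) * (ENNReal.ofReal (ρ ^ (-(σ * p)))
          * ENNReal.ofReal κ)))) ≤ ENNReal.ofReal (2 * (τ * (B ^ p * (ρ ^ (-(σ * p)) * κ)))) := by
        rw [ENNReal.ofReal_mul (by norm_num), ENNReal.ofReal_mul hτ,
          ENNReal.ofReal_mul (by positivity), ENNReal.ofReal_mul (by positivity)]
        have : ENNReal.ofReal 2 = 2 := by norm_num
        rw [this]
        gcongr
      refine (ENNReal.rpow_le_rpow h3 (by positivity)).trans ?_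
      rw [ENNReal.ofReal_rpow_of_nonneg (by positivity) (by positivity)]
      refine ENNReal.ofReal_le_ofReal (le_of_eq ?_)
      have h4 : 2 * (τ * (B ^ p * (ρ ^ (-(σ * p)) * κ)))
          = (2 * κ) * (τ * (B ^ p * (ρ ^ (-σ)) ^ p)) := by
        rw [← Real.rpow_mul hρ.le]; ring_nf
      rw [h4, Real.mul_rpow (x := 2 * κ) (by positivity) (by positivity),
        Real.mul_rpow (x := τ) hτ (by positivity),
        Real.mul_rpow (x := B ^ p) (by positivity) (by positivity),
        ← Real.rpow_mul hB0, ← Real.rpow_mul (by positivity), mul_one_div_cancel hp0.ne',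
        Real.rpow_one, Real.rpow_one, hQ, hB]
      have h5 : ρ ^ (1 - s) = ρ ^ (1 - (k:ℝ)) * ρ ^ (-σ) := by
        rw [← Real.rpow_add hρ]; congr 1; linarith
      rw [h5]; ring
  unfold sobolevNorm
  rw [← hk, ← hσ]
  calc _ ≤ ENNReal.ofReal ((k + 1) * Q) + ENNReal.ofReal ((2 * κ) ^ (1 / p) * Q) :=
        add_le_add hsum hfrac
    _ = _ := by
        rw [← ENNReal.ofReal_add (by positivity) (by positivity)]; congr 1; ring

end Pool.Agent.H78.Diam
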