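import Pool.Agent.H78.Diam.Stereo
import Pool.Agent.H78.Diam.Sob

open scoped ContDiff Manifold ENNReal Topology
open MeasureTheory Set

namespace Pool.Agent.H78.Diam

variable {n : ℕ}

/-- an injective immersion is bi-Lipschitz from below on compact sets -/
lemma antilip_on_compact {f : V n → E n} (hf : ContDiff ℝ ∞ f) {K : Set (V n)} (hK : IsCompact K)
    (hinj : InjOn f K) (himm : ∀ ξ ∈ K, Function.Injective (fderiv ℝ f ξ)) :
    ∃ c : ℝ, 0 < c ∧ ∀ ξ ∈ K, ∀ η ∈ K, c * ‖ξ - η‖ ≤ ‖f ξ - f η‖ := by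
  have key : ∃ c : ℝ, 0 < c ∧ ∀ q ∈ K ×ˢ K, c * ‖q.1 - q.2‖ ≤ ‖f q.1 - f q.2‖ := by
    refine IsCompact.induction_on (hK.prod hK)
      (p := fun s => ∃ c : ℝ, 0 < c ∧ ∀ q ∈ s, c * ‖q.1 - q.2‖ ≤ ‖f q.1 - f q.2‖) ?_ ?_ ?_ ?_
    · exact ⟨1, one_pos, fun q hq => absurd hq (notMem_empty q)⟩
    · rintro s t hst ⟨c, hc, h⟩
      exact ⟨c, hc, fun q hq => h q (hst hq)⟩
    · rintro s t ⟨c, hc, h⟩ ⟨d, hd, h'⟩
      refine ⟨min c d, lt_min hc hd, fun q hq => ?_⟩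
      rcases hq with hq | hq
      · exact (mul_le_mul_of_nonneg_right (min_le_left _ _) (norm_nonneg _)).trans (h q hq)
      · exact (mul_le_mul_of_nonneg_right (min_le_right _ _) (norm_nonneg _)).trans (h' q hq)
    · rintro ⟨a, b⟩ ⟨ha, hb⟩
      by_cases hab : a = b
      · subst hab
        have hstrict : HasStrictFDerivAt f (fderiv ℝ f a) a :=
          hf.contDiffAt.hasStrictFDerivAt (by simp)
        obtain ⟨C, hC, hA⟩ := LinearMap.exists_antilipschitzWith ((fderiv ℝ f a) : V n →ₗ[ℝ] E n)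
          (LinearMap.ker_eq_bot.2 (himm a ha))
        have hC0 : (0:ℝ) < C := by exact_mod_cast hC
        have hlow : ∀ v, (C:ℝ)⁻¹ * ‖v‖ ≤ ‖fderiv ℝ f a v‖ := by
          intro v
          have h1 := hA.le_mul_dist v 0
          simp only [dist_zero_right, map_zero] at h1
          rw [inv_mul_le_iff₀ hC0]
          exact h1
        have hc2 : (0:ℝ) < (C:ℝ)⁻¹ / 2 := by positivity
        have h2 := hstrict.isLittleO.bound hc2
        refine ⟨_, mem_nhdsWithin_of_mem_nhds h2, (C:ℝ)⁻¹ / 2, hc2, fun q hq => ?_⟩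
        have h3 : ‖f q.1 - f q.2 - (fderiv ℝ f a) (q.1 - q.2)‖ ≤ (C:ℝ)⁻¹ / 2 * ‖q.1 - q.2‖ := hq
        have h4 := hlow (q.1 - q.2)
        have h5 : ‖(fderiv ℝ f a) (q.1 - q.2)‖ ≤ ‖f q.1 - f q.2‖
            + ‖f q.1 - f q.2 - (fderiv ℝ f a) (q.1 - q.2)‖ := by
          have := norm_sub_le (f q.1 - f q.2) (f q.1 - f q.2 - (fderiv ℝ f a) (q.1 - q.2))
          simpa using this
        linarith
      · have hfab : f a ≠ f b := fun h => hab (hinj ha hb h)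
        have hpos : 0 < ‖f a - f b‖ := norm_pos_iff.2 (sub_ne_zero.2 hfab)
        have hcont : ContinuousAt (fun q : V n × V n => ‖f q.1 - f q.2‖) (a, b) := by
          have := hf.continuous
          fun_prop
        have hcont2 : ContinuousAt (fun q : V n × V n => ‖q.1 - q.2‖) (a, b) := by fun_prop
        have h1 : ∀ᶠ q : V n × V n in 𝓝 (a, b), ‖f a - f b‖ / 2 < ‖f q.1 - f q.2‖ :=
          hcont.eventually_const_lt (by linarith : ‖f a - f b‖ / 2 < ‖f a - f b‖)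
        have h2 : ∀ᶠ q : V n × V n in 𝓝 (a, b), ‖q.1 - q.2‖ < ‖a - b‖ + 1 :=
          hcont2.eventually_lt_const (by linarith : ‖a - b‖ < ‖a - b‖ + 1)
        refine ⟨_, mem_nhdsWithin_of_mem_nhds (h1.and h2), (‖f a - f b‖ / 2) / (‖a - b‖ + 1),
          by positivity, fun q hq => ?_⟩
        obtain ⟨h3, h4⟩ := hq
        rw [div_mul_eq_mul_div, div_le_iff₀ (by positivity)]
        have : ‖f a - f b‖ / 2 * ‖q.1 - q.2‖ ≤ ‖f a - f b‖ / 2 * (‖a - b‖ + 1) :=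
          mul_le_mul_of_nonneg_left h4.le (by positivity)
        have h5 : ‖f a - f b‖ / 2 * (‖a - b‖ + 1) ≤ ‖f q.1 - f q.2‖ * (‖a - b‖ + 1) :=
          mul_le_mul_of_nonneg_right h3.le (by positivity)
        linarith
  obtain ⟨c, hc, h⟩ := key
  exact ⟨c, hc, fun ξ hξ η hη => h (ξ, η) ⟨hξ, hη⟩⟩

lemma exists_deriv_bound {W F : Type*} [NormedAddCommGroup W] [NormedSpace ℝ W]
    [NormedAddCommGroup F] [NormedSpace ℝ F] {g : W → F} (hg : ContDiff ℝ ∞ g) {K : Set W}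
    (hK : IsCompact K) (m : ℕ) :
    ∃ M : ℝ, 1 ≤ M ∧ ∀ i ≤ m, ∀ x ∈ K, ‖iteratedFDeriv ℝ i g x‖ ≤ M := by
  have h1 : ∀ i : ℕ, ∃ C, ∀ x ∈ K, ‖iteratedFDeriv ℝ i g x‖ ≤ C := fun i =>
    hK.exists_bound_of_continuousOn
      (hg.continuous_iteratedFDeriv (by exact_mod_cast le_top)).continuousOn
  choose B hB using h1
  refine ⟨1 + ∑ i ∈ Finset.range (m + 1), |B i|, ?_, ?_⟩
  · have : 0 ≤ ∑ i ∈ Finset.range (m + 1), |B i| := Finset.sum_nonneg fun _ _ => abs_nonneg _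
    linarith
  · intro i hi x hx
    have h2 : |B i| ≤ ∑ i ∈ Finset.range (m + 1), |B i| :=
      Finset.single_le_sum (f := fun i => |B i|) (fun _ _ => abs_nonneg _)
        (Finset.mem_range.2 (by omega))
    have h3 := hB i x hx
    have h4 := le_abs_self (B i)
    linarith

/-- derivative bound for `ξ ↦ B ξ (ρ • A (t, (ψ ξ - y₀)/ρ))` -/
lemma scaled_deriv_bound {A : ℝ × V n → V n} (hA : ContDiff ℝ ∞ A) {B : V n → V n →L[ℝ] V n}
    (hB : ContDiff ℝ ∞ B) {ψ : V n → V n} (hψ : ContDiff ℝ ∞ ψ) {m : ℕ} {MA MB Mψ : ℝ}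
    (hMA1 : 1 ≤ MA) (hMB1 : 1 ≤ MB) (hMψ1 : 1 ≤ Mψ) {t : ℝ} {ξ : V n}
    (hMA : ∀ i ≤ m, ∀ z, ‖iteratedFDeriv ℝ i A (t, z)‖ ≤ MA)
    (hMB : ∀ i ≤ m, ‖iteratedFDeriv ℝ i B ξ‖ ≤ MB)
    (hMψ : ∀ i ≤ m, ‖iteratedFDeriv ℝ i ψ ξ‖ ≤ Mψ) {ρ : ℝ} (hρ : 0 < ρ) (hρ1 : ρ ≤ 1)
    (y₀ : V n) (j : ℕ) (hj : j ≤ m) :
    ‖iteratedFDeriv ℝ j (fun ξ => B ξ (ρ • A (t, ρ⁻¹ • (ψ ξ - y₀)))) ξ‖
      ≤ (2 ^ m * m.factorial * MB * MA * Mψ ^ m) * ρ ^ (1 - (j : ℝ)) := by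
  set L : V n →L[ℝ] ℝ × V n := ρ⁻¹ • ContinuousLinearMap.inr ℝ ℝ (V n) with hL
  have hLn : ‖L‖ ≤ ρ⁻¹ := by
    rw [hL, norm_smul, norm_inv, Real.norm_of_nonneg hρ.le]
    have := ContinuousLinearMap.norm_inr_le_one ℝ ℝ (V n)
    have h0 : 0 ≤ ρ⁻¹ := by positivity
    nlinarith
  set c : ℝ × V n := (t, -(ρ⁻¹ • y₀)) with hc
  have hinner : (fun ξ => A (t, ρ⁻¹ • (ψ ξ - y₀))) = (fun q => A (c + q)) ∘ (L ∘ ψ) := by
    funext η
    simp only [Function.comp, hc, hL, smul_apply,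
      ContinuousLinearMap.inr_apply, Prod.smul_mk, smul_zero, Prod.mk_add_mk, add_zero]
    rw [smul_sub, neg_add_eq_sub]
  have hA' : ContDiff ℝ ∞ (fun q => A (c + q)) := hA.comp (contDiff_const.add contDiff_id)
  have hLψ : ContDiff ℝ ∞ (L ∘ ψ) := L.contDiff.comp hψ
  have hMr : 1 ≤ Mψ / ρ := by
    rw [le_div_iff₀ hρ]; linarith
  have hcomp : ∀ i ≤ m, ‖iteratedFDeriv ℝ i (fun ξ => A (t, ρ⁻¹ • (ψ ξ - y₀))) ξ‖
      ≤ m.factorial * MA * (Mψ / ρ) ^ i := by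
    intro i hi
    rw [hinner]
    have h1 := norm_iteratedFDeriv_comp_le (n := i) hA' hLψ (by exact_mod_cast le_top) ξ (C := MA)
      (D := Mψ / ρ) (by
        intro l hl
        rw [iteratedFDeriv_comp_add_left]
        have : c + (L ∘ ψ) ξ = (t, ρ⁻¹ • (ψ ξ - y₀)) := by
          simp only [Function.comp, hc, hL, smul_apply,
            ContinuousLinearMap.inr_apply, Prod.smul_mk, smul_zero, Prod.mk_add_mk, add_zero]
          rw [smul_sub, neg_add_eq_sub]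
        rw [this]
        exact hMA l (by omega) _) (by
        intro l hl1 hl2
        have h2 := L.norm_iteratedFDeriv_comp_left (x := ξ) (n := l) (N := ∞) hψ.contDiffAt
          (by exact_mod_cast le_top)
        have h3 := hMψ l (by omega)
        have h4 : ‖L‖ * ‖iteratedFDeriv ℝ l ψ ξ‖ ≤ ρ⁻¹ * Mψ := by gcongr
        calc _ ≤ _ := h2
          _ ≤ ρ⁻¹ * Mψ := h4
          _ = Mψ / ρ := by rw [div_eq_mul_inv, mul_comm]
          _ = (Mψ / ρ) ^ 1 := (pow_one _).symm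
          _ ≤ (Mψ / ρ) ^ l := pow_le_pow_right₀ hMr hl1)
    refine h1.trans ?_
    have h5 : (i.factorial : ℝ) ≤ m.factorial := by exact_mod_cast Nat.factorial_le hi
    gcongr
  have hsm : ContDiff ℝ ∞ (fun ξ => ρ • A (t, ρ⁻¹ • (ψ ξ - y₀))) := by
    have h1 : ContDiff ℝ ∞ (fun ξ => A (t, ρ⁻¹ • (ψ ξ - y₀))) := by
      rw [hinner]; exact hA'.comp hLψ
    exact h1.const_smul ρ
  have hsm0 : ContDiff ℝ ∞ (fun ξ => A (t, ρ⁻¹ • (ψ ξ - y₀))) := by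
    rw [hinner]; exact hA'.comp hLψ
  have h6 := norm_iteratedFDeriv_clm_apply (n := j) hB hsm ξ (by exact_mod_cast le_top)
  refine h6.trans ?_
  have h7 : ∀ i ∈ Finset.range (j + 1), (j.choose i : ℝ) * ‖iteratedFDeriv ℝ i B ξ‖
      * ‖iteratedFDeriv ℝ (j - i) (fun ξ => ρ • A (t, ρ⁻¹ • (ψ ξ - y₀))) ξ‖
      ≤ (j.choose i : ℝ) * (MB * (ρ * (m.factorial * MA * (Mψ / ρ) ^ j))) := by
    intro i hi
    have hi' : i ≤ j := by simpa [Nat.lt_succ_iff] using hi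
    have h8' : ∀ l : ℕ, iteratedFDeriv ℝ l (fun ξ => ρ • A (t, ρ⁻¹ • (ψ ξ - y₀))) ξ
        = ρ • iteratedFDeriv ℝ l (fun ξ => A (t, ρ⁻¹ • (ψ ξ - y₀))) ξ := fun l =>
      iteratedFDeriv_const_smul_apply (a := ρ) (f := fun ξ => A (t, ρ⁻¹ • (ψ ξ - y₀)))
        ((hsm0.of_le (by exact_mod_cast le_top)).contDiffAt)
    have h8 := h8' (j - i)
    rw [h8, norm_smul, Real.norm_of_nonneg hρ.le, mul_assoc]
    refine mul_le_mul_of_nonneg_left ?_ (by positivity)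
    have h9 := hcomp (j - i) (by omega)
    have h10 : (Mψ / ρ) ^ (j - i) ≤ (Mψ / ρ) ^ j := pow_le_pow_right₀ hMr (by omega)
    have h11 : ‖iteratedFDeriv ℝ (j - i) (fun ξ => A (t, ρ⁻¹ • (ψ ξ - y₀))) ξ‖
        ≤ m.factorial * MA * (Mψ / ρ) ^ j := h9.trans (by gcongr)
    have h12 := hMB i (by omega)
    gcongr
  refine (Finset.sum_le_sum h7).trans ?_
  rw [← Finset.sum_mul]
  have h13 : ∑ i ∈ Finset.range (j + 1), (j.choose i : ℝ) = 2 ^ j := by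
    exact_mod_cast Nat.sum_range_choose j
  rw [h13]
  have h14 : ρ * (Mψ / ρ) ^ j = Mψ ^ j * ρ ^ (1 - (j : ℝ)) := by
    rw [Real.rpow_sub hρ, Real.rpow_one, Real.rpow_natCast, div_pow]
    field_simp
  have h15 : (2:ℝ) ^ j * (MB * (ρ * (m.factorial * MA * (Mψ / ρ) ^ j)))
      = (2 ^ j * m.factorial * MB * MA * Mψ ^ j) * ρ ^ (1 - (j : ℝ)) := by
    calc (2:ℝ) ^ j * (MB * (ρ * (m.factorial * MA * (Mψ / ρ) ^ j)))
        = 2 ^ j * MB * m.factorial * MA * (ρ * (Mψ / ρ) ^ j) := by ring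
      _ = _ := by rw [h14]; ring
  rw [h15]
  have h16 : (2:ℝ) ^ j ≤ 2 ^ m := pow_le_pow_right₀ (by norm_num) hj
  have h17 : Mψ ^ j ≤ Mψ ^ m := pow_le_pow_right₀ hMψ1 hj
  have h18 : 0 ≤ ρ ^ (1 - (j : ℝ)) := by positivity
  gcongr

end Pool.Agent.H78.Diam
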