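import Pool.Agent.H78.Diam.EstA

open scoped ContDiff Manifold ENNReal Topology
open MeasureTheory Set

namespace Pool.Agent.H78.Diam

variable {n : ℕ}

/-- cut-off: vanishes for `1 + h ≤ δ`, equals one for `1 + h ≥ 2 δ` -/
noncomputable def cut (δ h : ℝ) : ℝ := st ((1 + h) / δ - 1)

lemma cut_zero {δ h : ℝ} (hδ : 0 < δ) (hh : 1 + h ≤ δ) : cut δ h = 0 := by
  refine st_of_nonpos ?_
  have : (1 + h) / δ ≤ 1 := by rwa [div_le_one hδ]
  linarith

lemma cut_one {δ h : ℝ} (hδ : 0 < δ) (hh : 2 * δ ≤ 1 + h) : cut δ h = 1 := by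
  refine st_of_one_le ?_
  have : 2 ≤ (1 + h) / δ := by rwa [le_div_iff₀ hδ]
  linarith

lemma contDiff_cut (δ : ℝ) : ContDiff ℝ ∞ (cut δ) := by
  unfold cut
  exact st_contDiff.comp (((contDiff_const.add contDiff_id).div_const δ).sub contDiff_const)

/-- globally smooth modification of the stereographic projection -/
noncomputable def khat (δ : ℝ) (x : E n) : V n :=
  (cut δ (ht n x) * (2 / (1 + ht n x))) • tailL n x

lemma khat_eq {δ : ℝ} (hδ : 0 < δ) {x : E n} (hx : 2 * δ ≤ 1 + ht n x) : khat δ x = kk x := by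
  unfold khat kk
  rw [cut_one hδ hx, one_mul]

lemma contDiff_khat {δ : ℝ} (hδ : 0 < δ) : ContDiff ℝ ∞ (khat (n := n) δ) := by
  rw [contDiff_iff_contDiffAt]
  intro x
  by_cases hx : 1 + ht n x = 0
  · have h0 : ContDiffAt ℝ ∞ (fun _ : E n => (0 : V n)) x := contDiffAt_const
    refine h0.congr_of_eventuallyEq ?_
    have hc : ContinuousAt (fun y : E n => 1 + ht n y) x := by fun_prop
    have hlt : 1 + ht n x < δ := by rw [hx]; exact hδ
    filter_upwards [hc.eventually_lt_const hlt] with y hy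
    unfold khat
    rw [cut_zero hδ hy.le]; simp
  · have h1 : ContDiffAt ℝ ∞ (fun y : E n => cut δ (ht n y) * (2 / (1 + ht n y))) x := by
      refine ContDiffAt.mul ?_ ?_
      · exact ((contDiff_cut δ).comp (ht n).contDiff).contDiffAt
      · exact contDiffAt_const.div (contDiffAt_const.add (ht n).contDiff.contDiffAt) hx
    exact h1.smul (tailL n).contDiff.contDiffAt

/-- cut-off derivative of the inverse stereographic projection -/
noncomputable def Qop (δ : ℝ) (x : E n) : V n →L[ℝ] E n :=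
  cut (2 * δ) (ht n x) • fderiv ℝ kap (khat δ x)

lemma contDiff_Qop {δ : ℝ} (hδ : 0 < δ) : ContDiff ℝ ∞ (Qop (n := n) δ) := by
  have h1 : ContDiff ℝ ∞ (fun x : E n => cut (2 * δ) (ht n x)) :=
    (contDiff_cut (2 * δ)).comp (ht n).contDiff
  have h2 : ContDiff ℝ ∞ (fun x : E n => fderiv ℝ kap (khat δ x)) :=
    (contDiff_kap.fderiv_right (m := ∞) (by simp)).comp (contDiff_khat hδ)
  exact h1.smul h2

lemma VFam.vel_push_eq_Qop (F : VFam n) {R₁ δ : ℝ} (hδ : 4 * δ = 1 / (R₁ ^ 2 + 1))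
    {ρ : ℝ} (hρ : 0 < ρ) {y₀ : V n} (hR : ‖y₀‖ + ρ * F.R ≤ R₁) (t : ℝ) (x : S n) :
    (F.scale ρ hρ y₀).push.vel t x
      = Qop δ (x : E n) (ρ • F.vel (t, ρ⁻¹ • (khat δ (x : E n) - y₀))) := by
  have hδ0 : 0 < δ := by
    have : 0 < 1 / (R₁ ^ 2 + 1) := by positivity
    linarith
  -- value at a point which is not the south pole
  have hval : ht n (x : E n) ≠ -1 → (F.scale ρ hρ y₀).push.vel t x
      = fderiv ℝ kap (kk (x : E n)) (ρ • F.vel (t, ρ⁻¹ • (kk (x : E n) - y₀))) := by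
    intro h
    have h1 := (F.scale ρ hρ y₀).vel_push_kapS t (kk (x : E n))
    rw [kapS_kk h, VFam.vel_scale] at h1
    exact h1
  have hzero : ht n (x : E n) ≠ -1 → 1 + ht n (x : E n) ≤ 4 * δ →
      ρ • F.vel (t, ρ⁻¹ • (kk (x : E n) - y₀)) = 0 := by
    intro h h4
    have h1 : R₁ ≤ ‖kk (x : E n)‖ := norm_kk_ge h (by rw [← hδ]; exact h4)
    have h2 := (F.scale ρ hρ y₀).vel_eq_zero t (kk (x : E n)) (hR.trans h1)
    rwa [VFam.vel_scale] at h2
  rcases le_or_gt (1 + ht n (x : E n)) (2 * δ) with hx | hx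
  · have hQ : Qop δ (x : E n) = 0 := by
      unfold Qop
      rw [cut_zero (by linarith) hx]
      ext v i
      simp
    rw [hQ]
    simp only [zero_apply]
    by_cases h : ht n (x : E n) = -1
    · exact VFam.vel_push_of_eq _ t h
    · rw [hval h, hzero h (by linarith)]; simp
  · have hne : ht n (x : E n) ≠ -1 := by
      intro h; rw [h] at hx; linarith
    rw [hval hne, khat_eq hδ0 hx.le]
    unfold Qop
    rw [khat_eq hδ0 hx.le]
    rcases le_or_gt (2 * (2 * δ)) (1 + ht n (x : E n)) with h4 | h4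
    · rw [cut_one (by linarith) h4]
      simp
    · rw [hzero hne (by linarith)]; simp

/-- the Sobolev norm of the local representative of the velocity of a scaled family -/
theorem localRep_estimate (D : Atlas n) (a : Fin D.N) (hn : 1 ≤ n) {s p : ℝ} (hs : 0 ≤ s)
    (hp : 1 ≤ p) (F : VFam n) :
    ∃ C : ℝ, 0 ≤ C ∧ ∀ (ρ : ℝ) (hρ : 0 < ρ) (y₀ : V n), ρ ≤ 1 → ‖y₀‖ ≤ 1 / 2 →
      ∀ t ∈ Icc (0:ℝ) 1, sobolevNorm (n : ℝ) s p (D.localRep a ((F.scale ρ hρ y₀).push.vel t))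
        ≤ ENNReal.ofReal (C * ρ ^ (1 - s + n / p)) := by
  have hp0 : 0 < p := by linarith
  set R₁ : ℝ := |F.R| + 1 with hR₁
  have hR₁pos : 0 < R₁ := by positivity
  set δ : ℝ := 1 / (R₁ ^ 2 + 1) / 4 with hδ
  have hδ4 : 4 * δ = 1 / (R₁ ^ 2 + 1) := by rw [hδ]; ring
  have hδ0 : 0 < δ := by rw [hδ]; positivity
  obtain ⟨C₀, hC₀, hsob⟩ := exists_sobolevNorm_le hn hs hp
  set m : ℕ := ⌊s⌋₊ + 1 with hm
  -- the smooth coefficients
  set B : V n → V n →L[ℝ] V n := fun ξ => (D.P a ξ).comp (Qop δ (D.ee a ξ)) with hB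
  have hBs : ContDiff ℝ ∞ B := (D.contDiff_P a).clm_comp ((contDiff_Qop hδ0).comp (D.smooth_e a))
  set ψ : V n → V n := fun ξ => khat δ (D.ee a ξ) with hψ
  have hψs : ContDiff ℝ ∞ ψ := (contDiff_khat hδ0).comp (D.smooth_e a)
  have hK := D.isCompact_K a
  obtain ⟨MB, hMB1, hMB⟩ := exists_deriv_bound hBs hK m
  obtain ⟨Mψ, hMψ1, hMψ⟩ := exists_deriv_bound hψs hK m
  obtain ⟨MA, hMA1, hMA⟩ := exists_deriv_bound F.contDiff_vel
    ((isCompact_Icc (a := (0:ℝ)) (b := 1)).prod (isCompact_closedBall (0 : V n) R₁)) m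
  have hMA' : ∀ t ∈ Icc (0:ℝ) 1, ∀ i ≤ m, ∀ z, ‖iteratedFDeriv ℝ i F.vel (t, z)‖ ≤ MA := by
    intro t ht i hi z
    by_cases hz : ‖z‖ ≤ R₁
    · exact hMA i hi (t, z) ⟨ht, by simpa using hz⟩
    · push Not at hz
      have hev : F.vel =ᶠ[𝓝 (t, z)] fun _ => 0 := by
        have hc : ContinuousAt (fun q : ℝ × V n => ‖q.2‖) (t, z) := by fun_prop
        filter_upwards [hc.eventually_const_lt hz] with q hq
        exact F.vel_eq_zero q.1 q.2 (by
          have := le_abs_self F.R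
          have hq' : |F.R| + 1 < ‖q.2‖ := hq
          linarith)
      have h1 := (hev.iteratedFDeriv ℝ i).eq_of_nhds
      rw [h1]
      have : iteratedFDeriv ℝ i (fun _ : ℝ × V n => (0 : V n)) (t, z) = 0 := by
        rw [iteratedFDeriv_fun_zero]; rfl
      rw [this, norm_zero]; linarith
  -- bi-Lipschitz constants
  obtain ⟨cK, hcK, hanti⟩ := antilip_on_compact (D.smooth_e a) hK
    (fun ξ hξ η hη h => D.inj a (D.K_subset a hξ) (D.K_subset a hη) (Subtype.ext h))
    (fun ξ hξ => D.imm a ξ (D.K_subset a hξ))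
  obtain ⟨Lk, hLk1, hLk⟩ := exists_deriv_bound (contDiff_kap (n := n))
    (isCompact_closedBall (0 : V n) (R₁ + 1)) 1
  set r₀ : ℝ := 2 * R₁ * Lk / cK with hr₀
  have hr₀pos : 0 ≤ r₀ := by positivity
  set vb : ℝ := (volume (Metric.ball (0 : V n) 1)).toReal with hvb
  have hvb0 : 0 ≤ vb := ENNReal.toReal_nonneg
  have hvbtop : volume (Metric.ball (0 : V n) 1) ≠ ⊤ := measure_ball_lt_top.ne
  set M : ℝ := 2 ^ m * m.factorial * MB * MA * Mψ ^ m with hM
  have hM0 : 0 ≤ M := by positivity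
  refine ⟨C₀ * (M * (r₀ ^ n * vb) ^ (1 / p)), by positivity, ?_⟩
  intro ρ hρ y₀ hρ1 hy₀ t htt
  have hRle : ‖y₀‖ + ρ * F.R ≤ R₁ := by
    have h1 : ρ * F.R ≤ 1 * |F.R| := by
      calc ρ * F.R ≤ ρ * |F.R| := mul_le_mul_of_nonneg_left (le_abs_self _) hρ.le
        _ ≤ 1 * |F.R| := mul_le_mul_of_nonneg_right hρ1 (abs_nonneg _)
    rw [hR₁]; linarith
  set u := (F.scale ρ hρ y₀).push.vel t with hu
  have hw : D.localRep a u = fun ξ => B ξ (ρ • F.vel (t, ρ⁻¹ • (ψ ξ - y₀))) := by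
    funext ξ
    rw [D.localRep_eq, hu, F.vel_push_eq_Qop hδ4 hρ hRle]
    rfl
  -- support
  set T : Set (V n) := D.K a ∩ (D.e a) ⁻¹' (kapS '' Metric.closedBall y₀ (ρ * R₁)) with hT
  have hcont_e : Continuous (D.e a) := Continuous.subtype_mk (D.smooth_e a).continuous _
  have hcont_kapS : Continuous (kapS (n := n)) :=
    Continuous.subtype_mk contDiff_kap.continuous _
  have hTclosed : IsClosed T := by
    refine hK.isClosed.inter (IsClosed.preimage hcont_e ?_)
    exact ((isCompact_closedBall y₀ (ρ * R₁)).image hcont_kapS).isClosed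
  have hT0 : ∀ ξ, ξ ∉ T → D.localRep a u ξ = 0 := by
    intro ξ hξ
    rw [D.localRep_eq]
    by_cases hKξ : ξ ∈ D.K a
    · have h1 : D.e a ξ ∉ kapS '' Metric.closedBall y₀ (ρ * R₁) := fun h => hξ ⟨hKξ, h⟩
      have h2 : u (D.e a ξ) = 0 := by
        by_cases hs' : ht n (D.e a ξ : E n) = -1
        · exact VFam.vel_push_of_eq _ t hs'
        · obtain ⟨y, hy⟩ := exists_kapS hs'
          have h3 : y ∉ Metric.closedBall y₀ (ρ * R₁) := fun h => h1 ⟨y, h, hy⟩
          rw [hu, ← hy, VFam.vel_push_kapS, VFam.vel_scale]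
          have h4 : F.R ≤ ‖ρ⁻¹ • (y - y₀)‖ := by
            rw [norm_smul, norm_inv, Real.norm_of_nonneg hρ.le, inv_mul_eq_div, le_div_iff₀ hρ]
            have h5 : ρ * R₁ < ‖y - y₀‖ := by
              rw [Metric.mem_closedBall, dist_eq_norm] at h3
              exact not_le.1 h3
            have h6 : F.R * ρ ≤ ρ * R₁ := by
              rw [mul_comm]
              refine mul_le_mul_of_nonneg_left ?_ hρ.le
              rw [hR₁]; linarith [le_abs_self F.R]
            linarith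
          rw [F.vel_eq_zero t _ h4]; simp
      rw [h2]; simp
    · rw [D.P_eq_zero a hKξ]; simp
  have hTvol : volume T ≤ ENNReal.ofReal ((r₀ * ρ) ^ n * vb) := by
    rcases T.eq_empty_or_nonempty with hemp | ⟨ξ₀, hξ₀⟩
    · rw [hemp]; simp
    · have hsub : T ⊆ Metric.closedBall ξ₀ (r₀ * ρ) := by
        intro ξ hξ
        obtain ⟨hξK, ⟨y, hy, hyξ⟩⟩ := hξ
        obtain ⟨hξ₀K, ⟨z, hz, hzξ⟩⟩ := hξ₀
        have hball : ∀ w ∈ Metric.closedBall y₀ (ρ * R₁), ‖w - y₀‖ ≤ ρ * R₁ := by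
          intro w hw; rwa [Metric.mem_closedBall, dist_eq_norm] at hw
        have h1 := hanti ξ hξK ξ₀ hξ₀K
        have h2 : ‖(D.e a ξ : E n) - (D.e a ξ₀ : E n)‖ ≤ Lk * ‖y - z‖ := by
          rw [← hyξ, ← hzξ, coe_kapS, coe_kapS]
          -- Lipschitz bound of kap on the convex ball around y₀ is obtained through R₂
          refine Convex.norm_image_sub_le_of_norm_fderiv_le (𝕜 := ℝ)
            (s := Metric.closedBall y₀ (ρ * R₁)) ?_ ?_ (convex_closedBall _ _) hz hy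
          · intro w _; exact contDiff_kap.differentiable (by simp) w
          · intro w hw
            have hw1 := hball w hw
            have hw2 : ‖w‖ ≤ ‖w - y₀‖ + ‖y₀‖ := by simpa using norm_add_le (w - y₀) y₀
            have hw3 : ρ * R₁ ≤ 1 * R₁ := mul_le_mul_of_nonneg_right hρ1 hR₁pos.le
            rw [← norm_iteratedFDeriv_one]
            exact hLk 1 le_rfl w (by rw [Metric.mem_closedBall, dist_zero_right]; linarith)
        have h3 : ‖y - z‖ ≤ 2 * (ρ * R₁) := by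
          have := norm_sub_le (y - y₀) (z - y₀)
          have h4 := hball y hy
          have h5 := hball z hz
          have h6 : y - y₀ - (z - y₀) = y - z := by abel
          rw [h6] at this
          linarith
        rw [Metric.mem_closedBall, dist_eq_norm, hr₀]
        rw [div_mul_eq_mul_div, le_div_iff₀ hcK]
        have h7 : Lk * ‖y - z‖ ≤ Lk * (2 * (ρ * R₁)) := mul_le_mul_of_nonneg_left h3 (by linarith)
        have h8 : cK * ‖ξ - ξ₀‖ ≤ Lk * (2 * (ρ * R₁)) := h1.trans (h2.trans h7)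
        linarith
      refine (measure_mono hsub).trans ?_
      rw [Measure.addHaar_closedBall _ _ (by positivity), ← ENNReal.ofReal_toReal hvbtop,
        ← ENNReal.ofReal_mul (by positivity)]
      have hfin : Module.finrank ℝ (V n) = n := by simp
      rw [hfin]
  have hDb : ∀ j : ℕ, j ≤ ⌊s⌋₊ + 1 → ∀ ξ, ‖iteratedFDeriv ℝ j (D.localRep a u) ξ‖
      ≤ M * ρ ^ (1 - (j : ℝ)) := by
    intro j hj ξ
    by_cases hKξ : ξ ∈ D.K a
    · rw [hw]
      exact scaled_deriv_bound F.contDiff_vel hBs hψs hMA1 hMB1 hMψ1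
        (fun i hi z => hMA' t htt i hi z) (fun i hi => hMB i hi ξ hKξ)
        (fun i hi => hMψ i hi ξ hKξ) hρ hρ1 y₀ j hj
    · have hξT : ξ ∉ T := fun h => hKξ h.1
      rw [iteratedFDeriv_eq_zero_of_notMem hTclosed hT0 j ξ hξT, norm_zero]
      positivity
  have hsm : ContDiff ℝ ∞ (D.localRep a u) :=
    D.contDiff_localRep (Fam.smF_vel _ t) a
  have hfinal := hsob (D.localRep a u) T M ρ ((r₀ * ρ) ^ n * vb) hsm hTclosed hT0 hTvol
    (by positivity) hρ hρ1 hM0 hDb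
  refine hfinal.trans (le_of_eq ?_)
  congr 1
  have h1 : ((r₀ * ρ) ^ n * vb) ^ (1 / p) = (r₀ ^ n * vb) ^ (1 / p) * ρ ^ (n / p : ℝ) := by
    rw [mul_pow, mul_right_comm, Real.mul_rpow (by positivity) (by positivity)]
    congr 1
    rw [← Real.rpow_natCast, ← Real.rpow_mul hρ.le]
    congr 1; ring
  rw [h1, Real.rpow_add hρ]
  ring

end Pool.Agent.H78.Diam
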