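import Pool.Agent.H78.Diam.EstB

open scoped ContDiff Manifold ENNReal Topology
open MeasureTheory Set

namespace Pool.Agent.H78.Diam

variable {n : ℕ}

theorem norm_estimate (D : Atlas n) (hn : 1 ≤ n) {s p : ℝ} (hs : 0 ≤ s)
    (hp : 1 ≤ p) (F : VFam n) :
    ∃ C : ℝ, 0 ≤ C ∧ ∀ (ρ : ℝ) (hρ : 0 < ρ) (y₀ : V n), ρ ≤ 1 → ‖y₀‖ ≤ 1 / 2 →
      ∀ t ∈ Icc (0:ℝ) 1, D.norm s p ((F.scale ρ hρ y₀).push.vel t)
        ≤ ENNReal.ofReal (C * ρ ^ (1 - s + n / p)) := by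
  choose C hC hest using fun a => localRep_estimate D a hn hs hp F
  refine ⟨(D.N : ℝ) ^ (1 / 2 : ℝ) * ∑ a, C a,
    mul_nonneg (by positivity) (Finset.sum_nonneg fun a _ => hC a), ?_⟩
  intro ρ hρ y₀ hρ1 hy₀ t ht
  have hb : ∀ a, sobolevNorm (n : ℝ) s p (D.localRep a ((F.scale ρ hρ y₀).push.vel t))
      ≤ ENNReal.ofReal ((∑ a, C a) * ρ ^ (1 - s + n / p)) := by
    intro a
    refine (hest a ρ hρ y₀ hρ1 hy₀ t ht).trans (ENNReal.ofReal_le_ofReal ?_)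
    refine mul_le_mul_of_nonneg_right ?_ (by positivity)
    exact Finset.single_le_sum (f := C) (fun b _ => hC b) (Finset.mem_univ a)
  have hX : 0 ≤ (∑ a, C a) * ρ ^ (1 - s + n / p) :=
    mul_nonneg (Finset.sum_nonneg fun a _ => hC a) (by positivity)
  unfold Atlas.norm
  calc (∑ a, sobolevNorm (n : ℝ) s p (D.localRep a ((F.scale ρ hρ y₀).push.vel t)) ^ (2 : ℝ)) ^ (1 / 2 : ℝ)
      ≤ (∑ _a : Fin D.N, ENNReal.ofReal ((∑ a, C a) * ρ ^ (1 - s + n / p)) ^ (2 : ℝ))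
          ^ (1 / 2 : ℝ) := by
        refine ENNReal.rpow_le_rpow (Finset.sum_le_sum fun a _ => ?_) (by norm_num)
        exact ENNReal.rpow_le_rpow (hb a) (by norm_num)
    _ = ENNReal.ofReal ((D.N : ℝ) ^ (1 / 2 : ℝ) * (∑ a, C a) * ρ ^ (1 - s + n / p)) := by
        rw [mul_assoc]
        generalize ((∑ a, C a) * ρ ^ (1 - s + n / p)) = X at hX
        rw [Finset.sum_const, Finset.card_univ, Fintype.card_fin, nsmul_eq_mul,
          ENNReal.mul_rpow_of_nonneg _ _ (by norm_num), ← ENNReal.rpow_mul]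
        have h2 : (2:ℝ) * (1 / 2) = 1 := by norm_num
        rw [h2, ENNReal.rpow_one, ENNReal.ofReal_mul (by positivity),
          ← ENNReal.ofReal_rpow_of_nonneg (Nat.cast_nonneg _) (by norm_num),
          ENNReal.ofReal_natCast]

/-- cost of a scaled perturbation -/
theorem cost_estimate (D : Atlas n) (hn : 1 ≤ n) {s p : ℝ} (hs : 0 ≤ s)
    (hp : 1 ≤ p) (F : VFam n) (h0 : F.f 0 = 1) :
    ∃ C : ℝ, 0 ≤ C ∧ ∀ (ρ : ℝ) (hρ : 0 < ρ) (y₀ : V n), ρ ≤ 1 → ‖y₀‖ ≤ 1 / 2 →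
      Cost D s p (pushPerm (scaleP ρ hρ.ne' y₀ (F.f 1)))
        (ENNReal.ofReal (C * ρ ^ (1 - s + n / p))) := by
  obtain ⟨C, hC, hest⟩ := norm_estimate D hn hs hp F
  refine ⟨C, hC, fun ρ hρ y₀ hρ1 hy₀ => ⟨(F.scale ρ hρ y₀).push, ?_, rfl, ?_⟩⟩
  · change pushPerm (scaleP ρ hρ.ne' y₀ (F.f 0)) = 1
    rw [h0]
    have : scaleP ρ hρ.ne' y₀ (1 : Equiv.Perm (V n)) = 1 := by
      ext y : 1
      rw [scaleP_apply]
      simp [smul_smul, hρ.ne']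
    rw [this, pushPerm_one]
  · calc ∫⁻ t in Icc (0:ℝ) 1, D.norm s p ((F.scale ρ hρ y₀).push.vel t)
        ≤ ∫⁻ _t in Icc (0:ℝ) 1, ENNReal.ofReal (C * ρ ^ (1 - s + n / p)) :=
          setLIntegral_mono' measurableSet_Icc (fun t ht => hest ρ hρ y₀ hρ1 hy₀ t ht)
      _ = ENNReal.ofReal (C * ρ ^ (1 - s + n / p)) := by simp

end Pool.Agent.H78.Diam
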