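import Pool.Agent.H78.Diam.Base

/-!
# Exponential charts of the round sphere

The exponential map of the unit sphere at `x`, precomposed with an isometric embedding `L` of
`ℝ^n` onto the orthogonal complement of `x`, is `v ↦ cos |v| x + (sin |v| / |v|) L v`.
-/

open scoped ContDiff Manifold ENNReal Topology
open MeasureTheory Set

namespace Pool.Agent.H78.Diam

variable {n : ℕ}

/-- The exponential map of the round unit sphere of `Y` at `x` in the coordinates given by the
isometric frame `L` of the tangent space: `v ↦ cos |v| x + (sin |v| / |v|) L v`. -/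
noncomputable def expMap {X Y : Type} [NormedAddCommGroup X] [NormedSpace ℝ X]
    [NormedAddCommGroup Y] [NormedSpace ℝ Y] (x : Y) (L : X →ₗᵢ[ℝ] Y) (v : X) : Y :=
  Real.cos ‖v‖ • x + Real.sinc ‖v‖ • L v

lemma inner_expMap_center {x : E n} (hx : ‖x‖ = 1) {L : V n →ₗᵢ[ℝ] E n}
    (hL : ∀ v, inner ℝ x (L v) = 0) (v : V n) : inner ℝ x (expMap x L v) = Real.cos ‖v‖ := by
  unfold expMap
  rw [inner_add_right, real_inner_smul_right, real_inner_smul_right, hL,
    real_inner_self_eq_norm_sq, hx]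
  simp

lemma inner_expMap_frame {x : E n} {L : V n →ₗᵢ[ℝ] E n}
    (hL : ∀ v, inner ℝ x (L v) = 0) (v w : V n) :
    inner ℝ (L w) (expMap x L v) = Real.sinc ‖v‖ * inner ℝ w v := by
  unfold expMap
  rw [inner_add_right, real_inner_smul_right, real_inner_smul_right, real_inner_comm, hL,
    L.inner_map_map]
  simp

lemma sinc_mul (r : ℝ) : Real.sinc r * r = Real.sin r := by
  by_cases h : r = 0
  · simp [h]
  · rw [Real.sinc_of_ne_zero h]; field_simp

lemma norm_expMap {x : E n} (hx : ‖x‖ = 1) {L : V n →ₗᵢ[ℝ] E n}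
    (hL : ∀ v, inner ℝ x (L v) = 0) (v : V n) : ‖expMap x L v‖ = 1 := by
  have h1 : ‖expMap x L v‖ ^ 2 = 1 := by
    unfold expMap
    rw [norm_add_sq_real, norm_smul, norm_smul, real_inner_smul_left, real_inner_smul_right, hL,
      L.norm_map, hx, mul_pow, mul_pow, Real.norm_eq_abs, Real.norm_eq_abs, sq_abs, sq_abs]
    have h2 := sinc_mul ‖v‖
    have h3 := Real.sin_sq_add_cos_sq ‖v‖
    rw [← h2] at h3
    linear_combination h3
  have h2 : 0 ≤ ‖expMap x L v‖ := norm_nonneg _
  nlinarith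

/-- the skew operator generating the geodesic -/
noncomputable def skew (x : E n) (L : V n →ₗᵢ[ℝ] E n) (v : V n) : E n →L[ℝ] E n :=
  (innerSL ℝ x).smulRight (L v) - (innerSL ℝ (L v)).smulRight x

lemma skew_apply (x : E n) (L : V n →ₗᵢ[ℝ] E n) (v : V n) (p : E n) :
    skew x L v p = inner ℝ x p • L v - inner ℝ (L v) p • x := rfl

lemma contDiff_skew (x : E n) (L : V n →ₗᵢ[ℝ] E n) : ContDiff ℝ ∞ (skew x L) := by
  unfold skew
  have h1 : ContDiff ℝ ∞ (fun v => L v) := L.toContinuousLinearMap.contDiff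
  have h2 : ContDiff ℝ ∞ (fun v => innerSL ℝ (L v)) := (innerSL ℝ).contDiff.comp h1
  exact (contDiff_const.smulRight h1).sub (h2.smulRight contDiff_const)

lemma expMap_eq_exp {x : E n} (hx : ‖x‖ = 1) {L : V n →ₗᵢ[ℝ] E n}
    (hL : ∀ v, inner ℝ x (L v) = 0) (v : V n) :
    expMap x L v = NormedSpace.exp (skew x L v) x := by
  by_cases hv : v = 0
  · subst hv
    have h1 : skew x L 0 = 0 := by
      ext1 p; rw [skew_apply]; simp
    rw [h1, NormedSpace.exp_zero]
    simp [expMap]
  set r := ‖v‖ with hr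
  have hr0 : 0 < r := norm_pos_iff.2 hv
  set y : ℝ → E n := fun t => Real.cos (t * r) • x + (Real.sin (t * r) / r) • L v with hy
  have hlin : ∀ t : ℝ, HasDerivAt (fun t : ℝ => t * r) r t := fun t => by
    simpa using (hasDerivAt_id t).mul_const r
  have hyd : ∀ t, HasDerivAt y (skew x L v (y t)) t := by
    intro t
    have h1 : HasDerivAt (fun t : ℝ => Real.cos (t * r)) (-Real.sin (t * r) * r) t :=
      (Real.hasDerivAt_cos _).comp t (hlin t)
    have h2 : HasDerivAt (fun t : ℝ => Real.sin (t * r) / r) (Real.cos (t * r) * r / r) t :=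
      ((Real.hasDerivAt_sin _).comp t (hlin t)).div_const r
    have h3 : HasDerivAt y ((-Real.sin (t * r) * r) • x
        + (Real.cos (t * r) * r / r) • L v) t :=
      (h1.smul_const x).add (h2.smul_const (L v))
    refine h3.congr_deriv ?_
    rw [skew_apply]
    simp only [hy]
    have hL' : inner ℝ (L v) x = 0 := by rw [real_inner_comm]; exact hL v
    rw [inner_add_right, inner_add_right, real_inner_smul_right, real_inner_smul_right,
      real_inner_smul_right, real_inner_smul_right, hL, hL',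
      real_inner_self_eq_norm_sq, real_inner_self_eq_norm_sq, hx, L.norm_map, ← hr]
    rw [sub_eq_add_neg, ← neg_smul, add_comm]
    congr 2
    · field_simp
      ring
    · field_simp
      ring
  have hzd : ∀ t : ℝ, HasDerivAt (fun t : ℝ => NormedSpace.exp (t • (-skew x L v)) (y t)) 0 t := by
    intro t
    have h1 := hasDerivAt_exp_smul_const (𝕂 := ℝ) (-skew x L v) t
    have h2 := h1.clm_apply (hyd t)
    refine h2.congr_deriv ?_
    simp
  have hconst := is_const_of_deriv_eq_zero (f := fun t : ℝ =>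
    NormedSpace.exp (t • (-skew x L v)) (y t)) (fun t => (hzd t).differentiableAt)
    (fun t => (hzd t).deriv) 1 0
  have e1 : (1 : ℝ) • (-skew x L v) = -skew x L v := by ext1 p; simp
  have e2 : (0 : ℝ) • (-skew x L v) = 0 := by ext1 p; simp
  rw [e1, e2, NormedSpace.exp_zero] at hconst
  have hy0 : y 0 = x := by simp [hy]
  have hy1 : y 1 = expMap x L v := by
    simp only [hy, one_mul, expMap]
    rw [Real.sinc_of_ne_zero hr0.ne', ← hr]
  rw [hy0, hy1] at hconst
  have hinv : NormedSpace.exp (skew x L v) * NormedSpace.exp (-skew x L v) = 1 := by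
    let _ : NormedAlgebra ℚ (E n →L[ℝ] E n) := NormedAlgebra.restrictScalars ℚ ℝ _
    have hc : Commute (skew x L v) (-skew x L v) := by
      change skew x L v * (-skew x L v) = (-skew x L v) * skew x L v
      ext1 p; simp
    rw [← NormedSpace.exp_add_of_commute hc, add_neg_cancel, NormedSpace.exp_zero]
  have h5 : NormedSpace.exp (skew x L v) (NormedSpace.exp (-skew x L v) (expMap x L v))
      = expMap x L v := by
    have := congrArg (fun A : E n →L[ℝ] E n => A (expMap x L v)) hinv
    simpa using this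
  rw [hconst] at h5
  simpa using h5.symm

lemma contDiff_expMap {x : E n} (hx : ‖x‖ = 1) {L : V n →ₗᵢ[ℝ] E n}
    (hL : ∀ v, inner ℝ x (L v) = 0) : ContDiff ℝ ∞ (expMap x L) := by
  have h1 : expMap x L = fun v => NormedSpace.exp (skew x L v) x :=
    funext fun v => expMap_eq_exp hx hL v
  rw [h1]
  have h2 : ContDiff ℝ ∞ (fun A : E n →L[ℝ] E n => NormedSpace.exp A) := by
    rw [contDiff_iff_contDiffAt]
    intro A
    exact (NormedSpace.exp_analytic (𝕂 := ℝ) A).contDiffAt
  exact (h2.comp (contDiff_skew x L)).clm_apply contDiff_const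

lemma sinc_pos {r : ℝ} (h0 : 0 ≤ r) (h1 : r < Real.pi) : 0 < Real.sinc r := by
  rcases eq_or_lt_of_le h0 with h | h
  · rw [← h]; simp
  · rw [Real.sinc_of_ne_zero h.ne']
    exact div_pos (Real.sin_pos_of_pos_of_lt_pi h h1) h

lemma expMap_injOn {x : E n} (hx : ‖x‖ = 1) {L : V n →ₗᵢ[ℝ] E n}
    (hL : ∀ v, inner ℝ x (L v) = 0) : InjOn (expMap x L) (Metric.ball 0 Real.pi) := by
  intro v hv w hw h
  rw [mem_ball_zero_iff] at hv hw
  have h1 : Real.cos ‖v‖ = Real.cos ‖w‖ := by
    rw [← inner_expMap_center hx hL, ← inner_expMap_center hx hL, h]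
  have h2 : ‖v‖ = ‖w‖ :=
    Real.injOn_cos ⟨norm_nonneg _, hv.le⟩ ⟨norm_nonneg _, hw.le⟩ h1
  have h3 : Real.sinc ‖v‖ • L v = Real.sinc ‖w‖ • L w := by
    unfold expMap at h
    rw [h1] at h
    exact add_left_cancel h
  rw [← h2] at h3
  have h4 := smul_right_injective (E n) (sinc_pos (norm_nonneg v) hv).ne' h3
  exact L.injective h4

lemma expMap_immersion {x : E n} (hx : ‖x‖ = 1) {L : V n →ₗᵢ[ℝ] E n}
    (hL : ∀ v, inner ℝ x (L v) = 0) {v : V n} (hv : v ∈ Metric.ball (0 : V n) Real.pi) :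
    Function.Injective (fderiv ℝ (expMap x L) v) := by
  rw [mem_ball_zero_iff] at hv
  rw [injective_iff_map_eq_zero]
  intro h hh
  have hd : HasFDerivAt (expMap x L) (fderiv ℝ (expMap x L) v) v :=
    ((contDiff_expMap hx hL).differentiable (by simp) v).hasFDerivAt
  have hline : HasDerivAt (fun t : ℝ => v + t • h) h 0 := by
    simpa using ((hasDerivAt_id (0:ℝ)).smul_const h).const_add v
  have hd0 : HasFDerivAt (expMap x L) (fderiv ℝ (expMap x L) v) (v + (0:ℝ) • h) := by
    simpa using hd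
  have hcurve : HasDerivAt (fun t : ℝ => expMap x L (v + t • h)) 0 0 := by
    have := hd0.comp_hasDerivAt 0 hline
    rw [hh] at this
    exact this
  by_cases hv0 : v = 0
  · subst hv0
    -- at the origin the curve is `cos (t|h|) x + sinc (t |h|) t L h`
    have h1 : HasDerivAt (fun t : ℝ => inner ℝ (L h) (expMap x L (0 + t • h))) 0 0 := by
      have := (hasDerivAt_const (0:ℝ) (L h)).inner ℝ hcurve
      simpa using this
    have h2 : (fun t : ℝ => inner ℝ (L h) (expMap x L (0 + t • h)))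
        = fun t : ℝ => Real.sinc (|t| * ‖h‖) * (t * ‖h‖ ^ 2) := by
      funext t
      rw [inner_expMap_frame hL, zero_add, norm_smul, real_inner_smul_right,
        real_inner_self_eq_norm_sq, Real.norm_eq_abs]
    rw [h2] at h1
    have h3 := h1.tendsto_slope_zero
    have h4 : Filter.Tendsto (fun t : ℝ => Real.sinc (|t| * ‖h‖) * ‖h‖ ^ 2) (𝓝[≠] 0)
        (𝓝 (Real.sinc (|0| * ‖h‖) * ‖h‖ ^ 2)) := by
      have : Continuous (fun t : ℝ => Real.sinc (|t| * ‖h‖) * ‖h‖ ^ 2) := by
        have := Real.continuous_sinc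
        fun_prop
      exact (this.tendsto 0).mono_left nhdsWithin_le_nhds
    have h5 : Filter.Tendsto (fun t : ℝ => Real.sinc (|t| * ‖h‖) * ‖h‖ ^ 2) (𝓝[≠] 0) (𝓝 0) := by
      refine h3.congr' ?_
      filter_upwards [self_mem_nhdsWithin] with t ht
      have ht' : t ≠ 0 := ht
      simp only [zero_add, abs_zero, zero_mul, smul_eq_mul, mul_zero, sub_zero]
      field_simp
    have h6 := tendsto_nhds_unique h4 h5
    simp only [abs_zero, zero_mul, Real.sinc_zero, one_mul] at h6
    exact norm_eq_zero.1 (pow_eq_zero_iff (by norm_num) |>.1 h6)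
  · have hr0 : 0 < ‖v‖ := norm_pos_iff.2 hv0
    have hsin : 0 < Real.sin ‖v‖ := Real.sin_pos_of_pos_of_lt_pi hr0 hv
    -- first: the norm is stationary
    have hnd : DifferentiableAt ℝ (fun w : V n => ‖w‖) v :=
      (contDiffAt_norm ℝ hv0 (n := 1)).differentiableAt (by simp)
    set N' := fderiv ℝ (fun w : V n => ‖w‖) v with hN'
    have hN0 : HasFDerivAt (fun w : V n => ‖w‖) N' (v + (0:ℝ) • h) := by
      simpa using hnd.hasFDerivAt
    have hNc : HasDerivAt (fun t : ℝ => ‖v + t • h‖) (N' h) 0 := hN0.comp_hasDerivAt 0 hline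
    have hNc' : HasDerivAt (fun t : ℝ => Real.cos ‖v + t • h‖) (-Real.sin ‖v‖ * N' h) 0 := by
      have h1 : HasDerivAt Real.cos (-Real.sin ‖v‖) ‖v + (0:ℝ) • h‖ := by
        simpa using Real.hasDerivAt_cos ‖v‖
      exact h1.comp (0:ℝ) hNc
    have h1 : HasDerivAt (fun t : ℝ => inner ℝ x (expMap x L (v + t • h))) 0 0 := by
      have := (hasDerivAt_const (0:ℝ) x).inner ℝ hcurve
      simpa using this
    simp_rw [inner_expMap_center hx hL] at h1
    have h2 : -Real.sin ‖v‖ * N' h = 0 := hNc'.unique h1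
    have h3 : N' h = 0 := by
      rcases mul_eq_zero.1 h2 with h | h
      · linarith
      · exact h
    rw [h3] at hNc
    -- second: the frame component
    have hs : DifferentiableAt ℝ Real.sinc ‖v‖ := by
      have h4 : DifferentiableAt ℝ (fun r : ℝ => Real.sin r / r) ‖v‖ :=
        Real.differentiableAt_sin.div differentiableAt_id hr0.ne'
      refine h4.congr_of_eventuallyEq ?_
      filter_upwards [isOpen_ne.mem_nhds hr0.ne'] with r hr
      exact Real.sinc_of_ne_zero hr
    have hsc : HasDerivAt (fun t : ℝ => Real.sinc ‖v + t • h‖) 0 0 := by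
      have h1 : HasDerivAt Real.sinc (deriv Real.sinc ‖v‖) ‖v + (0:ℝ) • h‖ := by
        simpa using hs.hasDerivAt
      have h2 : HasDerivAt (fun t : ℝ => Real.sinc ‖v + t • h‖) (deriv Real.sinc ‖v‖ * 0) 0 :=
        HasDerivAt.comp (0:ℝ) (h₂ := Real.sinc) (h := fun t : ℝ => ‖v + t • h‖) h1 hNc
      simpa using h2
    have h5 : HasDerivAt (fun t : ℝ => Real.sinc ‖v + t • h‖ * inner ℝ h (v + t • h))
        (Real.sinc ‖v‖ * ‖h‖ ^ 2) 0 := by
      have h6 : HasDerivAt (fun t : ℝ => inner ℝ h (v + t • h)) (‖h‖ ^ 2) 0 := by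
        have := (hasDerivAt_const (0:ℝ) h).inner ℝ hline
        simpa using this
      have h7 : HasDerivAt (fun t : ℝ => Real.sinc ‖v + t • h‖ * inner ℝ h (v + t • h))
          (0 * inner ℝ h (v + (0:ℝ) • h) + Real.sinc ‖v + (0:ℝ) • h‖ * ‖h‖ ^ 2) 0 := hsc.mul h6
      refine h7.congr_deriv ?_
      simp
    have h7 : HasDerivAt (fun t : ℝ => inner ℝ (L h) (expMap x L (v + t • h))) 0 0 := by
      have := (hasDerivAt_const (0:ℝ) (L h)).inner ℝ hcurve
      simpa using this
    simp_rw [inner_expMap_frame hL] at h7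
    have h8 := h5.unique h7
    have h9 := sinc_pos (norm_nonneg v) hv
    have h10 : ‖h‖ ^ 2 = 0 := by
      rcases mul_eq_zero.1 h8 with h | h
      · linarith
      · exact h
    exact norm_eq_zero.1 (pow_eq_zero_iff (by norm_num) |>.1 h10)

/-- The data entering the definition of the `W^{s,p}` norm of vector fields on the round sphere
`S^n`: a finite cover by geodesic balls `B_ε(x_a)`, `ε < π`, an orthonormal frame of the tangent
space at each centre `x_a` (an isometric embedding `frame a : ℝ^n → ℝ^{n+1}` with image orthogonal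
to `x_a`), and a smooth partition of unity subordinate to the cover. -/
structure GeodesicAtlas (n : ℕ) where
  /-- number of balls -/
  N : ℕ
  /-- radius of the balls -/
  ε : ℝ
  ε_pos : 0 < ε
  ε_lt : ε < Real.pi
  /-- centres of the balls -/
  center : Fin N → S n
  /-- frames at the centres -/
  frame : Fin N → V n →ₗᵢ[ℝ] E n
  frame_perp : ∀ a v, inner ℝ (center a : E n) (frame a v) = 0
  /-- the partition of unity -/
  ρ : Fin N → S n → ℝ
  smooth_ρ : ∀ a, ContMDiff (𝓡 n) 𝓘(ℝ, ℝ) ∞ (ρ a)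
  ρ_nonneg : ∀ a x, 0 ≤ ρ a x
  ρ_sum : ∀ x, ∑ a, ρ a x = 1
  ρ_supp : ∀ a, ∀ x ∈ tsupport (ρ a), ∃ v : V n, ‖v‖ < ε ∧ expMap (center a : E n) (frame a) v = x

/-- The atlas of exponential charts. -/
noncomputable def GeodesicAtlas.toAtlas (G : GeodesicAtlas n) : Atlas n where
  N := G.N
  e a v := ⟨expMap (G.center a : E n) (G.frame a) v, by
    rw [mem_sphere_zero_iff_norm]
    exact norm_expMap (by simp) (G.frame_perp a) v⟩
  U _ := Metric.ball 0 Real.pi
  K _ := Metric.closedBall 0 G.ε
  ρ := G.ρ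
  smooth_e a := contDiff_expMap (by simp) (G.frame_perp a)
  isOpen_U _ := Metric.isOpen_ball
  inj a v hv w hw h := expMap_injOn (by simp) (G.frame_perp a) hv hw (congrArg Subtype.val h)
  imm a v hv := expMap_immersion (by simp) (G.frame_perp a) hv
  isCompact_K _ := isCompact_closedBall _ _
  K_subset _ := Metric.closedBall_subset_ball G.ε_lt
  smooth_ρ := G.smooth_ρ
  ρ_nonneg := G.ρ_nonneg
  ρ_sum := G.ρ_sum
  ρ_supp a x hx := by
    obtain ⟨v, hv, hvx⟩ := G.ρ_supp a x hx
    exact ⟨v, by simpa using hv.le, Subtype.ext hvx⟩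

end Pool.Agent.H78.Diam
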