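import Pool.Agent.H78.Diam.Chart

open scoped ContDiff Manifold ENNReal Topology
open MeasureTheory Set

namespace Pool.Agent.H78.Diam

variable {n : ℕ}

/-- a smooth family of diffeomorphisms of the sphere, parametrised by the real line -/
structure Fam (n : ℕ) where
  /-- the maps -/
  f : ℝ → Equiv.Perm (S n)
  smf : SmS (fun t x => f t x)
  smg : SmS (fun t x => (f t).symm x)

/-- smooth permutation of the sphere -/
structure SmPerm (a : Equiv.Perm (S n)) : Prop where
  sm : SmS (fun (_ : ℝ) x => a x)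
  sm_symm : SmS (fun (_ : ℝ) x => a.symm x)

namespace Fam

/-- Eulerian velocity -/
noncomputable def vel (F : Fam n) (t : ℝ) (x : S n) : E n :=
  deriv (fun τ => (F.f τ ((F.f t).symm x) : E n)) t

lemma sm_vel (F : Fam n) : Sm F.vel := by
  have h1 : Sm (fun t x => deriv (fun τ => (F.f τ x : E n)) t) := Sm.deriv F.smf
  exact Sm.comp (f := fun t x => deriv (fun τ => (F.f τ x : E n)) t)
    (g := fun t x => (F.f t).symm x) h1 F.smg

lemma smF_of_sm {u : ℝ → S n → E n} (hu : Sm u) (t : ℝ) : SmF (u t) := by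
  intro x
  exact ContDiffAt.comp (x : E n) (g := fun q : ℝ × E n => u q.1 (nrm q.2))
    (f := fun p : E n => (t, p)) (hu t x) (contDiffAt_const.prodMk contDiffAt_id)

lemma smF_vel (F : Fam n) (t : ℝ) : SmF (F.vel t) := smF_of_sm F.sm_vel t

lemma hasDerivAt (F : Fam n) (t : ℝ) (x : S n) :
    HasDerivAt (fun τ => (F.f τ x : E n)) (F.vel t (F.f t x)) t := by
  have h1 : ContDiff ℝ ∞ (fun τ => (F.f τ x : E n)) := Sm.slice F.smf x
  have h2 := (h1.differentiable (by simp) t).hasDerivAt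
  have h3 : F.vel t (F.f t x) = deriv (fun τ => (F.f τ x : E n)) t := by
    unfold vel; simp
  rw [h3]; exact h2

lemma smPerm (F : Fam n) (t : ℝ) : SmPerm (F.f t) :=
  ⟨Sm.reparam (θ := fun _ : ℝ => t) F.smf contDiff_const,
    Sm.reparam (θ := fun _ : ℝ => t) F.smg contDiff_const⟩

/-- composition of families -/
def mul (F G : Fam n) : Fam n where
  f t := F.f t * G.f t
  smf := Sm.comp (f := fun t x => (F.f t x : E n)) (g := fun t x => G.f t x) F.smf G.smf
  smg := Sm.comp (f := fun t x => ((G.f t).symm x : E n)) (g := fun t x => (F.f t).symm x)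
    G.smg F.smg

/-- inverse family -/
def inv (F : Fam n) : Fam n where
  f t := (F.f t)⁻¹
  smf := F.smg
  smg := F.smf

/-- reparametrised family -/
def reparam (F : Fam n) (θ : ℝ → ℝ) (hθ : ContDiff ℝ ∞ θ) : Fam n where
  f t := F.f (θ t)
  smf := Sm.reparam F.smf hθ
  smg := Sm.reparam F.smg hθ

/-- constant family -/
def const (a : Equiv.Perm (S n)) (ha : SmPerm a) : Fam n where
  f _ := a
  smf := ha.sm
  smg := ha.sm_symm

end Fam

lemma SmPerm.mul {a b : Equiv.Perm (S n)} (ha : SmPerm a) (hb : SmPerm b) : SmPerm (a * b) :=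
  ((Fam.const a ha).mul (Fam.const b hb)).smPerm 0

lemma SmPerm.inv {a : Equiv.Perm (S n)} (ha : SmPerm a) : SmPerm a⁻¹ :=
  ((Fam.const a ha).inv).smPerm 0

lemma smPerm_one : SmPerm (1 : Equiv.Perm (S n)) :=
  ⟨fun _ _ => smAt_snd, fun _ _ => smAt_snd⟩

/-- conjugated family -/
def Fam.conj (F : Fam n) (a : Equiv.Perm (S n)) (ha : SmPerm a) : Fam n :=
  ((Fam.const a ha).mul F).mul (Fam.const a⁻¹ ha.inv)

/-- `a` is reached from the identity by a path of length at most `c` -/
def Cost (D : Atlas n) (s p : ℝ) (a : Equiv.Perm (S n)) (c : ℝ≥0∞) : Prop :=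
  ∃ F : Fam n, F.f 0 = 1 ∧ F.f 1 = a ∧ ∫⁻ t in Icc (0:ℝ) 1, D.norm s p (F.vel t) ≤ c

lemma Cost.mono {D : Atlas n} {s p : ℝ} {a : Equiv.Perm (S n)} {c c' : ℝ≥0∞}
    (h : Cost D s p a c) (hc : c ≤ c') : Cost D s p a c' := by
  obtain ⟨F, h0, h1, h2⟩ := h
  exact ⟨F, h0, h1, h2.trans hc⟩

lemma lintegral_reparam_le {f : ℝ → ℝ} (hf : Differentiable ℝ f) (hm : Monotone f)
    (h01 : ∀ t, f t ∈ Icc (0:ℝ) 1) (g : ℝ → ℝ≥0∞) (J : Set ℝ) :
    ∫⁻ t in J, ENNReal.ofReal |deriv f t| * g (f t) ≤ ∫⁻ t in Icc (0:ℝ) 1, g t := by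
  set s : Set ℝ := {t | deriv f t ≠ 0} with hs
  have hsm : MeasurableSet s := by
    have : MeasurableSet {t | deriv f t = 0} := measurableSet_eq_fun (measurable_deriv f) measurable_const
    exact this.compl
  have hinj : InjOn f s := by
    intro a ha b hb hab
    by_contra hne
    wlog hlt : a < b generalizing a b
    · exact this hb ha hab.symm (Ne.symm hne) (lt_of_le_of_ne (not_lt.1 hlt) (Ne.symm hne))
    have hconst : ∀ t ∈ Icc a b, f t = f a := fun t ht =>
      le_antisymm ((hm ht.2).trans hab.ge) (hm ht.1)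
    have h1 : HasDerivWithinAt f (deriv f a) (Icc a b) a := (hf a).hasDerivAt.hasDerivWithinAt
    have h2 : HasDerivWithinAt f 0 (Icc a b) a := by
      refine (hasDerivWithinAt_const a (Icc a b) (f a)).congr (fun t ht => hconst t ht) rfl
    have h3 := (uniqueDiffOn_Icc hlt a (left_mem_Icc.2 hlt.le)).eq_deriv (Icc a b) h1 h2
    exact ha h3
  have key := lintegral_image_eq_lintegral_abs_deriv_mul hsm
    (fun x _ => (hf x).hasDerivAt.hasDerivWithinAt) hinj g
  calc ∫⁻ t in J, ENNReal.ofReal |deriv f t| * g (f t)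
      ≤ ∫⁻ t, ENNReal.ofReal |deriv f t| * g (f t) := setLIntegral_le_lintegral _ _
    _ = ∫⁻ t in s, ENNReal.ofReal |deriv f t| * g (f t) := by
        rw [← lintegral_indicator hsm]
        refine lintegral_congr fun t => ?_
        by_cases ht : t ∈ s
        · rw [indicator_of_mem ht]
        · rw [indicator_of_notMem ht]
          have : deriv f t = 0 := by
            by_contra h; exact ht h
          simp [this]
    _ = ∫⁻ t in f '' s, g t := key.symm
    _ ≤ ∫⁻ t in Icc (0:ℝ) 1, g t := by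
        refine lintegral_mono_set ?_
        rintro _ ⟨t, _, rfl⟩
        exact h01 t

/-- smooth step -/
noncomputable abbrev st : ℝ → ℝ := Real.smoothTransition

lemma st_contDiff : ContDiff ℝ ∞ st := Real.smoothTransition.contDiff

lemma st_mem (t : ℝ) : st t ∈ Icc (0:ℝ) 1 :=
  ⟨Real.smoothTransition.nonneg t, Real.smoothTransition.le_one t⟩

lemma st_of_nonpos {t : ℝ} (h : t ≤ 0) : st t = 0 := Real.smoothTransition.zero_of_nonpos h
lemma st_of_one_le {t : ℝ} (h : 1 ≤ t) : st t = 1 := Real.smoothTransition.one_of_one_le h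

lemma Cost.mul {D : Atlas n} {s p : ℝ} (hp : 1 ≤ p) {a b : Equiv.Perm (S n)} {c₁ c₂ : ℝ≥0∞}
    (ha : Cost D s p a c₁) (hb : Cost D s p b c₂) : Cost D s p (a * b) (c₁ + c₂) := by
  obtain ⟨F, F0, F1, hF⟩ := ha
  obtain ⟨G, G0, G1, hG⟩ := hb
  set f₁ : ℝ → ℝ := fun t => st (2 * t) with hf₁
  set f₂ : ℝ → ℝ := fun t => st (2 * t - 1) with hf₂
  have hc₁ : ContDiff ℝ ∞ f₁ := st_contDiff.comp (contDiff_const.mul contDiff_id)
  have hc₂ : ContDiff ℝ ∞ f₂ := st_contDiff.comp ((contDiff_const.mul contDiff_id).sub contDiff_const)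
  have hm₁ : Monotone f₁ := fun x y h => Real.smoothTransition.monotone (by linarith)
  have hm₂ : Monotone f₂ := fun x y h => Real.smoothTransition.monotone (by linarith)
  set H : Fam n := (F.reparam f₂ hc₂).mul (G.reparam f₁ hc₁) with hH
  refine ⟨H, ?_, ?_, ?_⟩
  · change F.f (f₂ 0) * G.f (f₁ 0) = 1
    have e1 : f₂ 0 = 0 := st_of_nonpos (by norm_num)
    have e2 : f₁ 0 = 0 := st_of_nonpos (by norm_num)
    rw [e1, e2, F0, G0, mul_one]
  · change F.f (f₂ 1) * G.f (f₁ 1) = a * b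
    have e1 : f₂ 1 = 1 := st_of_one_le (by norm_num)
    have e2 : f₁ 1 = 1 := st_of_one_le (by norm_num)
    rw [e1, e2, F1, G1]
  · have hvel1 : ∀ t ∈ Iio (1/2 : ℝ), D.norm s p (H.vel t)
        = ENNReal.ofReal |deriv f₁ t| * D.norm s p (G.vel (f₁ t)) := by
      intro t ht
      have ht' : t < 1/2 := ht
      have hv : H.vel t = fun x => deriv f₁ t • G.vel (f₁ t) x := by
        funext x
        have hev : (fun τ => (H.f τ ((H.f t).symm x) : E n))
            =ᶠ[𝓝 t] fun τ => (G.f (f₁ τ) ((G.f (f₁ t)).symm x) : E n) := by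
          filter_upwards [Iio_mem_nhds ht'] with τ hτ
          have hτ' : τ < 1/2 := hτ
          have e1 : f₂ τ = 0 := st_of_nonpos (by linarith)
          have e2 : f₂ t = 0 := st_of_nonpos (by linarith)
          change ((F.f (f₂ τ) * G.f (f₁ τ)) ((F.f (f₂ t) * G.f (f₁ t)).symm x) : E n) = _
          rw [e1, e2, F0, one_mul, one_mul]
        change deriv (fun τ => (H.f τ ((H.f t).symm x) : E n)) t = _
        rw [hev.deriv_eq]
        have hd := G.hasDerivAt (f₁ t) ((G.f (f₁ t)).symm x)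
        rw [Equiv.apply_symm_apply] at hd
        have hd1 : HasDerivAt f₁ (deriv f₁ t) t := (hc₁.differentiable (by simp) t).hasDerivAt
        exact (hd.scomp t hd1).deriv
      rw [hv, D.norm_smul hp _ (G.smF_vel _), ← Real.norm_eq_abs, ofReal_norm]
    have hvel2 : ∀ t ∈ Ioi (1/2 : ℝ), D.norm s p (H.vel t)
        = ENNReal.ofReal |deriv f₂ t| * D.norm s p (F.vel (f₂ t)) := by
      intro t ht
      have ht' : 1/2 < t := ht
      have hv : H.vel t = fun x => deriv f₂ t • F.vel (f₂ t) x := by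
        funext x
        have hev : (fun τ => (H.f τ ((H.f t).symm x) : E n))
            =ᶠ[𝓝 t] fun τ => (F.f (f₂ τ) ((F.f (f₂ t)).symm x) : E n) := by
          filter_upwards [Ioi_mem_nhds ht'] with τ hτ
          have hτ' : 1/2 < τ := hτ
          have e1 : f₁ τ = 1 := st_of_one_le (by linarith)
          have e2 : f₁ t = 1 := st_of_one_le (by linarith)
          change ((F.f (f₂ τ) * G.f (f₁ τ)) ((F.f (f₂ t) * G.f (f₁ t)).symm x) : E n) = _
          have e3 : (F.f (f₂ τ) * G.f 1) ((F.f (f₂ t) * G.f 1).symm x)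
              = F.f (f₂ τ) ((F.f (f₂ t)).symm x) := by
            change F.f (f₂ τ) (G.f 1 ((G.f 1).symm ((F.f (f₂ t)).symm x))) = _
            rw [Equiv.apply_symm_apply]
          rw [e1, e2, e3]
        change deriv (fun τ => (H.f τ ((H.f t).symm x) : E n)) t = _
        rw [hev.deriv_eq]
        have hd := F.hasDerivAt (f₂ t) ((F.f (f₂ t)).symm x)
        rw [Equiv.apply_symm_apply] at hd
        have hd1 : HasDerivAt f₂ (deriv f₂ t) t := (hc₂.differentiable (by simp) t).hasDerivAt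
        exact (hd.scomp t hd1).deriv
      rw [hv, D.norm_smul hp _ (F.smF_vel _), ← Real.norm_eq_abs, ofReal_norm]
    have hsub : Icc (0:ℝ) 1 ⊆ (Ioi (1/2 : ℝ) ∪ Iio (1/2 : ℝ)) ∪ {1/2} := by
      intro t _
      rcases lt_trichotomy t (1/2) with h | h | h
      · exact Or.inl (Or.inr h)
      · exact Or.inr h
      · exact Or.inl (Or.inl h)
    calc ∫⁻ t in Icc (0:ℝ) 1, D.norm s p (H.vel t)
        ≤ ∫⁻ t in (Ioi (1/2 : ℝ) ∪ Iio (1/2 : ℝ)) ∪ {1/2}, D.norm s p (H.vel t) :=
          lintegral_mono_set hsub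
      _ ≤ (∫⁻ t in Ioi (1/2 : ℝ) ∪ Iio (1/2 : ℝ), D.norm s p (H.vel t))
            + ∫⁻ t in {(1/2 : ℝ)}, D.norm s p (H.vel t) := lintegral_union_le _ _ _
      _ = ∫⁻ t in Ioi (1/2 : ℝ) ∪ Iio (1/2 : ℝ), D.norm s p (H.vel t) := by
          have h0 : ∫⁻ t in {(1/2 : ℝ)}, D.norm s p (H.vel t) = 0 :=
            setLIntegral_measure_zero _ _ (by simp)
          rw [h0, add_zero]
      _ ≤ (∫⁻ t in Ioi (1/2 : ℝ), D.norm s p (H.vel t))
            + ∫⁻ t in Iio (1/2 : ℝ), D.norm s p (H.vel t) := lintegral_union_le _ _ _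
      _ ≤ c₁ + c₂ := by
          refine add_le_add ?_ ?_
          · rw [setLIntegral_congr_fun measurableSet_Ioi hvel2]
            exact (lintegral_reparam_le (hc₂.differentiable (by simp)) hm₂ (fun t => st_mem _)
              (fun τ => D.norm s p (F.vel τ)) _).trans hF
          · rw [setLIntegral_congr_fun measurableSet_Iio hvel1]
            exact (lintegral_reparam_le (hc₁.differentiable (by simp)) hm₁ (fun t => st_mem _)
              (fun τ => D.norm s p (G.vel τ)) _).trans hG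

lemma Cost.inv {D : Atlas n} {s p : ℝ} (hp : 1 ≤ p) {a : Equiv.Perm (S n)} {c : ℝ≥0∞}
    (ha : Cost D s p a c) : Cost D s p a⁻¹ c := by
  obtain ⟨F, F0, F1, hF⟩ := ha
  have hsm : SmPerm a := F1 ▸ F.smPerm 1
  set r : ℝ → ℝ := fun t => 1 - t with hr
  have hrc : ContDiff ℝ ∞ r := contDiff_const.sub contDiff_id
  set H : Fam n := (F.reparam r hrc).mul (Fam.const a⁻¹ hsm.inv) with hH
  refine ⟨H, ?_, ?_, ?_⟩
  · change F.f (r 0) * a⁻¹ = 1
    simp [hr, F1]
  · change F.f (r 1) * a⁻¹ = a⁻¹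
    simp [hr, F0]
  · have hvel : ∀ t, D.norm s p (H.vel t) = D.norm s p (F.vel (1 - t)) := by
      intro t
      have hv : H.vel t = fun x => (-1 : ℝ) • F.vel (1 - t) x := by
        funext x
        have hev : (fun τ => (H.f τ ((H.f t).symm x) : E n))
            = fun τ => (F.f (r τ) ((F.f (r t)).symm x) : E n) := by
          funext τ
          have e3 : (F.f (r τ) * a⁻¹) ((F.f (r t) * a⁻¹).symm x)
              = F.f (r τ) ((F.f (r t)).symm x) := by
            change F.f (r τ) (a.symm (a ((F.f (r t)).symm x))) = _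
            rw [Equiv.symm_apply_apply]
          change ((F.f (r τ) * a⁻¹) ((F.f (r t) * a⁻¹).symm x) : E n) = _
          rw [e3]
        change deriv (fun τ => (H.f τ ((H.f t).symm x) : E n)) t = _
        rw [hev]
        have hd := F.hasDerivAt (r t) ((F.f (r t)).symm x)
        rw [Equiv.apply_symm_apply] at hd
        have hd1 : HasDerivAt r (-1) t := by
          simpa using (hasDerivAt_id t).const_sub 1
        exact (hd.scomp t hd1).deriv
      rw [hv, D.norm_smul hp _ (F.smF_vel _)]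
      simp
    simp_rw [hvel]
    have h1 : ∫⁻ t in Icc (0:ℝ) 1, D.norm s p (F.vel (1 - t))
        = ∫⁻ t, (Icc (0:ℝ) 1).indicator (fun τ => D.norm s p (F.vel τ)) (1 - t) := by
      rw [← lintegral_indicator measurableSet_Icc]
      refine lintegral_congr fun t => ?_
      by_cases ht : t ∈ Icc (0:ℝ) 1
      · have ht' : 1 - t ∈ Icc (0:ℝ) 1 := ⟨by linarith [ht.2], by linarith [ht.1]⟩
        rw [indicator_of_mem ht, indicator_of_mem ht']
      · have ht' : 1 - t ∉ Icc (0:ℝ) 1 := fun h => ht ⟨by linarith [h.2], by linarith [h.1]⟩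
        rw [indicator_of_notMem ht, indicator_of_notMem ht']
    rw [h1, lintegral_sub_left_eq_self
      ((Icc (0:ℝ) 1).indicator (fun τ => D.norm s p (F.vel τ))) 1,
      lintegral_indicator measurableSet_Icc]
    exact hF

lemma Cost.conj {D : Atlas n} {s p : ℝ} (hp : 1 ≤ p) {a k : Equiv.Perm (S n)} {c₁ c₂ : ℝ≥0∞}
    (hk : Cost D s p k c₁) (ha : Cost D s p a c₂) : Cost D s p (k * a * k⁻¹) (c₁ + c₂ + c₁) :=
  (hk.mul hp ha).mul hp (hk.inv hp)

lemma Cost.one {D : Atlas n} {s p : ℝ} (hp : 1 ≤ p) : Cost D s p (1 : Equiv.Perm (S n)) 0 := by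
  refine ⟨Fam.const 1 smPerm_one, rfl, rfl, ?_⟩
  have : ∀ t, (Fam.const (1 : Equiv.Perm (S n)) smPerm_one).vel t = fun _ => 0 := by
    intro t; funext x
    change deriv (fun _ : ℝ => (((1 : Equiv.Perm (S n)) ((1 : Equiv.Perm (S n)).symm x) : S n) : E n)) t = 0
    simp
  simp_rw [this, D.norm_zero hp]
  simp

end Pool.Agent.H78.Diam
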