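import Pool.Agent.H78.Diam.Supp

open scoped ContDiff Manifold ENNReal Topology
open MeasureTheory Set

namespace Pool.Agent.H78.Diam

variable {n : ℕ}

/-- a family of maps which is the identity at a parameter value is uniformly bi-Lipschitz for nearby
parameters -/
lemma eventually_antilip {Z : Type*} [NormedAddCommGroup Z] [NormedSpace ℝ Z]
    {H : Z → S n → S n} (hH : SmS H) {z₀ : Z} (h0 : ∀ x, H z₀ x = x) :
    ∀ᶠ z in 𝓝 z₀, ∀ x y : S n, 1 / 2 * ‖(x : E n) - y‖ ≤ ‖(H z x : E n) - H z y‖ := by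
  have key : ∀ᶠ z in 𝓝 z₀, ∀ q ∈ (univ : Set (S n × S n)),
      1 / 2 * ‖(q.1 : E n) - q.2‖ ≤ ‖(H z q.1 : E n) - H z q.2‖ := by
    refine IsCompact.eventually_forall_of_forall_eventually isCompact_univ ?_
    rintro ⟨x, y⟩ _
    by_cases hxy : x = y
    · subst hxy
      have hs : HasStrictFDerivAt (hext H) (fderiv ℝ (hext H) (z₀, (x : E n))) (z₀, (x : E n)) :=
        (contDiffAt_hext hH z₀ (coe_ne_zero x)).hasStrictFDerivAt (by simp)
      have hid : ∀ v : E n, fderiv ℝ (hext H) (z₀, (x : E n)) (0, v) = v := by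
        intro v
        have h1 := hs.hasFDerivAt.comp (x : E n) (hasFDerivAt_prodMk_right z₀ (x : E n))
        have h2 : (hext H) ∘ (fun p : E n => (z₀, p)) = id := by
          funext p
          simp only [Function.comp, hext, h0, norm_smul_nrm, id]
        rw [h2] at h1
        have h3 := h1.unique (hasFDerivAt_id (x : E n))
        have h4 := congrArg (fun A : E n →L[ℝ] E n => A v) h3
        simpa using h4
      have hb := hs.isLittleO.bound (by norm_num : (0:ℝ) < 1 / 2)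
      have htend : Filter.Tendsto (fun w : Z × (S n × S n) =>
          (((w.1, (w.2.1 : E n)) : Z × E n), ((w.1, (w.2.2 : E n)) : Z × E n)))
          (𝓝 (z₀, (x, x))) (𝓝 ((z₀, (x : E n)), (z₀, (x : E n)))) := by
        have : ContinuousAt (fun w : Z × (S n × S n) =>
          (((w.1, (w.2.1 : E n)) : Z × E n), ((w.1, (w.2.2 : E n)) : Z × E n))) (z₀, (x, x)) := by
          fun_prop
        exact this
      filter_upwards [htend.eventually hb] with w hw
      simp only [hext_coe, Prod.mk_sub_mk, sub_self, hid] at hw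
      have h5 : ‖((0 : Z), (w.2.1 : E n) - (w.2.2 : E n))‖ = ‖(w.2.1 : E n) - (w.2.2 : E n)‖ := by
        rw [Prod.norm_def]; simp
      rw [h5] at hw
      have h6 : ‖(w.2.1 : E n) - w.2.2‖ ≤ ‖(H w.1 w.2.1 : E n) - H w.1 w.2.2‖
          + ‖(H w.1 w.2.1 : E n) - H w.1 w.2.2 - ((w.2.1 : E n) - w.2.2)‖ := by
        have := norm_sub_le ((H w.1 w.2.1 : E n) - H w.1 w.2.2)
          ((H w.1 w.2.1 : E n) - H w.1 w.2.2 - ((w.2.1 : E n) - w.2.2))
        simpa using this
      linarith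
    · have hpos : 0 < ‖(x : E n) - y‖ :=
        norm_pos_iff.2 (sub_ne_zero.2 (fun h => hxy (Subtype.ext h)))
      have hc1 : ContinuousAt (fun w : Z × (S n × S n) => 1 / 2 * ‖(w.2.1 : E n) - w.2.2‖)
          (z₀, (x, y)) := by fun_prop
      have hc2 : ContinuousAt (fun w : Z × (S n × S n) =>
          ‖(H w.1 w.2.1 : E n) - H w.1 w.2.2‖) (z₀, (x, y)) := by
        have h1 : Continuous (fun q : Z × S n => (H q.1 q.2 : E n)) := Sm.continuous hH
        have h2 : Continuous (fun w : Z × (S n × S n) => (H w.1 w.2.1 : E n)) :=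
          h1.comp (continuous_fst.prodMk (continuous_fst.comp continuous_snd))
        have h3 : Continuous (fun w : Z × (S n × S n) => (H w.1 w.2.2 : E n)) :=
          h1.comp (continuous_fst.prodMk (continuous_snd.comp continuous_snd))
        exact (h2.sub h3).norm.continuousAt
      have hlt : 1 / 2 * ‖(x : E n) - y‖ < ‖(H z₀ x : E n) - H z₀ y‖ := by
        rw [h0, h0]; linarith
      filter_upwards [hc1.eventually_lt hc2 hlt] with w hw
      exact hw.le
  filter_upwards [key] with z hz x y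
  exact hz (x, y) (mem_univ _)

/-- family from uniformly bi-Lipschitz maps -/
lemma exists_fam (hn : 1 ≤ n) {f : ℝ → S n → S n} (hf : SmS f)
    (h : ∀ t, ∀ x y : S n, 1 / 2 * ‖(x : E n) - y‖ ≤ ‖(f t x : E n) - f t y‖) :
    ∃ F : Fam n, ∀ t x, F.f t x = f t x := by
  have hb : ∀ t, Function.Bijective (f t) := fun t =>
    bijective_of_antilipschitz hn hf (by norm_num : (0:ℝ) < 1 / 2) (h t)
  refine ⟨{ f := fun t => Equiv.ofBijective (f t) (hb t), smf := hf, smg := ?_ }, fun t x => rfl⟩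
  refine SmS.symm (f := fun t => Equiv.ofBijective (f t) (hb t)) hf ?_
  intro t x v hv
  exact fderiv_hext_inj_of_antilipschitz hf (by norm_num : (0:ℝ) < 1 / 2) (h t) x v hv

/-- decomposability -/
def Dec (q x₀ : S n) (a : Equiv.Perm (S n)) : Prop :=
  ∃ ψ χ : Equiv.Perm (S n), Gq q ψ ∧ Gq x₀ χ ∧ a = ψ * χ

lemma frag_local (hn : 1 ≤ n) (F : Fam n) (q x₀ : S n) (t₀ : ℝ) (hne : F.f t₀ x₀ ≠ q) :
    ∃ δ : ℝ, 0 < δ ∧ ∀ a u, |a - t₀| < δ → |u| < δ → Dec q x₀ (F.f a) →
      Dec q x₀ (F.f (a + u)) := by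
  set c₀ : S n := F.f t₀ x₀ with hc₀
  set r : ℝ := ‖(q : E n) - c₀‖ with hr
  have hr0 : 0 < r := norm_pos_iff.2 (sub_ne_zero.2 (fun h => hne (Subtype.ext h.symm)))
  -- the cut-off in time
  set η : E n → ℝ := fun x => st (2 - 4 * ‖x - c₀‖ ^ 2 / r ^ 2) with hη
  have hηs : ContDiff ℝ ∞ η := by
    have h1 : ContDiff ℝ ∞ (fun x : E n => ‖x - c₀‖ ^ 2) :=
      (contDiff_norm_sq ℝ).comp (contDiff_id.sub contDiff_const)
    exact st_contDiff.comp (contDiff_const.sub ((contDiff_const.mul h1).div_const _))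
  have hη1 : ∀ x : E n, ‖x - c₀‖ < r / 2 → η x = 1 := by
    intro x hx
    refine st_of_one_le ?_
    have h1 : 4 * ‖x - c₀‖ ^ 2 / r ^ 2 ≤ 1 := by
      rw [div_le_one (by positivity)]
      nlinarith [norm_nonneg (x - (c₀ : E n))]
    linarith
  have hη0 : ∀ x : E n, r ^ 2 / 2 < ‖x - c₀‖ ^ 2 → η x = 0 := by
    intro x hx
    refine st_of_nonpos ?_
    have h1 : 2 ≤ 4 * ‖x - c₀‖ ^ 2 / r ^ 2 := by
      rw [le_div_iff₀ (by positivity)]
      linarith
    linarith
  set H : ℝ × ℝ → S n → S n := fun z x => F.f (z.1 + η x * z.2) ((F.f z.1).symm x) with hH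
  have hHs : SmS H := by
    have h1 : Sm (fun (z : ℝ × ℝ) (x : S n) => z.1 + η (x : E n) * z.2) := by
      intro z x
      refine SmAt.of_contDiffAt (Φ := fun q : (ℝ × ℝ) × E n => q.1.1 + η q.2 * q.1.2) ?_
      refine ContDiff.contDiffAt ?_
      exact (contDiff_fst.comp contDiff_fst).add
        ((hηs.comp contDiff_snd).mul (contDiff_snd.comp contDiff_fst))
    have h2 : SmS (fun (z : ℝ × ℝ) (x : S n) => (F.f z.1).symm x) :=
      Sm.reparam (θ := fun z : ℝ × ℝ => z.1) F.smg contDiff_fst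
    exact Sm.comp₂ (f := fun t x => (F.f t x : E n))
      (θ := fun (z : ℝ × ℝ) (x : S n) => z.1 + η (x : E n) * z.2)
      (g := fun (z : ℝ × ℝ) (x : S n) => (F.f z.1).symm x) F.smf h1 h2
  have hH0 : ∀ a x, H (a, 0) x = x := by
    intro a x
    simp [hH]
  have hev := eventually_antilip hHs (z₀ := (t₀, 0)) (hH0 t₀)
  obtain ⟨δ₁, hδ₁, hball⟩ := Metric.eventually_nhds_iff.1 hev
  have hcont : ContinuousAt (fun a => (F.f a x₀ : E n)) t₀ :=
    (F.hasDerivAt t₀ x₀).continuousAt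
  obtain ⟨δ₂, hδ₂, hball₂⟩ := Metric.continuousAt_iff.1 hcont (r / 2) (by positivity)
  refine ⟨min δ₁ δ₂, lt_min hδ₁ hδ₂, fun a u ha hu hdec => ?_⟩
  obtain ⟨ψ, χ, hψ, hχ, hψχ⟩ := hdec
  have hanti : ∀ v : ℝ, ∀ x y : S n,
      1 / 2 * ‖(x : E n) - y‖ ≤ ‖(H (a, st v * u) x : E n) - H (a, st v * u) y‖ := by
    intro v
    refine hball ?_
    rw [Prod.dist_eq, max_lt_iff]
    constructor
    · rw [Real.dist_eq]; exact ha.trans_le (min_le_left _ _)
    · simp only [dist_zero_right, Real.norm_eq_abs, abs_mul]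
      have h1 := st_mem v
      have h2 : |st v| ≤ 1 := by rw [abs_of_nonneg h1.1]; exact h1.2
      have h3 : |st v| * |u| ≤ 1 * |u| := mul_le_mul_of_nonneg_right h2 (abs_nonneg _)
      have h4 : |u| < δ₁ := hu.trans_le (min_le_left _ _)
      linarith
  have hgs : SmS (fun (v : ℝ) x => H (a, st v * u) x) :=
    Sm.reparam (f := fun z x => (H z x : E n)) (θ := fun v : ℝ => (a, st v * u)) hHs
      (contDiff_const.prodMk (st_contDiff.mul contDiff_const))
  obtain ⟨G', hG'⟩ := exists_fam hn hgs hanti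
  -- the uncut family
  have haff : ContDiff ℝ ∞ (fun v : ℝ => a + st v * u) :=
    contDiff_const.add (st_contDiff.mul contDiff_const)
  set G : Fam n := (F.reparam (fun v => a + st v * u) haff).mul
    (Fam.const (F.f a)⁻¹ (F.smPerm a).inv) with hG
  have hGf : ∀ v x, G.f v x = F.f (a + st v * u) ((F.f a).symm x) := fun v x => rfl
  have hG'0 : G'.f 0 = 1 := by
    ext x : 1
    rw [hG', st_of_nonpos le_rfl, zero_mul, hH0]; rfl
  have hG0 : G.f 0 = 1 := by
    ext x : 1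
    rw [hGf, st_of_nonpos le_rfl, zero_mul, add_zero]; simp
  have hG'q : Gq q (G'.f 1) := by
    refine ⟨G', hG'0, rfl, {x | r ^ 2 / 2 < ‖(x : E n) - c₀‖ ^ 2}, ?_, fun v x hx => ?_⟩
    · have hc : ContinuousAt (fun x : S n => ‖(x : E n) - c₀‖ ^ 2) q := by fun_prop
      exact hc.eventually_const_lt (by
        change r ^ 2 / 2 < ‖(q : E n) - c₀‖ ^ 2
        rw [← hr]; nlinarith)
    · rw [hG']
      simp [hH, hη0 x hx]
  set k : Fam n := G'.inv.mul G with hk
  have hkf : ∀ v x, k.f v x = (G'.f v).symm (G.f v x) := fun v x => rfl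
  set ca : S n := F.f a x₀ with hca
  have hkq : Gq ca (k.f 1) := by
    refine ⟨k, ?_, rfl, {x | ‖(x : E n) - c₀‖ < r / 2}, ?_, fun v x hx => ?_⟩
    · change (G'.f 0)⁻¹ * G.f 0 = 1
      rw [hG'0, hG0]; simp
    · have hc : ContinuousAt (fun x : S n => ‖(x : E n) - c₀‖) ca := by fun_prop
      refine hc.eventually_lt_const ?_
      have h1 := hball₂ (x := a) (by rw [Real.dist_eq]; exact ha.trans_le (min_le_right _ _))
      rw [dist_eq_norm] at h1
      exact h1
    · rw [hkf, Equiv.symm_apply_eq, hG', hGf]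
      simp [hH, hη1 x hx]
  -- conclusion
  have hψx₀ : ψ⁻¹ ca = x₀ := by
    change ψ.symm ca = x₀
    rw [Equiv.symm_apply_eq, hca, hψχ, Equiv.Perm.mul_apply, hχ.apply]
  have hconj := hkq.conj hψ.smPerm.inv
  rw [hψx₀] at hconj
  refine ⟨G'.f 1 * ψ, (ψ⁻¹ * k.f 1 * (ψ⁻¹)⁻¹) * χ, hG'q.mul hψ, hconj.mul hχ, ?_⟩
  have h1 : F.f (a + u) = G.f 1 * F.f a := by
    ext x : 1
    rw [Equiv.Perm.mul_apply, hGf, st_of_one_le le_rfl, one_mul, Equiv.symm_apply_apply]
  have h2 : G.f 1 = G'.f 1 * k.f 1 := by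
    change G.f 1 = G'.f 1 * ((G'.f 1)⁻¹ * G.f 1)
    group
  rw [h1, h2, hψχ]
  group

theorem frag (hn : 1 ≤ n) (F : Fam n) (h0 : F.f 0 = 1) (q x₀ : S n)
    (hne : ∀ t ∈ Icc (0:ℝ) 1, F.f t x₀ ≠ q) : Dec q x₀ (F.f 1) := by
  have key : (Dec q x₀ (F.f 0) ↔ Dec q x₀ (F.f 1)) := by
    refine IsPreconnected.induction₂ (s := Icc (0:ℝ) 1) isPreconnected_Icc
      (fun a b => (Dec q x₀ (F.f a) ↔ Dec q x₀ (F.f b))) ?_ ?_ ?_
      (left_mem_Icc.2 zero_le_one) (right_mem_Icc.2 zero_le_one)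
    · intro t ht
      obtain ⟨δ, hδ, h⟩ := frag_local hn F q x₀ t (hne t ht)
      refine mem_nhdsWithin_of_mem_nhds ?_
      filter_upwards [Metric.ball_mem_nhds t hδ] with b hb
      rw [Metric.mem_ball, Real.dist_eq] at hb
      constructor
      · intro h1
        have := h t (b - t) (by simpa using hδ) hb h1
        simpa using this
      · intro h1
        have := h b (t - b) hb (by rw [abs_sub_comm]; exact hb) h1
        simpa using this
    · intro x y z _ _ _ h1 h2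
      exact h1.trans h2
    · intro x y _ _ h1
      exact h1.symm
  refine key.1 ⟨1, 1, Gq.one q, Gq.one x₀, ?_⟩
  rw [h0, mul_one]

end Pool.Agent.H78.Diam
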