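import Pool.Agent.H78.Diam.Calc

open scoped ContDiff Manifold ENNReal Topology
open MeasureTheory Set

namespace Pool.Agent.H78.Diam

lemma exists_equiv_of_injective {W : Type*} [NormedAddCommGroup W] [NormedSpace ℝ W]
    [FiniteDimensional ℝ W] (A : W →L[ℝ] W) (h : Function.Injective A) :
    ∃ e : W ≃L[ℝ] W, (e : W →L[ℝ] W) = A := by
  refine ⟨(LinearEquiv.ofInjectiveEndo (A : W →ₗ[ℝ] W) h).toContinuousLinearEquiv, ?_⟩
  ext x; rfl

lemma contDiffAt_inverse_family {Z W : Type*} [NormedAddCommGroup Z] [NormedSpace ℝ Z]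
    [NormedAddCommGroup W] [NormedSpace ℝ W] [FiniteDimensional ℝ Z] [FiniteDimensional ℝ W]
    {f g : Z × W → W} {z₀ : Z} {x₀ : W} (hf : ContDiffAt ℝ ∞ f (z₀, x₀))
    (hinj : ∀ h, fderiv ℝ f (z₀, x₀) (0, h) = 0 → h = 0)
    (hg : ∀ᶠ q : Z × W in 𝓝 (z₀, x₀), g (q.1, f q) = q.2) :
    ContDiffAt ℝ ∞ g (z₀, f (z₀, x₀)) := by
  set Φ : Z × W → Z × W := fun q => (q.1, f q) with hΦ
  have hfd : HasFDerivAt f (fderiv ℝ f (z₀, x₀)) (z₀, x₀) :=
    (hf.differentiableAt (by simp)).hasFDerivAt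
  have hΦc : ContDiffAt ℝ ∞ Φ (z₀, x₀) := contDiffAt_fst.prodMk hf
  have hΦd : HasFDerivAt Φ ((ContinuousLinearMap.fst ℝ Z W).prod (fderiv ℝ f (z₀, x₀)))
      (z₀, x₀) := hasFDerivAt_fst.prodMk hfd
  obtain ⟨e, he⟩ := exists_equiv_of_injective
    ((ContinuousLinearMap.fst ℝ Z W).prod (fderiv ℝ f (z₀, x₀))) (by
      rw [injective_iff_map_eq_zero]
      rintro ⟨a, b⟩ hab
      have h1 : a = 0 := congrArg Prod.fst hab
      have h2 : fderiv ℝ f (z₀, x₀) (a, b) = 0 := congrArg Prod.snd hab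
      subst h1
      rw [hinj b h2]; rfl)
  rw [← he] at hΦd
  set Ψ := hΦc.localInverse hΦd (by simp) with hΨ
  have hΨc : ContDiffAt ℝ ∞ Ψ (Φ (z₀, x₀)) := hΦc.to_localInverse hΦd (by simp)
  have hstrict := hΦc.hasStrictFDerivAt' hΦd (by simp)
  have hright : ∀ᶠ y in 𝓝 (Φ (z₀, x₀)), Φ (Ψ y) = y := hstrict.eventually_right_inverse
  have htend : Filter.Tendsto Ψ (𝓝 (Φ (z₀, x₀))) (𝓝 (z₀, x₀)) := hstrict.localInverse_tendsto
  have hmain : ContDiffAt ℝ ∞ (fun y => (Ψ y).2) (Φ (z₀, x₀)) := contDiffAt_snd.comp _ hΨc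
  refine hmain.congr_of_eventuallyEq ?_
  filter_upwards [hright, htend.eventually hg] with y hy1 hy2
  have h1 : ((Ψ y).1, f (Ψ y)) = y := hy1
  rw [h1] at hy2
  exact hy2

lemma antilipschitz_fderiv {W W' : Type*} [NormedAddCommGroup W] [NormedSpace ℝ W]
    [NormedAddCommGroup W'] [NormedSpace ℝ W'] {f : W → W'} {f' : W →L[ℝ] W'} {x : W}
    (hf : HasFDerivAt f f' x) {c : ℝ} (hc : ∀ᶠ y in 𝓝 x, c * ‖y - x‖ ≤ ‖f y - f x‖) (v : W) :
    c * ‖v‖ ≤ ‖f' v‖ := by
  have h1 : HasDerivAt (fun t : ℝ => x + t • v) v 0 := by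
    simpa using ((hasDerivAt_id (0:ℝ)).smul_const v).const_add x
  have hf0 : HasFDerivAt f f' (x + (0:ℝ) • v) := by simpa using hf
  have h2 : HasDerivAt (fun t : ℝ => f (x + t • v)) (f' v) 0 := hf0.comp_hasDerivAt 0 h1
  have h3 := h2.tendsto_slope_zero
  have h4 : Filter.Tendsto (fun t : ℝ => x + t • v) (𝓝[≠] 0) (𝓝 x) := by
    have := h1.continuousAt.tendsto
    simp only [zero_smul, add_zero] at this
    exact this.mono_left nhdsWithin_le_nhds
  refine ge_of_tendsto h3.norm ?_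
  filter_upwards [h4.eventually hc, self_mem_nhdsWithin] with t ht ht0
  have ht0' : t ≠ 0 := ht0
  have hpos : 0 < |t| := abs_pos.2 ht0'
  simp only [add_sub_cancel_left, norm_smul, Real.norm_eq_abs] at ht
  simp only [zero_add, zero_smul, add_zero, norm_smul, norm_inv, Real.norm_eq_abs]
  rw [inv_mul_eq_div, le_div_iff₀ hpos]
  linarith [mul_comm |t| (c * ‖v‖), mul_assoc c |t| ‖v‖, mul_comm |t| ‖v‖, mul_assoc c ‖v‖ |t|]

variable {n : ℕ}

lemma norm_smul_sub_smul_sq (x y : S n) (r s : ℝ) :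
    ‖r • (x : E n) - s • (y : E n)‖ ^ 2 = (r - s) ^ 2 + r * s * ‖(x : E n) - y‖ ^ 2 := by
  rw [norm_sub_sq_real, norm_sub_sq_real, norm_smul, norm_smul, norm_coe, norm_coe,
    real_inner_smul_left, real_inner_smul_right]
  simp only [mul_one, Real.norm_eq_abs, sq_abs]
  ring

/-- 1-homogeneous extension -/
noncomputable def hext {Z : Type*} (f : Z → S n → S n) (q : Z × E n) : E n :=
  ‖q.2‖ • (f q.1 (nrm q.2) : E n)

lemma hext_coe {Z : Type*} (f : Z → S n → S n) (z : Z) (x : S n) :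
    hext f (z, (x : E n)) = f z x := by
  simp [hext, nrm_coe]

lemma norm_hext {Z : Type*} (f : Z → S n → S n) (q : Z × E n) : ‖hext f q‖ = ‖q.2‖ := by
  simp [hext, norm_smul]

lemma hext_antilipschitz {Z : Type*} {f : Z → S n → S n} {z : Z} {c : ℝ} (hc : 0 ≤ c)
    (hc1 : c ≤ 1) (h : ∀ x y : S n, c * ‖(x : E n) - y‖ ≤ ‖(f z x : E n) - f z y‖) (p q : E n) :
    c * ‖p - q‖ ≤ ‖hext f (z, p) - hext f (z, q)‖ := by
  refine le_of_sq_le_sq ?_ (norm_nonneg _)
  rw [mul_pow]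
  have h1 : ‖p - q‖ ^ 2 = (‖p‖ - ‖q‖) ^ 2 + ‖p‖ * ‖q‖ * ‖(nrm p : E n) - nrm q‖ ^ 2 := by
    rw [← norm_smul_sub_smul_sq, norm_smul_nrm, norm_smul_nrm]
  have h2 : ‖hext f (z, p) - hext f (z, q)‖ ^ 2
      = (‖p‖ - ‖q‖) ^ 2 + ‖p‖ * ‖q‖ * ‖(f z (nrm p) : E n) - f z (nrm q)‖ ^ 2 :=
    norm_smul_sub_smul_sq _ _ _ _
  rw [h1, h2]
  have h3 : c ^ 2 * ‖(nrm p : E n) - nrm q‖ ^ 2 ≤ ‖(f z (nrm p) : E n) - f z (nrm q)‖ ^ 2 := by
    rw [← mul_pow]
    exact pow_le_pow_left₀ (by positivity) (h _ _) 2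
  have h4 : 0 ≤ ‖p‖ * ‖q‖ := by positivity
  have h5 : c ^ 2 ≤ 1 := by nlinarith
  nlinarith [sq_nonneg (‖p‖ - ‖q‖), mul_le_mul_of_nonneg_left h3 h4]

lemma contDiffAt_hext {Z : Type*} [NormedAddCommGroup Z] [NormedSpace ℝ Z] {f : Z → S n → S n}
    (hf : SmS f) (z : Z) {p : E n} (hp : p ≠ 0) : ContDiffAt ℝ ∞ (hext f) (z, p) := by
  have h1 := (hf z (nrm p)).contDiffAt hp
  have h2 : ContDiffAt ℝ ∞ (fun q : Z × E n => ‖q.2‖) (z, p) :=
    ContDiffAt.comp (z, p) (g := fun q : E n => ‖q‖) (f := Prod.snd) (contDiffAt_norm ℝ hp)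
      contDiffAt_snd
  exact h2.smul h1

/-- inverse of a smooth family of bijections with invertible derivative is smooth -/
lemma SmS.symm {Z : Type*} [NormedAddCommGroup Z] [NormedSpace ℝ Z] [FiniteDimensional ℝ Z]
    {f : Z → Equiv.Perm (S n)} (hf : SmS (fun z x => f z x))
    (hinj : ∀ z (x : S n) h, fderiv ℝ (hext (fun z x => f z x)) (z, (x : E n)) (0, h) = 0 → h = 0) :
    SmS (fun z x => (f z).symm x) := by
  intro z y
  set x := (f z).symm y with hx
  have hy : f z x = y := by simp [hx]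
  have h1 := contDiffAt_inverse_family (f := hext (fun z x => f z x))
    (g := hext (fun z x => (f z).symm x)) (contDiffAt_hext hf z (coe_ne_zero x)) (hinj z x) (by
      have : ∀ᶠ q : Z × E n in 𝓝 (z, (x : E n)), q.2 ≠ 0 :=
        continuousAt_snd.eventually_ne (coe_ne_zero x)
      filter_upwards [this] with q hq
      have hn0 : 0 < ‖q.2‖ := norm_pos_iff.2 hq
      unfold hext
      simp only
      rw [nrm_smul hn0, norm_smul, norm_coe, Equiv.symm_apply_apply, mul_one, norm_norm,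
        norm_smul_nrm])
  rw [hext_coe] at h1
  simp only [hy] at h1
  have h2 : ContDiffAt ℝ ∞ (fun q : Z × E n => ‖q.2‖⁻¹ • hext (fun z x => (f z).symm x) q)
      (z, (y : E n)) := by
    have h3 : ContDiffAt ℝ ∞ (fun q : Z × E n => ‖q.2‖) (z, (y : E n)) :=
      ContDiffAt.comp (z, (y : E n)) (g := fun q : E n => ‖q‖) (f := Prod.snd)
        (contDiffAt_norm ℝ (coe_ne_zero y)) contDiffAt_snd
    exact (h3.inv (by simp)).smul h1
  refine h2.congr_of_eventuallyEq ?_
  have : ∀ᶠ q : Z × E n in 𝓝 (z, (y : E n)), q.2 ≠ 0 :=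
    continuousAt_snd.eventually_ne (coe_ne_zero y)
  filter_upwards [this] with q hq
  have hn0 : ‖q.2‖ ≠ 0 := norm_ne_zero_iff.2 hq
  simp only [hext]
  rw [smul_smul, inv_mul_cancel₀ hn0, one_smul]

lemma preconnectedSpace_sphere (hn : 1 ≤ n) : PreconnectedSpace (S n) := by
  have hrank : 1 < Module.rank ℝ (E n) := by
    rw [← Module.finrank_eq_rank]
    have : Module.finrank ℝ (E n) = n + 1 := by simp
    rw [this]
    exact_mod_cast (by omega : 1 < n + 1)
  have h := isConnected_sphere hrank (0 : E n) (r := 1) (by norm_num)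
  exact Subtype.preconnectedSpace h.isPreconnected

lemma fderiv_hext_inj_of_antilipschitz {Z : Type*} [NormedAddCommGroup Z] [NormedSpace ℝ Z]
    {f : Z → S n → S n} (hf : SmS f) {z : Z} {c : ℝ} (hc : 0 < c)
    (h : ∀ x y : S n, c * ‖(x : E n) - y‖ ≤ ‖(f z x : E n) - f z y‖) (x : S n) (v : E n)
    (hv : fderiv ℝ (hext f) (z, (x : E n)) (0, v) = 0) : v = 0 := by
  set c' := min c 1 with hc'
  have hc0 : 0 < c' := lt_min hc one_pos
  have h' : ∀ x y : S n, c' * ‖(x : E n) - y‖ ≤ ‖(f z x : E n) - f z y‖ := fun x y =>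
    (mul_le_mul_of_nonneg_right (min_le_left _ _) (norm_nonneg _)).trans (h x y)
  have hd : HasFDerivAt (hext f) (fderiv ℝ (hext f) (z, (x : E n))) (z, (x : E n)) :=
    ((contDiffAt_hext hf z (coe_ne_zero x)).differentiableAt (by simp)).hasFDerivAt
  have hd2 : HasFDerivAt (fun p : E n => ((z, p) : Z × E n))
      (ContinuousLinearMap.inr ℝ Z (E n)) (x : E n) := hasFDerivAt_prodMk_right z (x : E n)
  have hd3 := hd.comp (x : E n) hd2
  have h3 := antilipschitz_fderiv hd3 (c := c') (Filter.Eventually.of_forall fun p =>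
    hext_antilipschitz hc0.le (min_le_right _ _) h' p x) v
  have h4 : ((fderiv ℝ (hext f) (z, (x : E n))).comp (ContinuousLinearMap.inr ℝ Z (E n))) v = 0 := by
    simpa using hv
  rw [h4, norm_zero] at h3
  have h5 : ‖v‖ ≤ 0 := by
    by_contra h6
    push Not at h6
    have := mul_pos hc0 h6
    linarith
  exact norm_le_zero_iff.1 h5

lemma bijective_of_antilipschitz (hn : 1 ≤ n) {Z : Type*} [NormedAddCommGroup Z] [NormedSpace ℝ Z]
    {f : Z → S n → S n} (hf : SmS f) {z : Z} {c : ℝ} (hc : 0 < c)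
    (h : ∀ x y : S n, c * ‖(x : E n) - y‖ ≤ ‖(f z x : E n) - f z y‖) :
    Function.Bijective (f z) := by
  have hcont : Continuous (f z) := by
    have := SmS.continuous hf
    exact this.comp (Continuous.prodMk continuous_const continuous_id)
  refine ⟨?_, ?_⟩
  · intro x y hxy
    have h1 := h x y
    rw [hxy, sub_self, norm_zero] at h1
    have h2 : ‖(x : E n) - y‖ ≤ 0 := by
      by_contra h6
      push Not at h6
      have := mul_pos hc h6
      linarith
    exact Subtype.ext (sub_eq_zero.1 (norm_le_zero_iff.1 h2))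
  · rw [← range_eq_univ]
    have := preconnectedSpace_sphere hn
    refine IsClopen.eq_univ ⟨?_, ?_⟩ ⟨f z (north n), mem_range_self _⟩
    · exact (isCompact_range hcont).isClosed
    · rw [isOpen_iff_mem_nhds]
      rintro _ ⟨x, rfl⟩
      -- local surjectivity
      set F : E n → E n := fun p => hext f (z, p) with hF
      have hFc : ContDiffAt ℝ ∞ F (x : E n) :=
        ContDiffAt.comp (x : E n) (g := hext f) (f := fun p => ((z, p) : Z × E n))
          (contDiffAt_hext hf z (coe_ne_zero x)) (contDiffAt_const.prodMk contDiffAt_id)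
      have hFd : HasFDerivAt F ((fderiv ℝ (hext f) (z, (x : E n))).comp
          (ContinuousLinearMap.inr ℝ Z (E n))) (x : E n) :=
        (((contDiffAt_hext hf z (coe_ne_zero x)).differentiableAt (by simp)).hasFDerivAt).comp
          (x : E n) (hasFDerivAt_prodMk_right z (x : E n))
      obtain ⟨e, he⟩ := exists_equiv_of_injective ((fderiv ℝ (hext f) (z, (x : E n))).comp
          (ContinuousLinearMap.inr ℝ Z (E n))) (by
        rw [injective_iff_map_eq_zero]
        intro v hv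
        exact fderiv_hext_inj_of_antilipschitz hf hc h x v (by simpa using hv))
      rw [← he] at hFd
      have hs := hFc.hasStrictFDerivAt' hFd (by simp)
      have hmap := hs.map_nhds_eq_of_equiv
      have hev : F '' {p | p ≠ 0} ∈ 𝓝 (F (x : E n)) := by
        rw [← hmap]
        exact Filter.image_mem_map (isOpen_ne.mem_nhds (coe_ne_zero x))
      have hFx : F (x : E n) = f z x := hext_coe f z x
      rw [hFx] at hev
      have hpre : (fun y : S n => (y : E n)) ⁻¹' (F '' {p | p ≠ 0}) ∈ 𝓝 (f z x) :=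
        continuous_subtype_val.continuousAt.preimage_mem_nhds hev
      refine Filter.mem_of_superset hpre ?_
      rintro y ⟨p, hp, hpy⟩
      have hpy' : hext f (z, p) = y := hpy
      have hnp : ‖p‖ = 1 := by
        have := norm_hext f (z, p)
        rw [hpy', norm_coe] at this
        exact this.symm
      refine ⟨nrm p, ?_⟩
      apply Subtype.ext
      rw [← hpy']
      simp [hext, hnp]

end Pool.Agent.H78.Diam
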