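import Pool.Agent.H78.Diam.Frag

open scoped ContDiff Manifold ENNReal Topology
open MeasureTheory Set

namespace Pool.Agent.H78.Diam

variable {n : ℕ}

lemma exists_avoiding (hn : 2 ≤ n) (F : Fam n) (q : S n) :
    ∃ y₀ : V n, ‖y₀‖ ≤ 1 / 2 ∧ ∀ t, F.f t (kapS y₀) ≠ q := by
  set γ : ℝ → E n := fun t => ((F.f t).symm q : E n) with hγ
  have hγs : ContDiff ℝ ∞ γ := Sm.slice F.smg q
  have hg : ContDiff ℝ 1 (fun w : ℝ × ℝ => w.1 • γ w.2) :=
    (contDiff_fst.smul ((hγs.of_le (by simp)).comp contDiff_snd))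
  have hdense := hg.dense_compl_range_of_finrank_lt_finrank (by simp; omega)
  have hnorth : (kapS (0 : V n) : E n) ≠ 0 := coe_ne_zero _
  have hc1 : ContinuousAt (fun p : E n => (nrm p : E n)) (kapS (0 : V n) : E n) :=
    (contDiffAt_nrm hnorth).continuousAt
  have e1 : ∀ᶠ p in 𝓝 (kapS (0 : V n) : E n), p ≠ 0 := continuousAt_id.eventually_ne hnorth
  have hc2 : ContinuousAt (fun p : E n => ht n (nrm p : E n)) (kapS (0 : V n) : E n) :=
    ((ht n).continuous.continuousAt).comp hc1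
  have e2 : ∀ᶠ p in 𝓝 (kapS (0 : V n) : E n), ht n (nrm p : E n) ≠ -1 := by
    refine hc2.eventually_ne ?_
    rw [nrm_coe]
    exact ht_kap_ne 0
  have hc3 : ContinuousAt (fun p : E n => ‖kk (nrm p : E n)‖) (kapS (0 : V n) : E n) := by
    have h1 : ContinuousAt (kk (n := n)) (nrm (kapS (0 : V n) : E n) : E n) := by
      rw [nrm_coe]
      exact (contDiffAt_kk (ht_kap_ne 0)).continuousAt
    exact (ContinuousAt.comp (f := fun p : E n => (nrm p : E n)) h1 hc1).norm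
  have e3 : ∀ᶠ p in 𝓝 (kapS (0 : V n) : E n), ‖kk (nrm p : E n)‖ < 1 / 2 := by
    refine hc3.eventually_lt_const ?_
    change ‖kk (nrm (kapS (0 : V n) : E n) : E n)‖ < 1 / 2
    rw [nrm_coe, coe_kapS, kk_kap]; simp
  obtain ⟨p, hp, hp1, hp2, hp3⟩ := hdense.inter_nhds_nonempty (e1.and (e2.and e3))
  refine ⟨kk (nrm p : E n), hp3.le, fun t ht => ?_⟩
  rw [kapS_kk hp2] at ht
  apply hp
  refine ⟨(‖p‖, t), ?_⟩
  have h1 : (F.f t).symm q = nrm p := by rw [Equiv.symm_apply_eq, ht]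
  change ‖p‖ • ((F.f t).symm q : E n) = p
  rw [h1, norm_smul_nrm]

theorem fam_cost (D : Atlas n) (hn : 2 ≤ n) {s p : ℝ} (hs : 0 ≤ s) (hp : 1 ≤ p)
    (hsp : s < 1 + n / p) :
    ∃ C : ℝ, 0 ≤ C ∧ ∀ F : Fam n, F.f 0 = 1 → Cost D s p (F.f 1) (ENNReal.ofReal C) := by
  obtain ⟨C₁, hC₁, h₁⟩ := gq_cost D (by omega) hs hp hsp
  obtain ⟨C₂, hC₂, h₂⟩ := gq_cost D.flip (by omega) hs hp hsp
  refine ⟨C₂ + C₁, by positivity, fun F h0 => ?_⟩
  set q : S n := anti n (kapS 0) with hq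
  obtain ⟨y₀, hy₀, hne⟩ := exists_avoiding hn F q
  obtain ⟨ψ, χ, hψ, hχ, hψχ⟩ := frag (by omega) F h0 q (kapS y₀) (fun t _ => hne t)
  have hc1 : Cost D s p χ (ENNReal.ofReal C₁) := h₁ y₀ hy₀ χ hχ
  have hψ' : Gq (kapS 0) (anti n * ψ * (anti n)⁻¹) := by
    have h := hψ.conj smPerm_anti
    rwa [hq, anti_anti] at h
  have hc2 : Cost D.flip s p (anti n * ψ * (anti n)⁻¹) (ENNReal.ofReal C₂) :=
    h₂ 0 (by simp) _ hψ'
  have hc3 := hc2.flip
  have e1 : anti n * (anti n * ψ * (anti n)⁻¹) * anti n = ψ := by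
    have : anti n * (anti n * ψ * (anti n)⁻¹) * anti n = (anti n * anti n) * ψ := by group
    rw [this, anti_mul_anti, one_mul]
  rw [e1] at hc3
  rw [hψχ]
  refine (hc3.mul hp hc1).mono (le_of_eq ?_)
  rw [← ENNReal.ofReal_add hC₂ hC₁]

/-! ### comparison with Mathlib diffeomorphisms -/

lemma contMDiff_of_sms {f : ℝ → S n → S n} (hf : SmS f) :
    ContMDiff (𝓘(ℝ, ℝ).prod (𝓡 n)) (𝓡 n) ∞ (fun q : ℝ × S n => f q.1 q.2) := by
  have : Fact (Module.finrank ℝ (E n) = n + 1) := ⟨by simp⟩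
  have h1 : ContMDiff (𝓘(ℝ, ℝ).prod (𝓡 n)) 𝓘(ℝ, E n) ∞
      (fun q : ℝ × S n => (f q.1 q.2 : E n)) := by
    rintro ⟨t, x⟩
    have h2 : ContMDiff (𝓘(ℝ, ℝ).prod (𝓡 n)) 𝓘(ℝ, ℝ × E n) ∞
        (fun q : ℝ × S n => (q.1, (q.2 : E n))) :=
      contMDiff_fst.prodMk_space (contMDiff_coe_sphere.comp contMDiff_snd)
    have h3 : ContMDiffAt 𝓘(ℝ, ℝ × E n) 𝓘(ℝ, E n) ∞
        (fun q : ℝ × E n => (f q.1 (nrm q.2) : E n)) (t, (x : E n)) := (hf t x).contMDiffAt
    have h4 := ContMDiffAt.comp (t, x) (g := fun q : ℝ × E n => (f q.1 (nrm q.2) : E n))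
      (f := fun q : ℝ × S n => (q.1, (q.2 : E n))) h3 (h2 (t, x))
    refine h4.congr_of_eventuallyEq (Filter.Eventually.of_forall fun q => ?_)
    simp [nrm_coe]
  exact h1.codRestrict_sphere (n := n) (fun q => (f q.1 q.2).2)

lemma contMDiff_of_smPerm {a : Equiv.Perm (S n)} (ha : SmPerm a) :
    ContMDiff (𝓡 n) (𝓡 n) ∞ a := by
  have h1 := contMDiff_of_sms ha.sm
  exact h1.comp ((contMDiff_const (c := (0:ℝ))).prodMk contMDiff_id)

/-- localisation map: smooth, never zero, equal to the identity near `x` -/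
lemma exists_local (x : S n) : ∃ r : E n → E n, ContDiff ℝ ∞ r ∧ (∀ p, r p ≠ 0) ∧
    ∀ᶠ p in 𝓝 (x : E n), r p = p := by
  set χ : E n → ℝ := fun p => st (2 - 16 * ‖p - x‖ ^ 2) with hχ
  have hχs : ContDiff ℝ ∞ χ := by
    have h1 : ContDiff ℝ ∞ (fun p : E n => ‖p - x‖ ^ 2) :=
      (contDiff_norm_sq ℝ).comp (contDiff_id.sub contDiff_const)
    exact st_contDiff.comp (contDiff_const.sub (contDiff_const.mul h1))
  refine ⟨fun p => x + χ p • (p - x), ?_, ?_, ?_⟩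
  · exact contDiff_const.add (hχs.smul (contDiff_id.sub contDiff_const))
  · intro p hp
    have h1 : ‖χ p • (p - (x : E n))‖ = 1 := by
      have : χ p • (p - (x : E n)) = -x := by
        rw [eq_neg_iff_add_eq_zero, add_comm]; exact hp
      rw [this, norm_neg, norm_coe]
    rw [norm_smul, Real.norm_eq_abs, abs_of_nonneg (st_mem _).1] at h1
    by_cases hd : 1 / 2 ≤ ‖p - (x : E n)‖
    · have : st (2 - 16 * ‖p - (x : E n)‖ ^ 2) = 0 := st_of_nonpos (by nlinarith)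
      rw [this] at h1; simp at h1
    · push Not at hd
      have h2 := (st_mem (2 - 16 * ‖p - (x : E n)‖ ^ 2)).2
      have h3 : χ p * ‖p - (x : E n)‖ ≤ 1 * ‖p - (x : E n)‖ :=
        mul_le_mul_of_nonneg_right h2 (norm_nonneg _)
      linarith
  · have hc : ContinuousAt (fun p : E n => ‖p - x‖) (x : E n) := by fun_prop
    filter_upwards [hc.eventually_lt_const (by simp : ‖(x : E n) - x‖ < 1 / 4)] with p hp
    have : χ p = 1 := st_of_one_le (by nlinarith [norm_nonneg (p - (x : E n))])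
    rw [this, one_smul, add_sub_cancel]

lemma sms_of_contMDiffOn {φ : ℝ → S n → S n}
    (hφ : ContMDiffOn (𝓘(ℝ, ℝ).prod (𝓡 n)) (𝓡 n) ∞ (fun q : ℝ × S n => φ q.1 q.2)
      (Icc (0 : ℝ) 1 ×ˢ (univ : Set (S n)))) :
    SmS (fun t x => φ (st t) x) := by
  have : Fact (Module.finrank ℝ (E n) = n + 1) := ⟨by simp⟩
  intro t x
  obtain ⟨r, hr, hr0, hrx⟩ := exists_local x
  have h1 : ContMDiff 𝓘(ℝ, E n) (𝓡 n) ∞ (fun p : E n => nrm (r p)) := by
    have h2 : ContDiff ℝ ∞ (fun p : E n => (nrm (r p) : E n)) := by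
      rw [contDiff_iff_contDiffAt]
      intro p
      exact ContDiffAt.comp p (g := fun q : E n => (nrm q : E n)) (contDiffAt_nrm (hr0 p))
        hr.contDiffAt
    exact h2.contMDiff.codRestrict_sphere (n := n) (fun p => (nrm (r p)).2)
  have h2 : ContMDiff 𝓘(ℝ, ℝ × E n) (𝓘(ℝ, ℝ).prod (𝓡 n)) ∞
      (fun q : ℝ × E n => (st q.1, nrm (r q.2))) :=
    (st_contDiff.comp contDiff_fst).contMDiff.prodMk (h1.comp contDiff_snd.contMDiff)
  have h3 : ContMDiff 𝓘(ℝ, ℝ × E n) (𝓡 n) ∞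
      ((fun q : ℝ × S n => φ q.1 q.2) ∘ (fun q : ℝ × E n => (st q.1, nrm (r q.2)))) :=
    hφ.comp_contMDiff h2 (fun q => ⟨st_mem _, mem_univ _⟩)
  have h4 : ContMDiff 𝓘(ℝ, ℝ × E n) 𝓘(ℝ, E n) ∞
      (fun q : ℝ × E n => (φ (st q.1) (nrm (r q.2)) : E n)) := contMDiff_coe_sphere.comp h3
  have h5 : ContDiffAt ℝ ∞ (fun q : ℝ × E n => (φ (st q.1) (nrm (r q.2)) : E n)) (t, (x : E n)) :=
    h4.contDiff.contDiffAt
  refine ContDiffAt.congr_of_eventuallyEq h5 ?_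
  have h6 : ∀ᶠ q : ℝ × E n in 𝓝 (t, (x : E n)), r q.2 = q.2 :=
    (continuous_snd.tendsto (t, (x : E n))).eventually hrx
  filter_upwards [h6] with q hq
  rw [hq]

lemma sms_of_contMDiff {a : S n → S n} (ha : ContMDiff (𝓡 n) (𝓡 n) ∞ a) :
    SmS (fun (_ : ℝ) x => a x) := by
  refine sms_of_contMDiffOn (φ := fun _ => a) ?_
  exact (ha.comp contMDiff_snd).contMDiffOn

lemma hinj_of_smooth_symm {f : ℝ → Equiv.Perm (S n)} (hf : SmS (fun z x => f z x))
    (hg : ∀ z, SmS (fun (_ : ℝ) x => (f z).symm x)) (z : ℝ) (x : S n) (v : E n)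
    (hv : fderiv ℝ (hext (fun z x => f z x)) (z, (x : E n)) (0, v) = 0) : v = 0 := by
  set A := hext (fun z x => f z x) with hA
  set B := hext (fun (_ : ℝ) x => (f z).symm x) with hB
  have hAd : HasFDerivAt A (fderiv ℝ A (z, (x : E n))) (z, (x : E n)) :=
    ((contDiffAt_hext hf z (coe_ne_zero x)).differentiableAt (by simp)).hasFDerivAt
  have hAd2 : HasFDerivAt (fun p : E n => A (z, p)) ((fderiv ℝ A (z, (x : E n))).comp
      (ContinuousLinearMap.inr ℝ ℝ (E n))) (x : E n) :=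
    hAd.comp (x : E n) (hasFDerivAt_prodMk_right z (x : E n))
  have hBd : HasFDerivAt B (fderiv ℝ B (0, (f z x : E n))) (0, (f z x : E n)) :=
    ((contDiffAt_hext (hg z) 0 (coe_ne_zero (f z x))).differentiableAt (by simp)).hasFDerivAt
  have hBd2 : HasFDerivAt (fun p : E n => B (0, p)) ((fderiv ℝ B (0, (f z x : E n))).comp
      (ContinuousLinearMap.inr ℝ ℝ (E n))) (f z x : E n) :=
    hBd.comp (f z x : E n) (hasFDerivAt_prodMk_right (0:ℝ) (f z x : E n))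
  have hAx : A (z, (x : E n)) = f z x := hext_coe _ z x
  rw [← hAx] at hBd2
  have hcomp := hBd2.comp (x : E n) hAd2
  have hid : ((fun p : E n => B (0, p)) ∘ fun p : E n => A (z, p)) =ᶠ[𝓝 (x : E n)] id := by
    filter_upwards [isOpen_ne.mem_nhds (coe_ne_zero x)] with p hp
    have hn0 : 0 < ‖p‖ := norm_pos_iff.2 hp
    simp only [Function.comp, hA, hB, hext, id]
    rw [nrm_smul hn0, norm_smul, norm_coe, Equiv.symm_apply_apply, mul_one, norm_norm,
      norm_smul_nrm]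
  have hd := (hid.hasFDerivAt_iff.1 hcomp).unique (hasFDerivAt_id (x : E n))
  have h4 := congrArg (fun L : E n →L[ℝ] E n => L v) hd
  simp only [ContinuousLinearMap.comp_apply, ContinuousLinearMap.inr_apply, hv, map_zero,
    ContinuousLinearMap.id_apply] at h4
  rw [← h4]

/-- a smooth path of diffeomorphisms gives a smooth family -/
lemma exists_fam_of_path {φ : ℝ → Dif n} (hφ : SmoothPath φ) :
    ∃ F : Fam n, ∀ t, F.f t = (φ (st t)).toEquiv := by
  have h1 : SmS (fun t x => φ (st t) x) := sms_of_contMDiffOn (φ := fun t x => φ t x) hφ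
  refine ⟨{ f := fun t => (φ (st t)).toEquiv, smf := h1, smg := ?_ }, fun t => rfl⟩
  refine SmS.symm (f := fun t => (φ (st t)).toEquiv) h1 ?_
  refine hinj_of_smooth_symm (f := fun t => (φ (st t)).toEquiv) h1 (fun z => ?_)
  exact sms_of_contMDiff (φ (st z)).symm.contMDiff

/-- cost bounds the distance -/
lemma dist_le_of_cost {D : Atlas n} {s p : ℝ} {φ : Dif n} {c : ℝ≥0∞}
    (h : Cost D s p φ.toEquiv c) :
    dist (incl n) (D.norm s p) (Diffeomorph.refl (𝓡 n) (S n) ∞) φ ≤ c := by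
  obtain ⟨F, F0, F1, hF⟩ := h
  set Φ : ℝ → Dif n := fun t =>
    { toEquiv := F.f t
      contMDiff_toFun := contMDiff_of_smPerm (F.smPerm t)
      contMDiff_invFun := contMDiff_of_smPerm (F.smPerm t).inv } with hΦ
  have hpath : SmoothPath Φ := (contMDiff_of_sms F.smf).contMDiffOn
  have h0 : Φ 0 = Diffeomorph.refl (𝓡 n) (S n) ∞ := by
    apply Diffeomorph.toEquiv_injective
    exact F0
  have h1 : Φ 1 = φ := by
    apply Diffeomorph.toEquiv_injective
    exact F1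
  refine (iInf₂_le Φ ⟨hpath, h0, h1⟩).trans (le_trans (le_of_eq ?_) hF)
  unfold length
  refine setLIntegral_congr_fun measurableSet_Icc fun t ht => ?_
  congr 1
  funext x
  have hd : HasDerivAt (fun τ => (F.f τ ((F.f t).symm x) : E n))
      (F.vel t (F.f t ((F.f t).symm x))) t := F.hasDerivAt t _
  rw [Equiv.apply_symm_apply] at hd
  exact hd.hasDerivWithinAt.derivWithin ((uniqueDiffOn_Icc zero_lt_one) t ht)

/-- the diameter is finite -/
theorem diam_lt_top (hn : 2 ≤ n) (D : Atlas n) {s p : ℝ} (hs : 0 ≤ s) (hp : 1 ≤ p)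
    (hsp : s < 1 + n / p) : diam (𝓡 n) (incl n) (D.norm s p) < ⊤ := by
  obtain ⟨C, hC, h⟩ := fam_cost D hn hs hp hsp
  refine lt_of_le_of_lt (b := ENNReal.ofReal C) ?_ ENNReal.ofReal_lt_top
  refine iSup₂_le fun ψ hψ => ?_
  obtain ⟨φ, hφ, h0, h1⟩ := hψ
  obtain ⟨F, hF⟩ := exists_fam_of_path hφ
  have hF0 : F.f 0 = 1 := by
    rw [hF, st_of_nonpos le_rfl, h0]; rfl
  have hF1 : F.f 1 = ψ.toEquiv := by
    rw [hF, st_of_one_le le_rfl, h1]
  exact dist_le_of_cost (hF1 ▸ h F hF0)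

end Pool.Agent.H78.Diam
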