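import Pool.Agent.H78.Diam.Fam

open scoped ContDiff Manifold ENNReal Topology
open MeasureTheory Set

namespace Pool.Agent.H78.Diam

variable {n : ℕ}

/-- last coordinates -/
noncomputable def tailL (n : ℕ) : E n →L[ℝ] V n :=
  LinearMap.toContinuousLinearMap
    { toFun := fun x => WithLp.toLp 2 (fun i => x i.succ)
      map_add' := fun x y => by ext i; simp
      map_smul' := fun r x => by ext i; simp }

/-- inclusion of the last coordinates -/
noncomputable def consL (n : ℕ) : V n →L[ℝ] E n :=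
  LinearMap.toContinuousLinearMap
    { toFun := fun y => WithLp.toLp 2 (Fin.cons 0 (fun i => y i))
      map_add' := fun x y => by
        ext i; refine Fin.cases ?_ (fun j => ?_) i <;> simp
      map_smul' := fun r x => by
        ext i; refine Fin.cases ?_ (fun j => ?_) i <;> simp }

/-- first coordinate -/
noncomputable def ht (n : ℕ) : E n →L[ℝ] ℝ := EuclideanSpace.proj 0

/-- first basis vector -/
noncomputable def e0 (n : ℕ) : E n := EuclideanSpace.single 0 1

@[simp] lemma tailL_apply (x : E n) (i : Fin n) : tailL n x i = x i.succ := rfl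
@[simp] lemma consL_zero (y : V n) : consL n y 0 = 0 := rfl
@[simp] lemma consL_succ (y : V n) (i : Fin n) : consL n y i.succ = y i := rfl
@[simp] lemma ht_apply (x : E n) : ht n x = x 0 := rfl

lemma tailL_consL (y : V n) : tailL n (consL n y) = y := by ext i; simp
lemma tailL_e0 : tailL n (e0 n) = 0 := by ext i; simp [e0]
lemma ht_e0 : ht n (e0 n) = 1 := by simp [e0]

lemma decomp (x : E n) : x = ht n x • e0 n + consL n (tailL n x) := by
  ext i
  refine Fin.cases ?_ (fun j => ?_) i <;> simp [e0]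

lemma norm_sq_decomp (x : E n) : ‖x‖ ^ 2 = (ht n x) ^ 2 + ‖tailL n x‖ ^ 2 := by
  rw [EuclideanSpace.norm_sq_eq, EuclideanSpace.norm_sq_eq, Fin.sum_univ_succ]
  simp

/-- inverse stereographic projection -/
noncomputable def kap (y : V n) : E n :=
  (1 + ‖y‖ ^ 2 / 4)⁻¹ • ((1 - ‖y‖ ^ 2 / 4) • e0 n + consL n y)

lemma ht_kap (y : V n) : ht n (kap y) = (1 - ‖y‖ ^ 2 / 4) / (1 + ‖y‖ ^ 2 / 4) := by
  unfold kap
  rw [map_smul, map_add, map_smul, ht_e0]
  simp [div_eq_mul_inv, mul_comm]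

lemma tailL_kap (y : V n) : tailL n (kap y) = (1 + ‖y‖ ^ 2 / 4)⁻¹ • y := by
  unfold kap
  rw [map_smul, map_add, map_smul, tailL_e0, tailL_consL]
  simp

lemma norm_kap (y : V n) : ‖kap y‖ = 1 := by
  have h1 : ‖kap y‖ ^ 2 = 1 := by
    rw [norm_sq_decomp, ht_kap, tailL_kap, norm_smul, mul_pow, Real.norm_eq_abs, sq_abs]
    field_simp
    ring
  have h2 : 0 ≤ ‖kap y‖ := norm_nonneg _
  nlinarith

/-- inverse stereographic projection, with values in the sphere -/
noncomputable def kapS (y : V n) : S n := ⟨kap y, by simp [norm_kap]⟩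

@[simp] lemma coe_kapS (y : V n) : (kapS y : E n) = kap y := rfl

/-- stereographic projection -/
noncomputable def kk (x : E n) : V n := (2 / (1 + ht n x)) • tailL n x

lemma one_add_ht_kap (y : V n) : 1 + ht n (kap y) = 2 / (1 + ‖y‖ ^ 2 / 4) := by
  rw [ht_kap]; field_simp; ring

lemma ht_kap_ne (y : V n) : ht n (kap y) ≠ -1 := by
  intro h
  have h1 := one_add_ht_kap y
  rw [h] at h1
  have : (0:ℝ) < 2 / (1 + ‖y‖ ^ 2 / 4) := by positivity
  linarith

lemma kk_kap (y : V n) : kk (kap y) = y := by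
  unfold kk
  rw [one_add_ht_kap, tailL_kap, smul_smul]
  have : 2 / (2 / (1 + ‖y‖ ^ 2 / 4)) * (1 + ‖y‖ ^ 2 / 4)⁻¹ = 1 := by field_simp
  rw [this, one_smul]

lemma neg_one_le_ht (x : S n) : -1 ≤ ht n x := by
  have h1 := norm_sq_decomp (x : E n)
  rw [norm_coe] at h1
  nlinarith [sq_nonneg ‖tailL n (x : E n)‖]

lemma ht_le_one (x : S n) : ht n x ≤ 1 := by
  have h1 := norm_sq_decomp (x : E n)
  rw [norm_coe] at h1
  nlinarith [sq_nonneg ‖tailL n (x : E n)‖]

lemma one_add_ht_pos {x : S n} (hx : ht n x ≠ -1) : 0 < 1 + ht n x := by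
  have := neg_one_le_ht x
  rcases lt_or_eq_of_le this with h | h
  · linarith
  · exact absurd h.symm hx

lemma norm_sq_kk {x : S n} (hx : ht n x ≠ -1) :
    ‖kk (x : E n)‖ ^ 2 / 4 = (1 - ht n x) / (1 + ht n x) := by
  have hpos := one_add_ht_pos hx
  have h1 := norm_sq_decomp (x : E n)
  rw [norm_coe] at h1
  unfold kk
  rw [norm_smul, mul_pow, Real.norm_eq_abs, sq_abs]
  have h2 : ‖tailL n (x : E n)‖ ^ 2 = (1 - ht n x) * (1 + ht n x) := by linarith
  rw [h2]
  field_simp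
  ring

lemma kap_kk {x : S n} (hx : ht n x ≠ -1) : kap (kk (x : E n)) = x := by
  have hpos := one_add_ht_pos hx
  have h1 := norm_sq_kk hx
  unfold kap
  rw [h1]
  have h2 : (1 + (1 - ht n x) / (1 + ht n x))⁻¹ = (1 + ht n x) / 2 := by
    have : 1 + (1 - ht n x) / (1 + ht n x) = 2 / (1 + ht n x) := by field_simp; ring
    rw [this, inv_div]
  have h3 : 1 - (1 - ht n x) / (1 + ht n x) = 2 * ht n x / (1 + ht n x) := by field_simp; ring
  rw [h2, h3]
  conv_rhs => rw [decomp (x : E n)]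
  unfold kk
  rw [map_smul, smul_add, smul_smul, smul_smul]
  congr 2
  · field_simp
  · have h4 : (1 + ht n (x : E n)) / 2 * (2 / (1 + ht n (x : E n))) = 1 := by field_simp
    rw [h4, one_smul]

lemma kapS_kk {x : S n} (hx : ht n x ≠ -1) : kapS (kk (x : E n)) = x :=
  Subtype.ext (kap_kk hx)

lemma contDiff_kap : ContDiff ℝ ∞ (kap (n := n)) := by
  unfold kap
  have h1 : ContDiff ℝ ∞ (fun y : V n => ‖y‖ ^ 2) := contDiff_norm_sq ℝ
  have h2 : ContDiff ℝ ∞ (fun y : V n => (1 + ‖y‖ ^ 2 / 4)) :=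
    contDiff_const.add (h1.div_const 4)
  have h3 : ContDiff ℝ ∞ (fun y : V n => (1 + ‖y‖ ^ 2 / 4)⁻¹) :=
    h2.inv (fun y => by positivity)
  exact h3.smul (((contDiff_const.sub (h1.div_const 4)).smul contDiff_const).add
    (consL n).contDiff)

lemma contDiffAt_kk {x : E n} (hx : ht n x ≠ -1) : ContDiffAt ℝ ∞ (kk (n := n)) x := by
  unfold kk
  have h0 : (1 + ht n x) ≠ 0 := fun h => hx (by linarith)
  have h1 : ContDiffAt ℝ ∞ (fun x : E n => 2 / (1 + ht n x)) x :=
    contDiffAt_const.div (contDiffAt_const.add (ht n).contDiff.contDiffAt) h0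
  exact h1.smul (tailL n).contDiff.contDiffAt

/-- the permutation of the sphere induced by a permutation of `ℝ^n`, fixing the south pole -/
noncomputable def pushPerm (e : Equiv.Perm (V n)) : Equiv.Perm (S n) where
  toFun x := open Classical in if ht n (x : E n) = -1 then x else kapS (e (kk (x : E n)))
  invFun x := open Classical in if ht n (x : E n) = -1 then x else kapS (e.symm (kk (x : E n)))
  left_inv x := by
    by_cases h : ht n (x : E n) = -1
    · simp only [h, if_true]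
    · simp only [h, if_false, coe_kapS, ht_kap_ne, kk_kap, Equiv.symm_apply_apply, kapS_kk h]
  right_inv x := by
    by_cases h : ht n (x : E n) = -1
    · simp only [h, if_true]
    · simp only [h, if_false, coe_kapS, ht_kap_ne, kk_kap, Equiv.apply_symm_apply, kapS_kk h]

lemma pushPerm_of_eq (e : Equiv.Perm (V n)) {x : S n} (h : ht n (x : E n) = -1) :
    pushPerm e x = x := by
  simp [pushPerm, -ht_apply, h]

lemma pushPerm_of_ne (e : Equiv.Perm (V n)) {x : S n} (h : ht n (x : E n) ≠ -1) :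
    pushPerm e x = kapS (e (kk (x : E n))) := by
  simp [pushPerm, -ht_apply, h]

lemma pushPerm_kapS (e : Equiv.Perm (V n)) (y : V n) : pushPerm e (kapS y) = kapS (e y) := by
  rw [pushPerm_of_ne e (ht_kap_ne y), coe_kapS, kk_kap]

lemma pushPerm_symm (e : Equiv.Perm (V n)) : (pushPerm e).symm = pushPerm e.symm := by
  ext x : 1
  rfl

lemma exists_kapS {x : S n} (h : ht n (x : E n) ≠ -1) : ∃ y, kapS y = x := ⟨_, kapS_kk h⟩

lemma pushPerm_mul (e e' : Equiv.Perm (V n)) :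
    pushPerm (e * e') = pushPerm e * pushPerm e' := by
  ext x : 1
  by_cases h : ht n (x : E n) = -1
  · rw [Equiv.Perm.mul_apply, pushPerm_of_eq _ h, pushPerm_of_eq _ h, pushPerm_of_eq _ h]
  · obtain ⟨y, rfl⟩ := exists_kapS h
    rw [Equiv.Perm.mul_apply, pushPerm_kapS, pushPerm_kapS, pushPerm_kapS]; rfl

lemma pushPerm_one : pushPerm (1 : Equiv.Perm (V n)) = 1 := by
  ext x : 1
  by_cases h : ht n (x : E n) = -1
  · rw [pushPerm_of_eq _ h]; rfl
  · obtain ⟨y, rfl⟩ := exists_kapS h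
    rw [pushPerm_kapS]; rfl

lemma pushPerm_inv (e : Equiv.Perm (V n)) : pushPerm e⁻¹ = (pushPerm e)⁻¹ := rfl

/-- close to the south pole the stereographic coordinate is large -/
lemma norm_kk_ge {x : S n} (hx : ht n (x : E n) ≠ -1) {R : ℝ}
    (h : 1 + ht n (x : E n) ≤ 1 / (R ^ 2 + 1)) : R ≤ ‖kk (x : E n)‖ := by
  have hpos := one_add_ht_pos hx
  have h1 := norm_sq_kk hx
  have hR : (0:ℝ) < R ^ 2 + 1 := by positivity
  have h2 : (1 + ht n (x : E n)) * (R ^ 2 + 1) ≤ 1 := by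
    rwa [le_div_iff₀ hR] at h
  have h3 : ht n (x : E n) ≤ 0 := by nlinarith [sq_nonneg R]
  have h4 : ‖kk (x : E n)‖ ^ 2 * (1 + ht n (x : E n)) = 4 * (1 - ht n (x : E n)) := by
    have : ‖kk (x : E n)‖ ^ 2 = 4 * ((1 - ht n x) / (1 + ht n x)) := by linarith
    rw [this]; field_simp
  have h5 : R ^ 2 * (1 + ht n (x : E n)) ≤ ‖kk (x : E n)‖ ^ 2 * (1 + ht n (x : E n)) := by
    rw [h4]; nlinarith
  have h6 : R ^ 2 ≤ ‖kk (x : E n)‖ ^ 2 := le_of_mul_le_mul_right h5 hpos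
  exact (abs_le_of_sq_le_sq' h6 (norm_nonneg _)).2

/-- smooth families of compactly supported diffeomorphisms of `ℝ^n` -/
structure VFam (n : ℕ) where
  /-- the maps -/
  f : ℝ → Equiv.Perm (V n)
  smf : ContDiff ℝ ∞ (fun q : ℝ × V n => f q.1 q.2)
  smg : ContDiff ℝ ∞ (fun q : ℝ × V n => (f q.1).symm q.2)
  /-- radius of the support -/
  R : ℝ
  supp : ∀ t y, R ≤ ‖y‖ → f t y = y

lemma VFam.supp_symm (F : VFam n) (t : ℝ) (y : V n) (hy : F.R ≤ ‖y‖) : (F.f t).symm y = y := by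
  rw [Equiv.symm_apply_eq, F.supp t y hy]

lemma sms_push_aux {f : ℝ → Equiv.Perm (V n)} (hf : ContDiff ℝ ∞ (fun q : ℝ × V n => f q.1 q.2))
    {R : ℝ} (hR : ∀ t y, R ≤ ‖y‖ → f t y = y) : SmS (fun t x => pushPerm (f t) x) := by
  intro t x
  by_cases h : ht n (x : E n) = -1
  · refine (smAt_snd (z := t) (x := x)).congr ?_
    have hc : ContinuousAt (fun q : ℝ × S n => 1 + ht n (q.2 : E n)) (t, x) := by
      fun_prop
    have hpos : 1 + ht n (x : E n) < 1 / (R ^ 2 + 1) := by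
      rw [h]; simp; positivity
    filter_upwards [hc.eventually_lt_const hpos] with q hq
    by_cases h2 : ht n (q.2 : E n) = -1
    · rw [pushPerm_of_eq _ h2]
    · rw [pushPerm_of_ne _ h2, hR _ _ (norm_kk_ge h2 hq.le), kapS_kk h2]
  · have h1 : ContDiffAt ℝ ∞ (fun q : ℝ × E n => kap (f q.1 (kk q.2))) (t, (x : E n)) := by
      refine ContDiffAt.comp (t, (x : E n)) (g := kap) contDiff_kap.contDiffAt ?_
      refine ContDiffAt.comp (t, (x : E n)) (g := fun q : ℝ × V n => f q.1 q.2)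
        (f := fun q : ℝ × E n => (q.1, kk q.2)) hf.contDiffAt ?_
      exact contDiffAt_fst.prodMk (ContDiffAt.comp (t, (x : E n)) (g := kk) (f := Prod.snd)
        (contDiffAt_kk h) contDiffAt_snd)
    refine (SmAt.of_contDiffAt h1).congr ?_
    have hc : ContinuousAt (fun q : ℝ × S n => ht n (q.2 : E n)) (t, x) := by
      fun_prop
    filter_upwards [hc.eventually_ne h] with q hq
    rw [pushPerm_of_ne _ hq]; rfl

/-- the induced family on the sphere -/
noncomputable def VFam.push (F : VFam n) : Fam n where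
  f t := pushPerm (F.f t)
  smf := sms_push_aux F.smf F.supp
  smg := by
    have := sms_push_aux (f := fun t => (F.f t).symm) F.smg F.supp_symm
    exact this

/-- Eulerian velocity in `ℝ^n` -/
noncomputable def VFam.vel (F : VFam n) (q : ℝ × V n) : V n :=
  deriv (fun τ => F.f τ ((F.f q.1).symm q.2)) q.1

lemma VFam.contDiff_vel (F : VFam n) : ContDiff ℝ ∞ F.vel := by
  have h1 : ContDiff ℝ ∞ (fun q : ℝ × V n => (fderiv ℝ (fun q : ℝ × V n => F.f q.1 q.2)
      (q.1, (F.f q.1).symm q.2)) (1, 0)) := by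
    have h2 : ContDiff ℝ ∞ (fderiv ℝ (fun q : ℝ × V n => F.f q.1 q.2)) :=
      F.smf.fderiv_right (by simp)
    exact (h2.comp (contDiff_fst.prodMk F.smg)).clm_apply contDiff_const
  have h3 : F.vel = (fun q : ℝ × V n => (fderiv ℝ (fun q : ℝ × V n => F.f q.1 q.2)
      (q.1, (F.f q.1).symm q.2)) (1, 0)) := by
    funext q
    have hd : DifferentiableAt ℝ (fun q : ℝ × V n => F.f q.1 q.2) (q.1, (F.f q.1).symm q.2) :=
      F.smf.differentiable (by simp) _
    have h4 : HasDerivAt (fun τ : ℝ => ((τ, (F.f q.1).symm q.2) : ℝ × V n)) (1, 0) q.1 :=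
      (hasDerivAt_id q.1).prodMk (hasDerivAt_const q.1 _)
    exact (hd.hasFDerivAt.comp_hasDerivAt q.1 h4).deriv
  rw [h3]; exact h1

lemma VFam.hasDerivAt (F : VFam n) (t : ℝ) (y : V n) :
    HasDerivAt (fun τ => F.f τ ((F.f t).symm y)) (F.vel (t, y)) t := by
  have h1 : ContDiff ℝ ∞ (fun τ => F.f τ ((F.f t).symm y)) :=
    F.smf.comp (contDiff_id.prodMk contDiff_const)
  exact (h1.differentiable (by simp) t).hasDerivAt

lemma VFam.vel_eq_zero (F : VFam n) (t : ℝ) (y : V n) (hy : F.R ≤ ‖y‖) : F.vel (t, y) = 0 := by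
  unfold VFam.vel
  simp only [F.supp_symm t y hy, F.supp _ y hy]
  simp

lemma VFam.vel_push_of_eq (F : VFam n) (t : ℝ) {x : S n} (hx : ht n (x : E n) = -1) :
    F.push.vel t x = 0 := by
  have h1 : ∀ τ, F.push.f τ ((F.push.f t).symm x) = x := by
    intro τ
    have : (F.push.f t).symm x = x := by
      rw [Equiv.symm_apply_eq]
      exact (pushPerm_of_eq _ hx).symm
    rw [this]; exact pushPerm_of_eq _ hx
  unfold Fam.vel
  simp_rw [h1]
  simp

lemma VFam.vel_push_kapS (F : VFam n) (t : ℝ) (y : V n) :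
    F.push.vel t (kapS y) = fderiv ℝ kap y (F.vel (t, y)) := by
  have h1 : ∀ τ, (F.push.f τ ((F.push.f t).symm (kapS y)) : E n)
      = kap (F.f τ ((F.f t).symm y)) := by
    intro τ
    have : (F.push.f t).symm (kapS y) = kapS ((F.f t).symm y) := by
      rw [Equiv.symm_apply_eq]
      change _ = pushPerm (F.f t) _
      rw [pushPerm_kapS, Equiv.apply_symm_apply]
    rw [this]
    change ((pushPerm (F.f τ) _ : S n) : E n) = _
    rw [pushPerm_kapS]; rfl
  unfold Fam.vel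
  simp_rw [h1]
  have h2 := F.hasDerivAt t y
  have h3 : HasFDerivAt (kap (n := n)) (fderiv ℝ kap y) (F.f t ((F.f t).symm y)) := by
    rw [Equiv.apply_symm_apply]
    exact (contDiff_kap.differentiable (by simp) y).hasFDerivAt
  exact (h3.comp_hasDerivAt t h2).deriv

/-- scaled permutation `y ↦ y₀ + ρ e((y - y₀)/ρ)` -/
noncomputable def scaleP (ρ : ℝ) (hρ : ρ ≠ 0) (y₀ : V n) (e : Equiv.Perm (V n)) :
    Equiv.Perm (V n) where
  toFun y := y₀ + ρ • e (ρ⁻¹ • (y - y₀))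
  invFun y := y₀ + ρ • e.symm (ρ⁻¹ • (y - y₀))
  left_inv y := by simp [smul_smul, hρ]
  right_inv y := by simp [smul_smul, hρ]

lemma scaleP_apply (ρ : ℝ) (hρ : ρ ≠ 0) (y₀ : V n) (e : Equiv.Perm (V n)) (y : V n) :
    scaleP ρ hρ y₀ e y = y₀ + ρ • e (ρ⁻¹ • (y - y₀)) := rfl

lemma scaleP_symm_apply (ρ : ℝ) (hρ : ρ ≠ 0) (y₀ : V n) (e : Equiv.Perm (V n)) (y : V n) :
    (scaleP ρ hρ y₀ e).symm y = y₀ + ρ • e.symm (ρ⁻¹ • (y - y₀)) := rfl

lemma scale_norm_aux {ρ R : ℝ} (hρ : 0 < ρ) {y y₀ : V n} (h : ‖y₀‖ + ρ * R ≤ ‖y‖) :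
    R ≤ ‖ρ⁻¹ • (y - y₀)‖ := by
  rw [norm_smul, norm_inv, Real.norm_of_nonneg hρ.le]
  have h1 : ‖y‖ ≤ ‖y - y₀‖ + ‖y₀‖ := by simpa using norm_add_le (y - y₀) y₀
  rw [inv_mul_eq_div, le_div_iff₀ hρ]
  linarith

/-- the scaled family -/
noncomputable def VFam.scale (F : VFam n) (ρ : ℝ) (hρ : 0 < ρ) (y₀ : V n) : VFam n where
  f t := scaleP ρ hρ.ne' y₀ (F.f t)
  smf := by
    have h0 : ContDiff ℝ ∞ (fun q : ℝ × V n => ρ⁻¹ • (q.2 - y₀)) :=
      (contDiff_snd.sub contDiff_const).const_smul ρ⁻¹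
    have h1 : ContDiff ℝ ∞ (fun q : ℝ × V n => F.f q.1 (ρ⁻¹ • (q.2 - y₀))) :=
      F.smf.comp (contDiff_fst.prodMk h0)
    exact contDiff_const.add (h1.const_smul ρ)
  smg := by
    have h0 : ContDiff ℝ ∞ (fun q : ℝ × V n => ρ⁻¹ • (q.2 - y₀)) :=
      (contDiff_snd.sub contDiff_const).const_smul ρ⁻¹
    have h1 : ContDiff ℝ ∞ (fun q : ℝ × V n => (F.f q.1).symm (ρ⁻¹ • (q.2 - y₀))) :=
      F.smg.comp (contDiff_fst.prodMk h0)
    exact contDiff_const.add (h1.const_smul ρ)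
  R := ‖y₀‖ + ρ * F.R
  supp t y hy := by
    rw [scaleP_apply, F.supp t _ (scale_norm_aux hρ hy), smul_smul, mul_inv_cancel₀ hρ.ne',
      one_smul, add_sub_cancel]

lemma VFam.vel_scale (F : VFam n) (ρ : ℝ) (hρ : 0 < ρ) (y₀ : V n) (t : ℝ) (y : V n) :
    (F.scale ρ hρ y₀).vel (t, y) = ρ • F.vel (t, ρ⁻¹ • (y - y₀)) := by
  have h1 : ∀ τ, (F.scale ρ hρ y₀).f τ (((F.scale ρ hρ y₀).f t).symm y)
      = y₀ + ρ • F.f τ ((F.f t).symm (ρ⁻¹ • (y - y₀))) := by
    intro τ
    change scaleP ρ hρ.ne' y₀ (F.f τ) ((scaleP ρ hρ.ne' y₀ (F.f t)).symm y) = _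
    rw [scaleP_symm_apply, scaleP_apply, add_sub_cancel_left, smul_smul, inv_mul_cancel₀ hρ.ne',
      one_smul]
  have h2 := F.hasDerivAt t (ρ⁻¹ • (y - y₀))
  have h3 := (h2.const_smul ρ).const_add y₀
  unfold VFam.vel
  simp only [h1]
  exact h3.deriv

end Pool.Agent.H78.Diam
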