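import Pool.Agent.H78.Diam.Contr

open scoped ContDiff Manifold ENNReal Topology
open MeasureTheory Set

namespace Pool.Agent.H78.Diam

variable {n : ℕ}

/-! ### the antipodal map -/

/-- the antipodal map -/
noncomputable def anti (n : ℕ) : Equiv.Perm (S n) := Equiv.neg (S n)

lemma coe_anti (x : S n) : (anti n x : E n) = -(x : E n) := rfl

lemma anti_symm : (anti n).symm = anti n := rfl

lemma anti_anti (x : S n) : anti n (anti n x) = x := by
  apply Subtype.ext
  rw [coe_anti, coe_anti, neg_neg]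

lemma anti_mul_anti : anti n * anti n = 1 := by
  ext x : 1
  exact anti_anti x

lemma smPerm_anti : SmPerm (anti n) :=
  ⟨fun _ _ => SmAt.of_contDiffAt (Φ := fun q : ℝ × E n => -q.2) contDiffAt_snd.neg,
    fun _ _ => SmAt.of_contDiffAt (Φ := fun q : ℝ × E n => -q.2) contDiffAt_snd.neg⟩

lemma pinv_neg (A : V n →L[ℝ] E n) : pinv (-A) = - pinv A := by
  unfold pinv
  have h1 : ContinuousLinearMap.adjoint (-A) = - ContinuousLinearMap.adjoint A := by
    rw [map_neg]
  rw [h1]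
  have h2 : (-ContinuousLinearMap.adjoint A).comp (-A) = (ContinuousLinearMap.adjoint A).comp A := by
    ext v : 1; simp
  rw [h2]
  ext v : 1; simp

/-- the atlas transported by the antipodal map -/
noncomputable def Atlas.flip (D : Atlas n) : Atlas n where
  N := D.N
  e a ξ := anti n (D.e a ξ)
  U := D.U
  K := D.K
  ρ a x := D.ρ a (anti n x)
  smooth_e a := (D.smooth_e a).neg
  isOpen_U := D.isOpen_U
  inj a ξ hξ η hη h := D.inj a hξ hη ((anti n).injective h)
  imm a ξ hξ := by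
    have h1 : fderiv ℝ (fun η => (anti n (D.e a η) : E n)) ξ
        = - fderiv ℝ (fun η => (D.e a η : E n)) ξ := by
      have : (fun η => (anti n (D.e a η) : E n)) = fun η => -(D.e a η : E n) := rfl
      rw [this, fderiv_fun_neg]
    rw [h1]
    intro v w h
    have h2 : -(fderiv ℝ (fun η => (D.e a η : E n)) ξ v)
        = -(fderiv ℝ (fun η => (D.e a η : E n)) ξ w) := h
    exact D.imm a ξ hξ (neg_injective h2)
  isCompact_K := D.isCompact_K
  K_subset := D.K_subset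
  smooth_ρ a := by
    have : Fact (Module.finrank ℝ (E n) = n + 1) := ⟨by simp⟩
    exact (D.smooth_ρ a).comp (contMDiff_neg_sphere (E := E n))
  ρ_nonneg a x := D.ρ_nonneg a _
  ρ_sum x := D.ρ_sum _
  ρ_supp a := by
    have h1 : tsupport (fun x => D.ρ a (anti n x)) = (anti n) ⁻¹' (tsupport (D.ρ a)) :=
      tsupport_comp_eq_preimage (D.ρ a) (Homeomorph.neg (S n))
    rw [h1]
    intro x hx
    obtain ⟨ξ, hξ, hξx⟩ := D.ρ_supp a hx
    refine ⟨ξ, hξ, ?_⟩
    change anti n (D.e a ξ) = x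
    rw [hξx, anti_anti]

lemma Atlas.flip_norm (D : Atlas n) (s p : ℝ) (u : S n → E n) :
    D.flip.norm s p u = D.norm s p (fun x => -u (anti n x)) := by
  unfold Atlas.norm
  have h1 : ∀ a : Fin D.N, D.flip.localRep a u = D.localRep a (fun x => -u (anti n x)) := by
    intro a
    funext ξ
    have h2 : fderiv ℝ (D.flip.ee a) ξ = - fderiv ℝ (D.ee a) ξ := by
      have : D.flip.ee a = fun η => -(D.ee a η) := rfl
      rw [this, fderiv_fun_neg]
    refine (D.flip.localRep_eq a u ξ).trans ?_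
    refine Eq.trans ?_ (D.localRep_eq a (fun x => -u (anti n x)) ξ).symm
    have h3 : D.flip.P a ξ = - D.P a ξ := by
      unfold Atlas.P
      by_cases h : ξ ∈ D.U a
      · have h' : ξ ∈ D.flip.U a := h
        rw [if_pos h, if_pos h', h2, pinv_neg]
        have h4 : D.flip.ρ a (D.flip.e a ξ) = D.ρ a (D.e a ξ) := by
          change D.ρ a (anti n (anti n (D.e a ξ))) = _
          rw [anti_anti]
        rw [h4]
        ext v : 1
        simp
      · have h' : ξ ∉ D.flip.U a := h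
        rw [if_neg h, if_neg h']
        simp
    rw [h3]
    change -(D.P a ξ (u (anti n (D.e a ξ)))) = D.P a ξ (-u (anti n (D.e a ξ)))
    rw [map_neg]
  change (∑ a : Fin D.N, sobolevNorm (n : ℝ) s p (D.flip.localRep a u) ^ (2 : ℝ)) ^ (1 / 2 : ℝ) = _
  simp_rw [h1]

lemma Cost.flip {D : Atlas n} {s p : ℝ} {a : Equiv.Perm (S n)} {c : ℝ≥0∞}
    (h : Cost D.flip s p a c) : Cost D s p (anti n * a * anti n) c := by
  obtain ⟨F, F0, F1, hF⟩ := h
  refine ⟨F.conj (anti n) smPerm_anti, ?_, ?_, ?_⟩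
  · change anti n * F.f 0 * (anti n)⁻¹ = 1
    rw [F0]; simp
  · change anti n * F.f 1 * (anti n)⁻¹ = _
    rw [F1]; rfl
  · refine le_trans (le_of_eq ?_) hF
    refine setLIntegral_congr_fun measurableSet_Icc fun t _ => ?_
    rw [D.flip_norm]
    congr 1
    funext x
    have h1 : ∀ τ, ((F.conj (anti n) smPerm_anti).f τ
        (((F.conj (anti n) smPerm_anti).f t).symm x) : E n)
        = -(F.f τ ((F.f t).symm (anti n x)) : E n) := by
      intro τ
      have h2 : ((F.conj (anti n) smPerm_anti).f t).symm x = anti n ((F.f t).symm (anti n x)) := rfl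
      rw [h2]
      change ((anti n (F.f τ ((anti n) (anti n ((F.f t).symm (anti n x))))) : S n) : E n) = _
      rw [anti_anti]; rfl
    unfold Fam.vel
    simp_rw [h1]
    rw [deriv.fun_neg]

/-! ### diffeomorphisms supported away from a point -/

/-- `a` is isotopic to the identity through diffeomorphisms fixing a neighbourhood of `q` -/
def Gq (q : S n) (a : Equiv.Perm (S n)) : Prop :=
  ∃ F : Fam n, F.f 0 = 1 ∧ F.f 1 = a ∧ ∃ O ∈ 𝓝 q, ∀ t, ∀ x ∈ O, F.f t x = x

lemma Gq.one (q : S n) : Gq q (1 : Equiv.Perm (S n)) :=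
  ⟨Fam.const 1 smPerm_one, rfl, rfl, univ, Filter.univ_mem, fun _ _ _ => rfl⟩

lemma Gq.mul {q : S n} {a b : Equiv.Perm (S n)} (ha : Gq q a) (hb : Gq q b) : Gq q (a * b) := by
  obtain ⟨F, F0, F1, O, hO, hFO⟩ := ha
  obtain ⟨G, G0, G1, O', hO', hGO⟩ := hb
  refine ⟨F.mul G, ?_, ?_, O ∩ O', Filter.inter_mem hO hO', fun t x hx => ?_⟩
  · change F.f 0 * G.f 0 = 1
    rw [F0, G0, mul_one]
  · change F.f 1 * G.f 1 = _
    rw [F1, G1]
  · change F.f t (G.f t x) = x
    rw [hGO t x hx.2, hFO t x hx.1]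

lemma Gq.smPerm {q : S n} {a : Equiv.Perm (S n)} (ha : Gq q a) : SmPerm a := by
  obtain ⟨F, _, F1, _⟩ := ha
  exact F1 ▸ F.smPerm 1

lemma Gq.apply {q : S n} {a : Equiv.Perm (S n)} (ha : Gq q a) : a q = q := by
  obtain ⟨F, _, F1, O, hO, h⟩ := ha
  rw [← F1]; exact h 1 q (mem_of_mem_nhds hO)

lemma SmPerm.continuous {a : Equiv.Perm (S n)} (ha : SmPerm a) : Continuous a := by
  have := SmS.continuous ha.sm
  exact this.comp (Continuous.prodMk (continuous_const (y := (0:ℝ))) continuous_id)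

lemma Gq.conj {q : S n} {a k : Equiv.Perm (S n)} (ha : Gq q a) (hk : SmPerm k) :
    Gq (k q) (k * a * k⁻¹) := by
  obtain ⟨F, F0, F1, O, hO, h⟩ := ha
  refine ⟨F.conj k hk, ?_, ?_, (fun x => k⁻¹ x) ⁻¹' O, ?_, fun t x hx => ?_⟩
  · change k * F.f 0 * k⁻¹ = 1
    rw [F0]; simp
  · change k * F.f 1 * k⁻¹ = _
    rw [F1]
  · refine hk.inv.continuous.continuousAt.preimage_mem_nhds ?_
    have : k⁻¹ (k q) = q := k.symm_apply_apply q
    rw [this]; exact hO
  · change k (F.f t (k⁻¹ x)) = x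
    rw [h t _ hx]
    exact k.apply_symm_apply x

/-- transport to `ℝ^n` of a family fixing the south pole and the outside of a ball -/
lemma exists_pull (F : Fam n) (hS : ∀ t (x : S n), ht n (x : E n) = -1 → F.f t x = x)
    (hB : ∀ t (y : V n), 2 ≤ ‖y‖ → F.f t (kapS y) = kapS y) :
    ∃ G : VFam n, G.R = 2 ∧ ∀ t, pushPerm (G.f t) = F.f t := by
  have hne : ∀ t y, ht n (F.f t (kapS y) : E n) ≠ -1 := by
    intro t y h
    have h1 := hS t _ h
    have h2 := (F.f t).injective h1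
    rw [h2] at h
    exact ht_kap_ne y h
  have hSs : ∀ t (x : S n), ht n (x : E n) = -1 → (F.f t).symm x = x := by
    intro t x h
    rw [Equiv.symm_apply_eq, hS t x h]
  have hne' : ∀ t y, ht n ((F.f t).symm (kapS y) : E n) ≠ -1 := by
    intro t y h
    have h1 := hSs t _ h
    have h2 := (F.f t).symm.injective h1
    rw [h2] at h
    exact ht_kap_ne y h
  have hsm : ∀ {f : ℝ → Equiv.Perm (S n)}, SmS (fun t x => f t x) →
      (∀ t y, ht n (f t (kapS y) : E n) ≠ -1) →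
      ContDiff ℝ ∞ (fun q : ℝ × V n => kk (f q.1 (kapS q.2) : E n)) := by
    intro f hf hne
    rw [contDiff_iff_contDiffAt]
    rintro ⟨t, y⟩
    have h1 : ContDiffAt ℝ ∞ (fun q : ℝ × E n => (f q.1 (nrm q.2) : E n)) (t, kap y) :=
      hf t (kapS y)
    have h2 := ContDiffAt.comp (t, y) (g := fun q : ℝ × E n => (f q.1 (nrm q.2) : E n))
      (f := fun q : ℝ × V n => (q.1, kap q.2)) h1
      (contDiffAt_fst.prodMk (contDiff_kap.contDiffAt.comp (t, y) contDiffAt_snd))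
    have h3 : ((fun q : ℝ × E n => (f q.1 (nrm q.2) : E n)) ∘
        (fun q : ℝ × V n => (q.1, kap q.2))) = fun q : ℝ × V n => (f q.1 (kapS q.2) : E n) := by
      funext q
      simp only [Function.comp]
      have : nrm (kap q.2) = kapS q.2 := nrm_coe (kapS q.2)
      rw [this]
    rw [h3] at h2
    exact ContDiffAt.comp (t, y) (g := kk) (f := fun q : ℝ × V n => (f q.1 (kapS q.2) : E n))
      (contDiffAt_kk (hne t y)) h2
  refine ⟨{
    f := fun t =>
      { toFun := fun y => kk (F.f t (kapS y) : E n)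
        invFun := fun y => kk ((F.f t).symm (kapS y) : E n)
        left_inv := fun y => by
          simp only [kapS_kk (hne t y), Equiv.symm_apply_apply, coe_kapS, kk_kap]
        right_inv := fun y => by
          simp only [kapS_kk (hne' t y), Equiv.apply_symm_apply, coe_kapS, kk_kap] }
    smf := hsm F.smf hne
    smg := hsm (f := fun t => (F.f t).symm) F.smg hne'
    R := 2
    supp := fun t y hy => by
      change kk (F.f t (kapS y) : E n) = y
      rw [hB t y hy, coe_kapS, kk_kap] }, rfl, fun t => ?_⟩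
  ext x : 1
  by_cases h : ht n (x : E n) = -1
  · rw [pushPerm_of_eq _ h, hS t x h]
  · obtain ⟨y, rfl⟩ := exists_kapS h
    rw [pushPerm_kapS]
    exact kapS_kk (hne t y)

/-- the antipode of a point of large coordinate has small coordinate -/
lemma exists_small_antipode (y : V n) (hy : 2 ≤ ‖y‖) :
    ∃ z : V n, ‖z‖ ≤ 2 ∧ kapS z = anti n (kapS y) := by
  have hq : 1 ≤ ‖y‖ ^ 2 / 4 := by nlinarith
  have hht : ht n (anti n (kapS y) : E n) = -((1 - ‖y‖ ^ 2 / 4) / (1 + ‖y‖ ^ 2 / 4)) := by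
    rw [coe_anti, map_neg, coe_kapS, ht_kap]
  have hne : ht n (anti n (kapS y) : E n) ≠ -1 := by
    rw [hht]
    intro h
    have h1 : (1 - ‖y‖ ^ 2 / 4) / (1 + ‖y‖ ^ 2 / 4) = 1 := by linarith
    rw [div_eq_one_iff_eq (by positivity)] at h1
    linarith
  refine ⟨kk (anti n (kapS y) : E n), ?_, kapS_kk hne⟩
  have h1 := norm_sq_kk hne
  rw [hht] at h1
  have h2 : (1 - -((1 - ‖y‖ ^ 2 / 4) / (1 + ‖y‖ ^ 2 / 4)))
      / (1 + -((1 - ‖y‖ ^ 2 / 4) / (1 + ‖y‖ ^ 2 / 4))) ≤ 1 := by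
    have hpos : 0 < 1 + ‖y‖ ^ 2 / 4 := by positivity
    have h3 : (1 - ‖y‖ ^ 2 / 4) / (1 + ‖y‖ ^ 2 / 4) ≤ 0 :=
      div_nonpos_of_nonpos_of_nonneg (by linarith) hpos.le
    rw [div_le_one (by linarith)]
    linarith
  have h4 : ‖kk (anti n (kapS y) : E n)‖ ^ 2 ≤ 2 ^ 2 := by linarith
  exact (abs_le_of_sq_le_sq' h4 (by norm_num)).2

lemma Kp_conj_scale (G : Equiv.Perm (V n)) (hG : ∀ y, 2 ≤ ‖y‖ → G y = y) (m : ℕ) :
    Kp 0 m * G * (Kp 0 m)⁻¹ = scaleP ((1 / 2 : ℝ) ^ m) (by positivity) 0 G := by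
  rw [mul_inv_eq_iff_eq_mul]
  have h0 : ((1 / 2 : ℝ) ^ m) ≠ 0 := by positivity
  have hK : ∀ y : V n, ‖y‖ ≤ 4 → Kp 0 m y = ((1 / 2 : ℝ) ^ m) • y := by
    intro y hy
    have := Kp_apply 0 m y (by simpa using hy)
    simpa using this
  ext y : 1
  rw [Equiv.Perm.mul_apply, Equiv.Perm.mul_apply]
  by_cases hy : ‖y‖ ≤ 4
  · have hGy : ‖G y‖ ≤ 4 := by
      by_contra h
      push Not at h
      have h1 : G (G y) = G y := hG _ (by linarith)
      have h2 : G y = y := G.injective h1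
      rw [h2] at h; linarith
    rw [hK _ hGy, hK _ hy, scaleP_apply]
    simp [smul_smul]
  · push Not at hy
    rw [hG y (by linarith), scaleP_apply]
    have h1 : 4 ≤ ‖((1 / 2 : ℝ) ^ m)⁻¹ • (Kp 0 m y - 0)‖ := by
      by_contra h
      push Not at h
      set z := ((1 / 2 : ℝ) ^ m)⁻¹ • (Kp 0 m y - 0) with hz
      have h2 : Kp 0 m z = Kp 0 m y := by
        rw [hK z h.le, hz, smul_smul, mul_inv_cancel₀ h0, one_smul, sub_zero]
      have h3 : z = y := (Kp 0 m).injective h2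
      rw [h3] at h; linarith
    rw [hG _ (by linarith)]
    simp [smul_smul]

theorem gq_cost (D : Atlas n) (hn : 1 ≤ n) {s p : ℝ} (hs : 0 ≤ s) (hp : 1 ≤ p)
    (hsp : s < 1 + n / p) :
    ∃ C : ℝ, 0 ≤ C ∧ ∀ y₀ : V n, ‖y₀‖ ≤ 1 / 2 → ∀ a, Gq (kapS y₀) a →
      Cost D s p a (ENNReal.ofReal C) := by
  obtain ⟨C₁, hC₁, hK₁⟩ := Kp_cost D hn hs hp hsp
  obtain ⟨C₂, hC₂, hK₂⟩ := Kp_cost D.flip hn hs hp hsp
  refine ⟨C₁ + (C₂ + 1 + C₂) + C₁, by positivity, fun y₀ hy₀ a ha => ?_⟩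
  obtain ⟨F, F0, F1, O, hO, hFO⟩ := ha
  have hcont_kapS : Continuous (kapS (n := n)) :=
    Continuous.subtype_mk contDiff_kap.continuous _
  -- choose the expansion factor
  obtain ⟨J, hJ⟩ : ∃ J : ℕ, ∀ y : V n, ‖y - y₀‖ ≤ 4 → kapS (y₀ + ((1 / 2 : ℝ) ^ J) • (y - y₀)) ∈ O := by
    have h1 : kapS ⁻¹' O ∈ 𝓝 y₀ := hcont_kapS.continuousAt.preimage_mem_nhds hO
    obtain ⟨ε, hε, hball⟩ := Metric.mem_nhds_iff.1 h1
    obtain ⟨J, hJ⟩ := exists_pow_lt_of_lt_one (by positivity : 0 < ε / 4)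
      (by norm_num : (1 / 2 : ℝ) < 1)
    refine ⟨J, fun y hy => hball ?_⟩
    rw [Metric.mem_ball, dist_eq_norm, add_sub_cancel_left, norm_smul,
      Real.norm_of_nonneg (by positivity)]
    have h2 : (1 / 2 : ℝ) ^ J * ‖y - y₀‖ ≤ (1 / 2 : ℝ) ^ J * 4 :=
      mul_le_mul_of_nonneg_left hy (by positivity)
    have h3 : (1 / 2 : ℝ) ^ J * 4 < ε / 4 * 4 := mul_lt_mul_of_pos_right hJ (by norm_num)
    linarith
  set K : Equiv.Perm (S n) := pushPerm (Kp y₀ J) with hK
  have hcK : Cost D s p K (ENNReal.ofReal C₁) := hK₁ J y₀ hy₀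
  have hKsm : SmPerm K := by
    obtain ⟨G, _, G1, _⟩ := hcK
    exact G1 ▸ G.smPerm 1
  set F' : Fam n := F.conj K⁻¹ hKsm.inv with hF'
  have hF'f : ∀ t, F'.f t = K⁻¹ * F.f t * K := by
    intro t
    change K⁻¹ * F.f t * (K⁻¹)⁻¹ = _
    rw [inv_inv]
  have hfix' : ∀ t (y : V n), ‖y - y₀‖ ≤ 4 → F'.f t (kapS y) = kapS y := by
    intro t y hy
    rw [hF'f]
    change K.symm (F.f t (K (kapS y))) = _
    have h1 : K (kapS y) = kapS (y₀ + ((1 / 2 : ℝ) ^ J) • (y - y₀)) := by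
      rw [hK, pushPerm_kapS, Kp_apply y₀ J y hy]
    have h2 : F.f t (K (kapS y)) = K (kapS y) := hFO t _ (h1 ▸ hJ y hy)
    rw [h2, Equiv.symm_apply_apply]
  -- conjugate by the antipode
  set F'' : Fam n := F'.conj (anti n) smPerm_anti with hF''
  have hF''f : ∀ t, F''.f t = anti n * F'.f t * anti n := fun t => rfl
  have hfix'' : ∀ t (z : V n) (x : S n), ‖z‖ ≤ 3 → kapS z = anti n x → F''.f t x = x := by
    intro t z x hz hx
    rw [hF''f]
    change anti n (F'.f t (anti n x)) = x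
    rw [← hx, hfix' t z (by
      have := norm_sub_le z y₀
      linarith), hx, anti_anti]
  obtain ⟨G, hGR, hG⟩ := exists_pull F''
    (fun t x hx => by
      refine hfix'' t 0 x (by simp) ?_
      apply Subtype.ext
      rw [coe_kapS, coe_anti]
      have h1 := norm_sq_decomp (x : E n)
      rw [norm_coe, hx] at h1
      have h2 : ‖tailL n (x : E n)‖ = 0 := by
        have : ‖tailL n (x : E n)‖ ^ 2 = 0 := by linarith
        exact pow_eq_zero_iff (by norm_num) |>.1 this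
      have h3 : tailL n (x : E n) = 0 := norm_eq_zero.1 h2
      rw [decomp (x : E n), hx, h3]
      simp [kap])
    (fun t y hy => by
      obtain ⟨z, hz, hzy⟩ := exists_small_antipode y hy
      exact hfix'' t z (kapS y) (by linarith) hzy)
  have hG0 : G.f 0 = 1 := by
    have h1 : pushPerm (G.f 0) = (1 : Equiv.Perm (S n)) := by
      rw [hG, hF''f, hF'f, F0]
      simp [anti_mul_anti]
    ext y : 1
    have h2 : pushPerm (G.f 0) (kapS y) = kapS y := by rw [h1]; rfl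
    rw [pushPerm_kapS] at h2
    have h3 := congrArg (fun x : S n => kk (x : E n)) h2
    simpa [kk_kap] using h3
  obtain ⟨C₃, hC₃, hest⟩ := cost_estimate D.flip hn hs hp G hG0
  -- choose the final contraction factor
  obtain ⟨m, hm⟩ : ∃ m : ℕ, C₃ * ((1 / 2 : ℝ) ^ m) ^ (1 - s + n / p) ≤ 1 := by
    set α : ℝ := 1 - s + n / p with hα
    have hα0 : 0 < α := by rw [hα]; linarith
    set r : ℝ := (1 / 2 : ℝ) ^ α with hr
    have hr0 : 0 < r := by positivity
    have hr1 : r < 1 := Real.rpow_lt_one (by norm_num) (by norm_num) hα0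
    obtain ⟨m, hm⟩ := exists_pow_lt_of_lt_one (by positivity : 0 < 1 / (C₃ + 1)) hr1
    refine ⟨m, ?_⟩
    have h3 : ((1 / 2 : ℝ) ^ m) ^ α = r ^ m := by
      rw [hr, ← Real.rpow_natCast, ← Real.rpow_mul (by norm_num), mul_comm, Real.rpow_mul
        (by norm_num), Real.rpow_natCast]
    rw [h3]
    have h4 : C₃ * r ^ m ≤ C₃ * (1 / (C₃ + 1)) := mul_le_mul_of_nonneg_left hm.le hC₃
    have h5 : C₃ * (1 / (C₃ + 1)) ≤ 1 := by
      rw [mul_one_div, div_le_one (by positivity)]; linarith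
    linarith
  set L : Equiv.Perm (S n) := pushPerm (Kp 0 m) with hL
  have hcL : Cost D.flip s p L (ENNReal.ofReal C₂) := hK₂ m 0 (by simp)
  have hconj : L * F''.f 1 * L⁻¹
      = pushPerm (scaleP ((1 / 2 : ℝ) ^ m) (by positivity) 0 (G.f 1)) := by
    rw [← hG, hL, ← pushPerm_inv, ← pushPerm_mul, ← pushPerm_mul,
      Kp_conj_scale (G.f 1) (fun y hy => G.supp 1 y (by rw [hGR]; exact hy))]
  have hc1 : Cost D.flip s p (L * F''.f 1 * L⁻¹) (ENNReal.ofReal 1) := by
    rw [hconj]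
    refine (hest ((1 / 2 : ℝ) ^ m) (by positivity) 0 (pow_le_one₀ (by norm_num) (by norm_num))
      (by simp)).mono (ENNReal.ofReal_le_ofReal hm)
  have hc2 : Cost D.flip s p (F''.f 1) (ENNReal.ofReal (C₂ + 1 + C₂)) := by
    have h1 := Cost.conj hp (hcL.inv hp) hc1
    have h2 : L⁻¹ * (L * F''.f 1 * L⁻¹) * (L⁻¹)⁻¹ = F''.f 1 := by group
    rw [h2] at h1
    refine h1.mono (le_of_eq ?_)
    rw [← ENNReal.ofReal_add hC₂ (by norm_num), ← ENNReal.ofReal_add (by positivity) hC₂]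
  have hc3 : Cost D s p (F'.f 1) (ENNReal.ofReal (C₂ + 1 + C₂)) := by
    have h1 := hc2.flip
    have h2 : anti n * F''.f 1 * anti n = F'.f 1 := by
      rw [hF''f]
      calc anti n * (anti n * F'.f 1 * anti n) * anti n
          = (anti n * anti n) * F'.f 1 * (anti n * anti n) := by group
        _ = F'.f 1 := by rw [anti_mul_anti, one_mul, mul_one]
    rwa [h2] at h1
  have h1 := Cost.conj hp hcK hc3
  have h2 : K * F'.f 1 * K⁻¹ = a := by
    rw [hF'f, F1]; group
  rw [h2] at h1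
  refine h1.mono (le_of_eq ?_)
  rw [← ENNReal.ofReal_add hC₁ (by positivity), ← ENNReal.ofReal_add (by positivity) hC₁]

end Pool.Agent.H78.Diam
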